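import Pool.Agent.W5h14.TV.Tame
import Pool.Agent.W5h83.FS.Top

/-!
# The criterion for tame flag spheres
-/

set_option autoImplicit false

namespace Pool.Agent.W5h14.TV

open Finset Classical
open Pool.Agent.W907.SG Pool.Agent.W907.SM Pool.Agent.W5h83.FS
open Pool.Agent.TH652.Above (HSph)

/-- a 0-sphere has two points -/
theorem sp_one_card {V : Type} {G : SimpleGraph V} {S : Finset V} (h3 : Sp G 1 S) : S.card = 2 := by
  obtain ⟨⟨a, ha⟩, h4⟩ := h3
  have h5 : (mn G S a).card ≤ 1 := by
    by_contra h6
    push Not at h6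
    obtain ⟨b, hb, c, hc, hbc⟩ := one_lt_card.1 h6
    obtain ⟨d, hd, e, he, -, hde⟩ := (h4 a ha).2.2 {b} (by
      rw [singleton_subset_iff]
      exact hb) (singleton_nonempty b) (by
      intro h7
      rw [← h7, mem_singleton] at hc
      exact hbc hc.symm)
    have h8 : Sp G 0 (nb G S d) := (h4 d (by
      rw [mem_singleton] at hd
      rw [hd]
      exact (mem_mn.1 hb).1)).1
    have h9 : nb G S d = ∅ := h8
    have h10 : e ∈ nb G S d := mem_nb.2 ⟨(mem_mn.1 he).1, hde⟩
    rw [h9] at h10
    exact notMem_empty _ h10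
  have h6 : nb G S a = ∅ := (h4 a ha).1
  have h7 := card_split (G := G) ha
  have h8 := card_pos.2 (h4 a ha).2.1
  rw [h6, card_empty] at h7
  omega

/-- the link of a vertex in a link -/
theorem nb_lkF {V : Type} [Fintype V] [LinearOrder V] {G : SimpleGraph V} (T : Finset V) (v : V) :
    nb G (lkF G T) v = lkF G (insert v T) := by
  ext x
  rw [mem_nb, mem_lkF, mem_lkF]
  constructor
  · rintro ⟨h1, h2⟩ u hu
    rcases mem_insert.1 hu with rfl | hu
    · exact h2.symm
    · exact h1 u hu
  · intro h
    exact ⟨fun u hu => h u (mem_insert_of_mem hu), (h v (mem_insert_self v T)).symm⟩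

theorem lkF_clique {V : Type} [Fintype V] [LinearOrder V] {G : SimpleGraph V} {T : Finset V} (hT : G.IsClique (T : Set V)) {v : V}
    (hv : v ∈ lkF G T) : G.IsClique ((insert v T : Finset V) : Set V) ∧ (insert v T).card = T.card + 1 := by
  have h1 := (mem_lkF G T v).1 hv
  refine ⟨?_, card_insert_of_notMem fun h => (h1 v h).ne rfl⟩
  rw [coe_insert]
  exact hT.insert fun u hu _ => h1 u hu

/-- **The criterion.** -/
theorem tame_of_crit {V : Type} [Fintype V] [LinearOrder V] {G : SimpleGraph V} {n : ℕ} (hS : HSph n G)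
    (hJ : ∀ T : Finset V, G.IsClique (T : Set V) → T.card + 3 = n → Jor G (lkF G T))
    (hc : ∀ (T : Finset V) (m : ℕ), G.IsClique (T : Set V) → T.card + (2 * m + 5) = n →
      2 * (lkF G T).card ≤ 5 * (2 * m + 5) + 2 ∨ ∃ v ∈ lkF G T, TreeOn G (mn G (lkF G T) v)) :
    ∀ (k : ℕ) (T : Finset V), G.IsClique (T : Set V) → T.card + k = n → Tame G k (lkF G T) := by
  intro k
  induction k using Nat.strong_induction_on with
  | _ k ih =>
    intro T hT hk
    have hSp := sp_of_hsph hS k T hT hk
    have hv : ∀ v ∈ lkF G T, ∀ j, k = j + 1 → Tame G j (nb G (lkF G T) v) := by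
      intro v hv j hj
      have h1 := lkF_clique hT hv
      rw [nb_lkF]
      exact ih j (by omega) _ h1.1 (by omega)
    rcases Nat.even_or_odd' k with ⟨m, rfl | rfl⟩
    · rcases m with _ | m
      · refine Tame.few _ _ ?_
        have h1 : lkF G T = ∅ := hSp
        rw [h1, card_empty]
        omega
      · exact Tame.even m _ fun x hx => hv x hx _ (by ring)
    · rcases m with _ | _ | m
      · refine Tame.few _ _ ?_
        have h1 : (lkF G T).card = 2 := sp_one_card hSp
        omega
      · exact Tame.two _ (hJ T hT hk)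
      · rcases hc T m hT (by omega) with h | ⟨v, hvT, h⟩
        · exact Tame.few _ _ (by omega)
        · have h2 := Tame.tree (m + 1) _ v hvT h (fun x hx => hv x hx _ (by ring)) (by
            intro a ha b hb hab
            have h3 := lkF_clique hT (mem_mn.1 ha).1
            have h4 : b ∈ lkF G (insert a T) := by
              rw [← nb_lkF]
              exact mem_nb.2 ⟨(mem_mn.1 hb).1, hab⟩
            have h5 := lkF_clique h3.1 h4
            rw [nb_lkF, nb_lkF]
            exact ih _ (by omega) _ h5.1 (by omega))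
          have h3 : 2 * (m + 1) + 3 = 2 * (m + 1 + 1) + 1 := by ring
          rwa [h3] at h2

end Pool.Agent.W5h14.TV
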