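import Pool.Agent.W5h14.TV.HSDef
import Pool.Agent.W5h14.TV.Crit
import Pool.Agent.R703.CW.Link

/-!
# Flag homology spheres as sets of vertices: from the definition with links of faces
-/

set_option autoImplicit false

namespace Pool.Agent.W5h14.TV

open Finset Classical
open Pool.Agent.W907.SG Pool.Agent.W5h83.FS
open Pool.Agent.TH652.Dual (triv)
open Pool.Agent.TH652.Above (HSph)

variable {V : Type} [Fintype V] [LinearOrder V] {G : SimpleGraph V}

omit [LinearOrder V] in
theorem lk_eq_lkF (T : Finset V) : Pool.Agent.W907.SM.lk G T = (lkF G T : Set V) := by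
  ext x
  rw [mem_coe, mem_lkF]
  rfl

/-- the links of the faces of a flag homology sphere -/
theorem HS.of_hsph_lk {n : ℕ} (h : HSph n G) : ∀ (k : ℕ) (T : Finset V), G.IsClique (T : Set V) →
    T.card + k = n → HS G k (lkF G T) := by
  intro k
  induction k with
  | zero =>
    intro T hT hk
    show lkF G T = ∅
    rw [eq_empty_iff_forall_notMem]
    intro x hx
    have h1 := lkF_clique hT hx
    have h2 := Pool.Agent.R703.CW.card_le_of_hsph h _ h1.1
    omega
  | succ k ih =>
    intro T hT hk
    refine ⟨fun i => ?_, fun v hv => ?_⟩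
    · have h1 := h T hT i
      rw [lk_eq_lkF] at h1
      rw [h1]
      exact if_congr (by omega) rfl rfl
    · rw [nb_lkF]
      have h1 := lkF_clique hT hv
      exact ih _ h1.1 (by omega)

/-- Flag homology spheres in the sense of links of faces. -/
theorem HS.of_hsph {n : ℕ} (h : HSph n G) : HS G n univ := by
  have h1 := HS.of_hsph_lk h n ∅ (by simp) (by simp)
  have h2 : lkF G (∅ : Finset V) = univ := by
    ext x
    rw [mem_lkF]
    simp
  rwa [h2] at h1

end Pool.Agent.W5h14.TV
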