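import Pool.Agent.W5h14.TV.SubG

/-!
# The criterion for even type
-/

set_option autoImplicit false

namespace Pool.Agent.W5h14.TV

open Finset Classical
open Pool.Agent.W907.SG Pool.Agent.W907.SM Pool.Agent.W5h83.FS
open Pool.Agent.TH652.Above (HSph lv_set lv_univ singer_of_above)

/-- The vertex `x` of a flag sphere of even type `n` (dimension `n - 1`) is good: it has few neighbours, or the link
of each simplex of odd type at least 5 with the vertex `x` has few vertices or a vertex whose non-neighbours in the
link span a tree. -/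
def GoodVertex {V : Type} [Fintype V] (n : ℕ) (G : SimpleGraph V) (x : V) : Prop :=
  2 * (lkF G {x}).card + 3 ≤ 5 * n ∨
    ∀ (σ : Finset V) (j : ℕ), x ∈ σ → G.IsClique (σ : Set V) → σ.card + (2 * j + 5) = n →
      2 * (lkF G σ).card ≤ 5 * (2 * j + 5) + 2 ∨ ∃ v ∈ lkF G σ, SpansTree G (mn G (lkF G σ) v)

/-- the criterion, relative to a simplex -/
theorem red_of_crit_rel {V : Type} [Fintype V] [LinearOrder V] {G : SimpleGraph V} {n : ℕ} {x : V}
    (hc : ∀ (T : Finset V) (m : ℕ), x ∈ T → G.IsClique (T : Set V) → T.card + (2 * m + 5) = n →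
      2 * (lkF G T).card ≤ 5 * (2 * m + 5) + 2 ∨ ∃ v ∈ lkF G T, SpansTree G (mn G (lkF G T) v)) :
    ∀ (k : ℕ) (T : Finset V) (b : Bool), x ∈ T → G.IsClique (T : Set V) → T.card + k = n →
      Red b k G (lkF G T) := by
  intro k
  induction k using Nat.strong_induction_on with
  | _ k ih =>
    intro T b hx hT hk
    have hv : ∀ (b : Bool), ∀ v ∈ lkF G T, ∀ j, k = j + 1 → Red b j G (nb G (lkF G T) v) := by
      intro b v hv j hj
      have h1 := lkF_clique hT hv
      rw [nb_lkF]
      exact ih j (by omega) _ b (mem_insert_of_mem hx) h1.1 (by omega)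
    by_cases hk4 : k ≤ 4
    · exact Red.low b k G _ hk4
    rcases Nat.even_or_odd' k with ⟨m, rfl | rfl⟩
    · obtain ⟨m, rfl⟩ : ∃ m', m = m' + 1 := ⟨m - 1, by omega⟩
      exact Red.even b m G _ fun x hx => hv true x hx _ (by ring)
    · obtain ⟨m, rfl⟩ : ∃ m', m = m' + 2 := ⟨m - 2, by omega⟩
      have hf : Red false (2 * (m + 2) + 1) G (lkF G T) := by
        rcases hc T m hx hT (by omega) with h | ⟨v, hvT, h⟩
        · exact Red.few _ _ _ _ (by omega)
        · have h2 := Red.tree (m + 1) G _ v hvT h (by
            intro a ha b hb hab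
            have h3 := lkF_clique hT (mem_mn.1 ha).1
            have h4 : b ∈ lkF G (insert a T) := by
              rw [← nb_lkF]
              exact mem_nb.2 ⟨(mem_mn.1 hb).1, hab⟩
            have h5 := lkF_clique h3.1 h4
            rw [nb_lkF, nb_lkF]
            exact ih _ (by omega) _ false (mem_insert_of_mem (mem_insert_of_mem hx)) h5.1 (by omega))
          have h3 : 2 * (m + 1) + 3 = 2 * (m + 2) + 1 := by ring
          rwa [h3] at h2
      cases b with
      | false => exact hf
      | true => exact Red.full _ G _ hf fun x hx => hv true x hx _ (by ring)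

/-- the criterion for even type -/
theorem redS_even_crit {V : Type} [Fintype V] [LinearOrder V] {G : SimpleGraph V} {m : ℕ}
    (hc : ∀ T : Finset V, G.IsClique (T : Set V) → T.card = m + 2 → ∃ x ∈ T, GoodVertex (2 * m + 2) G x) (b : Bool) :
    RedS b (2 * m + 2) G Finset.univ := by
  have e1 : ∀ x, nb G univ x = lkF G {x} := by
    intro x
    have h1 := nb_lkF (G := G) (∅ : Finset V) x
    rw [lkF_empty] at h1
    rw [h1]
    refine congrArg (lkF G) ?_
    ext y
    simp only [mem_insert, notMem_empty, or_false, mem_singleton]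
  let U : Finset V := univ.filter fun x => ¬ GoodVertex (2 * m + 2) G x
  refine RedS.even b m G univ U (fun T hT hcl => ?_) fun x _ hxU => ?_
  · by_contra h1
    obtain ⟨T', hT', hc'⟩ := exists_subset_card_eq (n := m + 2) (s := T) (by omega)
    obtain ⟨x, hx, hx'⟩ := hc T' (hcl.subset (coe_subset.2 hT')) hc'
    exact (mem_filter.1 (hT (hT' hx))).2 hx'
  · have h1 : GoodVertex (2 * m + 2) G x := by
      by_contra h2
      exact hxU (mem_filter.2 ⟨mem_univ x, h2⟩)
    rw [e1]
    rcases h1 with h1 | h1
    · exact RedS.few _ _ _ _ (by omega)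
    · exact redS_of_red (red_of_crit_rel h1 (2 * m + 1) {x} true (mem_singleton_self x) (by simp) (by
        rw [card_singleton]
        omega))

end Pool.Agent.W5h14.TV
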