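import Pool.Agent.W5h14.TV.HSDef
import Pool.Agent.R703.MO.Small
import Pool.Agent.TH652.Dual7

/-!
# Alexander duality for full subcomplexes of flag homology spheres: acyclicity
-/

set_option autoImplicit false

namespace Pool.Agent.W5h14.TV

open Finset Classical
open Pool.Agent.W907.SG Pool.Agent.W907.SM Pool.Agent.W5h83.FS
open Pool.Agent.TH652.Above (HSph)
open Pool.Agent.TH652.Dual (triv duality mem_KK_triv exact_of_beta)

section alex
variable {U : Type} [Fintype U] [LinearOrder U] {H : SimpleGraph U}

/-- the vertices of `A` exchange the two points -/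
noncomputable def actA (A : Set U) (u : U) (b : Bool) : Bool := if u ∈ A then !b else b

omit [Fintype U] [LinearOrder U] in
theorem actA_inv (A : Set U) (u : U) (b : Bool) : actA A u (actA A u b) = b := by
  unfold actA
  split_ifs
  · simp
  · rfl

omit [Fintype U] [LinearOrder U] in
theorem actA_comm (A : Set U) (u w : U) (b : Bool) : actA A u (actA A w b) = actA A w (actA A u b) := by
  unfold actA
  split_ifs <;> simp

theorem alex_lhs {A : Set U} {i : ℕ} (h : beta H (pull ℝ (actA A)) Set.univ ∅ i = 0) :
    beta H (triv U) A ∅ i = 0 := by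
  refine Pool.Agent.R703.MO.beta_zero_of fun z hz hzb => ?_
  replace hz := mem_KK_triv.1 hz
  set e : Bool → ℝ := fun b => if b then 1 else -1 with he
  set Z : Finset U → Bool → ℝ := fun T => z T • e with hZ
  have hZK : Z ∈ ZZ H (pull ℝ (actA A)) Set.univ ∅ i := by
    refine ⟨mem_KK.2 ⟨fun T hT => ?_, fun T t ht => ?_⟩, LinearMap.mem_ker.2 ?_⟩
    · rw [hZ]
      simp only
      rw [hz T fun h => hT ⟨h.1, Set.subset_univ _, h.2.2⟩, zero_smul]
    · rcases ht with ht | ht
      · by_cases htC : t ∈ A
        · funext b
          change z T * e (actA A t b) = - (z T * e b)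
          unfold actA
          rw [if_pos htC, he]
          cases b <;> simp
        · have h1 : z T = 0 := hz T fun h => htC (h.2.1 (mem_coe.2 ht))
          rw [hZ]
          simp only
          rw [h1, zero_smul, map_zero, neg_zero]
      · exact absurd ht (Set.notMem_empty t)
    · funext T
      rw [bd_apply]
      have h1 := congrFun hzb T
      rw [bd_apply, Pi.zero_apply] at h1
      have h2 : ∀ v ∈ Tᶜ, sg v T • Z (insert v T) = (sg v T • z (insert v T)) • e := by
        intro v _
        rw [hZ]
        simp only
        rw [smul_assoc]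
      rw [sum_congr rfl h2, ← sum_smul, h1, zero_smul]
      rfl
  have hZB : Z ∈ BB H (pull ℝ (actA A)) Set.univ ∅ i := by
    have h1 : BB H (pull ℝ (actA A)) Set.univ ∅ i = ZZ H (pull ℝ (actA A)) Set.univ ∅ i := by
      refine Submodule.eq_of_le_of_finrank_le (BB_le_ZZ _ _ _ _ _) ?_
      unfold beta at h
      omega
    rw [h1]
    exact hZK
  obtain ⟨w, hw, hwZ⟩ := hZB
  have hw' := mem_KK.1 hw
  refine ⟨fun T => w T true, mem_KK_triv.2 fun T hT => ?_, ?_⟩
  · by_cases h1 : ∃ t ∈ T, t ∉ A
    · obtain ⟨t, ht, htA⟩ := h1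
      have h2 := hw'.2 T t (Or.inl ht)
      have h3 := congrFun h2 true
      have h4 : w T (actA A t true) = - w T true := h3
      unfold actA at h4
      rw [if_neg htA] at h4
      change w T true = 0
      linarith
    · push Not at h1
      have h2 := hw'.1 T fun h => hT ⟨h.1, fun t ht => h1 t ht, h.2.2⟩
      change w T true = 0
      rw [h2]
      rfl
  · funext T
    have h1 := congrFun (congrFun hwZ T) true
    rw [bd_apply, Finset.sum_apply] at h1
    rw [bd_apply]
    rw [hZ] at h1
    simp only [Pi.smul_apply, he, smul_eq_mul, if_true, mul_one] at h1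
    exact h1

theorem alex_rhs {n j : ℕ} (hS : HSph n H) (hj : j ≠ n) {A : Set U}
    (h : beta H (triv U) Aᶜ ∅ j = 0) :
    beta H (fun u => - pull ℝ (actA A) u) Set.univ ∅ j = 0 := by
  refine Pool.Agent.R703.MO.beta_zero_of fun z hz hb => ?_
  have hz' := mem_KK.1 hz
  have hinv : ∀ T : Finset U, ∀ t ∈ T, ∀ b, z T (actA A t b) = z T b := by
    intro T t ht b
    have h1 := hz'.2 T t (Or.inl ht)
    have h2 := congrFun h1 b
    have h3 : -(z T (actA A t b)) = -(z T b) := h2
    exact neg_injective h3
  have hbd : ∀ T b, ∑ u ∈ Tᶜ, sg u T • z (insert u T) b = 0 := by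
    intro T b
    have h1 := congrFun (congrFun hb T) b
    rw [bd_apply] at h1
    rw [Finset.sum_apply] at h1
    exact h1
  -- the constant part
  set f : Finset U → ℝ := fun T => (1 / 2 : ℝ) * (z T true + z T false) with hf
  set g : Finset U → ℝ := fun T => (1 / 2 : ℝ) * (z T true - z T false) with hg
  have hfZ : f ∈ ZZ H (triv U) (lk H ∅) ∅ j := by
    refine ⟨mem_KK_triv.2 fun T hT => ?_, LinearMap.mem_ker.2 ?_⟩
    · have h1 := hz'.1 T (fun h => hT ⟨h.1, by
        intro x _ u hu
        exact absurd hu (notMem_empty u), h.2.2⟩)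
      rw [hf]
      simp only
      rw [h1]
      simp
    · funext T
      rw [bd_apply, Pi.zero_apply]
      have h1 := hbd T true
      have h2 := hbd T false
      have h3 : ∀ u ∈ Tᶜ, sg u T • f (insert u T) = (1 / 2 : ℝ) * (sg u T • z (insert u T) true) +
          (1 / 2 : ℝ) * (sg u T • z (insert u T) false) := by
        intro u _
        rw [hf]
        simp only [zsmul_eq_mul]
        ring
      rw [sum_congr rfl h3, sum_add_distrib, ← mul_sum, ← mul_sum, h1, h2]
      simp
  have hbeta : beta H (triv U) (lk H ∅) ∅ j = 0 := by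
    have h1 := hS ∅ (by simp) j
    rw [if_neg (by simpa using hj)] at h1
    exact h1
  rw [← exact_of_beta hbeta] at hfZ
  obtain ⟨y, hy, hyf⟩ := hfZ
  -- the antisymmetric part
  have hg0 : ∀ T : Finset U, ∀ t ∈ T, t ∈ A → g T = 0 := by
    intro T t ht hM
    have h1 := hinv T t ht true
    unfold actA at h1
    rw [if_pos hM] at h1
    rw [hg]
    simp only
    have h2 : z T (!true) = z T true := h1
    rw [Bool.not_true] at h2
    rw [h2, sub_self, mul_zero]
  have hgZ : g ∈ ZZ H (triv U) Aᶜ ∅ j := by
    refine ⟨mem_KK_triv.2 fun T hT => ?_, LinearMap.mem_ker.2 ?_⟩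
    · by_cases h1 : ∃ t ∈ T, t ∈ A
      · obtain ⟨t, ht, htC⟩ := h1
        exact hg0 T t ht htC
      · push Not at h1
        have h2 := hz'.1 T (fun h => hT ⟨h.1, fun x hx => h1 x hx, h.2.2⟩)
        rw [hg]
        simp only
        rw [h2]
        simp
    · funext T
      rw [bd_apply, Pi.zero_apply]
      have h1 := hbd T true
      have h2 := hbd T false
      have h3 : ∀ u ∈ Tᶜ, sg u T • g (insert u T) = (1 / 2 : ℝ) * (sg u T • z (insert u T) true) -
          (1 / 2 : ℝ) * (sg u T • z (insert u T) false) := by
        intro u _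
        rw [hg]
        simp only [zsmul_eq_mul]
        ring
      rw [sum_congr rfl h3, sum_sub_distrib, ← mul_sum, ← mul_sum, h1, h2]
      simp
  rw [← exact_of_beta h] at hgZ
  obtain ⟨w, hw, hwg⟩ := hgZ
  replace hw := mem_KK_triv.1 hw
  replace hy := mem_KK_triv.1 hy
  refine ⟨fun T b => y T + (if b then w T else - w T), mem_KK.2 ⟨fun T hT => ?_, fun T t ht => ?_⟩, ?_⟩
  · have h1 := hy T (fun h => hT ⟨h.1, Set.subset_univ _, h.2.2⟩)
    have h2 := hw T (fun h => hT ⟨h.1, Set.subset_univ _, h.2.2⟩)
    funext b
    change y T + (if b then w T else - w T) = 0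
    rw [h1, h2]
    simp
  · rcases ht with ht | ht
    · funext b
      change -(y T + (if actA A t b then w T else - w T)) = -(y T + (if b then w T else - w T))
      by_cases htC : t ∈ A
      · have h1 : w T = 0 := hw T fun h => h.2.1 (mem_coe.2 ht) htC
        rw [h1]
        simp
      · unfold actA
        rw [if_neg htC]
    · exact absurd ht (Set.notMem_empty t)
  · funext T b
    rw [bd_apply, Finset.sum_apply]
    have h1 := congrFun hyf T
    rw [bd_apply] at h1
    have h2 := congrFun hwg T
    rw [bd_apply] at h2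
    cases b
    · have h3 : ∀ c ∈ Tᶜ, (sg c T • fun b => y (insert c T) + (if b = true then w (insert c T) else - w (insert c T)))
          false = sg c T • y (insert c T) - sg c T • w (insert c T) := by
        intro c _
        simp only [Pi.smul_apply, zsmul_eq_mul, Bool.false_eq_true, if_false]
        ring
      rw [sum_congr rfl h3, sum_sub_distrib, h1, h2, hf, hg]
      simp only
      ring
    · have h3 : ∀ c ∈ Tᶜ, (sg c T • fun b => y (insert c T) + (if b = true then w (insert c T) else - w (insert c T)))
          true = sg c T • y (insert c T) + sg c T • w (insert c T) := by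
        intro c _
        simp only [Pi.smul_apply, zsmul_eq_mul, if_true]
        ring
      rw [sum_congr rfl h3, sum_add_distrib, h1, h2, hf, hg]
      simp only
      ring

/-- **Alexander duality**: if the complement of `A` is acyclic in degree `j` then `A` is acyclic in degree `n - j`. -/
theorem alex {n i j : ℕ} (hS : HSph n H) (hij : i + j = n) (hi : i ≠ 0) (A : Set U)
    (h : beta H (triv U) Aᶜ ∅ j = 0) : beta H (triv U) A ∅ i = 0 := by
  refine alex_lhs ?_
  have h1 := duality (G := H) (a := actA A) (n := n) (actA_inv A)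
    (fun u w _ b => actA_comm A u w b) hS hij
  rw [alex_rhs hS (by omega) h] at h1
  omega

end alex

end Pool.Agent.W5h14.TV
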