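import Pool.Agent.W5h14.TV.Alex
import Pool.Agent.W907.SG.All

/-!
# Alexander duality for full subcomplexes of flag homology spheres: inequality
-/

set_option autoImplicit false

namespace Pool.Agent.W5h14.TV

open Finset Classical
open Pool.Agent.W907.SG Pool.Agent.W907.SM Pool.Agent.W5h83.FS
open Pool.Agent.TH652.Above (HSph)
open Pool.Agent.TH652.Dual (triv duality mem_KK_triv exact_of_beta)

section alexle
variable {U : Type} [Fintype U] [LinearOrder U] {H : SimpleGraph U}

/-- tensoring with the antisymmetric vector -/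
noncomputable def tens (U : Type) : (Finset U → ℝ) →ₗ[ℝ] (Finset U → Bool → ℝ) where
  toFun z T b := z T * (if b then 1 else -1)
  map_add' x y := by
    funext T b
    simp only [Pi.add_apply]
    ring
  map_smul' a x := by
    funext T b
    simp only [Pi.smul_apply, smul_eq_mul, RingHom.id_apply]
    ring

/-- the symmetric part -/
noncomputable def symm (U : Type) : (Finset U → ℝ) →ₗ[ℝ] (Finset U → Bool → ℝ) where
  toFun z T _ := z T
  map_add' _ _ := rfl
  map_smul' _ _ := rfl

/-- the antisymmetric part -/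
noncomputable def anti (U : Type) : (Finset U → Bool → ℝ) →ₗ[ℝ] (Finset U → ℝ) where
  toFun z T := (1 / 2 : ℝ) * (z T true - z T false)
  map_add' x y := by
    funext T
    simp only [Pi.add_apply]
    ring
  map_smul' a x := by
    funext T
    simp only [Pi.smul_apply, smul_eq_mul, RingHom.id_apply]
    ring

theorem bd_app (z : Finset U → Bool → ℝ) (T : Finset U) (b : Bool) : bd ℝ z T b = bd ℝ (fun T => z T b) T := by
  rw [bd_apply, bd_apply, Finset.sum_apply]
  rfl

theorem bd_tens (z : Finset U → ℝ) : bd ℝ (tens U z) = tens U (bd ℝ z) := by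
  funext T b
  rw [bd_app]
  change bd ℝ (fun T => z T * (if b then 1 else -1)) T = bd ℝ z T * (if b then 1 else -1)
  rw [bd_apply, bd_apply, sum_mul]
  refine sum_congr rfl fun v _ => ?_
  simp only [zsmul_eq_mul]
  ring

theorem bd_symm (z : Finset U → ℝ) : bd ℝ (symm U z) = symm U (bd ℝ z) := by
  funext T b
  rw [bd_app]
  rfl

theorem bd_anti (z : Finset U → Bool → ℝ) : bd ℝ (anti U z) = anti U (bd ℝ z) := by
  funext T
  change bd ℝ (anti U z) T = (1 / 2 : ℝ) * (bd ℝ z T true - bd ℝ z T false)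
  rw [bd_app, bd_app, bd_apply, bd_apply, bd_apply, ← sum_sub_distrib, mul_sum]
  refine sum_congr rfl fun v _ => ?_
  change sg v T • ((1 / 2 : ℝ) * (z (insert v T) true - z (insert v T) false)) = _
  simp only [zsmul_eq_mul]
  ring

theorem tens_mem {A : Set U} {i : ℕ} {z : Finset U → ℝ} (hz : z ∈ KK H (triv U) A ∅ i) :
    tens U z ∈ KK H (pull ℝ (actA A)) Set.univ ∅ i := by
  replace hz := mem_KK_triv.1 hz
  refine mem_KK.2 ⟨fun T hT => ?_, fun T t ht => ?_⟩
  · funext b
    change z T * _ = 0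
    rw [hz T fun h => hT ⟨h.1, Set.subset_univ _, h.2.2⟩, zero_mul]
  · rcases ht with ht | ht
    · funext b
      change z T * (if actA A t b then 1 else -1) = - (z T * (if b then 1 else -1))
      by_cases htC : t ∈ A
      · unfold actA
        rw [if_pos htC]
        cases b <;> simp
      · rw [hz T fun h => htC (h.2.1 (mem_coe.2 ht))]
        simp
    · exact absurd ht (Set.notMem_empty t)

theorem lhs_le (A : Set U) (i : ℕ) :
    beta H (triv U) A ∅ i ≤ beta H (pull ℝ (actA A)) Set.univ ∅ i := by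
  have h := mid ℝ PUnit (Finset U → ℝ) (Finset U → Bool → ℝ) 0 (tens U) ⊥ ⊥
    (BB H (triv U) A ∅ i) (ZZ H (triv U) A ∅ i) (BB H (pull ℝ (actA A)) Set.univ ∅ i)
    (ZZ H (pull ℝ (actA A)) Set.univ ∅ i)
    le_rfl (BB_le_ZZ _ _ _ _ _) (BB_le_ZZ _ _ _ _ _) (by simp) ?_ ?_
  · have h0 : Module.finrank ℝ (⊥ : Submodule ℝ PUnit) = 0 := finrank_bot _ _
    rw [h0, Nat.sub_self, zero_add] at h
    exact h
  · rintro _ ⟨z, ⟨hz1, hz2⟩, rfl⟩
    refine ⟨tens_mem hz1, ?_⟩
    rw [SetLike.mem_coe, LinearMap.mem_ker] at hz2 ⊢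
    rw [bd_tens, hz2, map_zero]
  · rintro z ⟨hz1, hz2⟩ ⟨w, hw, hwz⟩
    have hw' := mem_KK.1 hw
    refine ⟨0, Submodule.zero_mem _, z, ⟨fun T => w T true, mem_KK_triv.2 fun T hT => ?_, ?_⟩, by simp⟩
    · by_cases h1 : ∃ t ∈ T, t ∉ A
      · obtain ⟨t, ht, htA⟩ := h1
        have h2 := hw'.2 T t (Or.inl ht)
        have h3 := congrFun h2 true
        have h4 : w T (actA A t true) = - w T true := h3
        unfold actA at h4
        rw [if_neg htA] at h4
        change w T true = 0
        linarith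
      · push Not at h1
        have h2 := hw'.1 T fun h => hT ⟨h.1, fun t ht => h1 t ht, h.2.2⟩
        change w T true = 0
        rw [h2]
        rfl
    · funext T
      have h1 := congrFun (congrFun hwz T) true
      rw [bd_app] at h1
      rw [h1]
      change z T * (if true = true then 1 else -1) = z T
      rw [if_pos rfl, mul_one]

theorem rhs_le (A : Set U) (j : ℕ) :
    beta H (fun u => - pull ℝ (actA A) u) Set.univ ∅ j ≤
      beta H (triv U) Set.univ ∅ j + beta H (triv U) Aᶜ ∅ j := by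
  have inv : ∀ {k : ℕ} {z : Finset U → Bool → ℝ}, z ∈ KK H (fun u => - pull ℝ (actA A) u) Set.univ ∅ k →
      ∀ T : Finset U, ∀ t ∈ T, ∀ b, z T (actA A t b) = z T b := by
    intro k z hz T t ht b
    have h1 := (mem_KK.1 hz).2 T t (Or.inl ht)
    have h2 := congrFun h1 b
    have h3 : -(z T (actA A t b)) = -(z T b) := h2
    exact neg_injective h3
  have symK : ∀ {k : ℕ} {z : Finset U → ℝ}, z ∈ KK H (triv U) Set.univ ∅ k →
      symm U z ∈ KK H (fun u => - pull ℝ (actA A) u) Set.univ ∅ k := by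
    intro k z hz
    replace hz := mem_KK_triv.1 hz
    refine mem_KK.2 ⟨fun T hT => ?_, fun T t ht => rfl⟩
    funext b
    exact hz T hT
  have antiK : ∀ {k : ℕ} {z : Finset U → Bool → ℝ}, z ∈ KK H (fun u => - pull ℝ (actA A) u) Set.univ ∅ k →
      anti U z ∈ KK H (triv U) Aᶜ ∅ k := by
    intro k z hz
    refine mem_KK_triv.2 fun T hT => ?_
    change (1 / 2 : ℝ) * (z T true - z T false) = 0
    by_cases h1 : ∃ t ∈ T, t ∈ A
    · obtain ⟨t, ht, htA⟩ := h1
      have h2 := inv hz T t ht true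
      unfold actA at h2
      rw [if_pos htA, Bool.not_true] at h2
      rw [h2, sub_self, mul_zero]
    · push Not at h1
      rw [(mem_KK.1 hz).1 T (fun h => hT ⟨h.1, fun x hx => h1 x hx, h.2.2⟩)]
      simp
  refine mid ℝ (Finset U → ℝ) (Finset U → Bool → ℝ) (Finset U → ℝ) (symm U) (anti U)
    (BB H (triv U) Set.univ ∅ j) (ZZ H (triv U) Set.univ ∅ j)
    (BB H (fun u => - pull ℝ (actA A) u) Set.univ ∅ j) (ZZ H (fun u => - pull ℝ (actA A) u) Set.univ ∅ j)
    (BB H (triv U) Aᶜ ∅ j) (ZZ H (triv U) Aᶜ ∅ j)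
    (BB_le_ZZ _ _ _ _ _) (BB_le_ZZ _ _ _ _ _) (BB_le_ZZ _ _ _ _ _) ?_ ?_ ?_
  · rintro _ ⟨_, ⟨w, hw, rfl⟩, rfl⟩
    exact ⟨symm U w, symK hw, bd_symm w⟩
  · rintro _ ⟨z, ⟨hz1, hz2⟩, rfl⟩
    refine ⟨antiK hz1, ?_⟩
    rw [SetLike.mem_coe, LinearMap.mem_ker] at hz2 ⊢
    rw [bd_anti, hz2, map_zero]
  · rintro z ⟨hz1, hz2⟩ ⟨w, hw, hwz⟩
    rw [SetLike.mem_coe, LinearMap.mem_ker] at hz2
    replace hw := mem_KK_triv.1 hw
    have hWK : tens U w ∈ KK H (fun u => - pull ℝ (actA A) u) Set.univ ∅ (j + 1) := by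
      refine mem_KK.2 ⟨fun T hT => ?_, fun T t ht => ?_⟩
      · funext b
        change w T * _ = 0
        rw [hw T fun h => hT ⟨h.1, Set.subset_univ _, h.2.2⟩, zero_mul]
      · rcases ht with ht | ht
        · funext b
          change - (w T * (if actA A t b then 1 else -1)) = - (w T * (if b then 1 else -1))
          by_cases htC : t ∈ A
          · rw [hw T fun h => h.2.1 (mem_coe.2 ht) htC]
            simp
          · unfold actA
            rw [if_neg htC]
        · exact absurd ht (Set.notMem_empty t)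
    refine ⟨fun T => (1 / 2 : ℝ) * (z T true + z T false), ⟨mem_KK_triv.2 fun T hT => ?_, ?_⟩,
      bd ℝ (tens U w), ⟨tens U w, hWK, rfl⟩, ?_⟩
    · change (1 / 2 : ℝ) * (z T true + z T false) = 0
      rw [(mem_KK.1 hz1).1 T hT]
      simp
    · rw [SetLike.mem_coe, LinearMap.mem_ker]
      funext T
      have e1 : bd ℝ (fun T => z T true) T = 0 := by
        rw [← bd_app, hz2]
        rfl
      have e2 : bd ℝ (fun T => z T false) T = 0 := by
        rw [← bd_app, hz2]
        rfl
      rw [bd_apply] at e1 e2 ⊢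
      rw [Pi.zero_apply]
      have e3 : ∀ v ∈ Tᶜ, sg v T • ((1 / 2 : ℝ) * (z (insert v T) true + z (insert v T) false)) =
          (1 / 2 : ℝ) * (sg v T • z (insert v T) true) + (1 / 2 : ℝ) * (sg v T • z (insert v T) false) := by
        intro v _
        simp only [zsmul_eq_mul]
        ring
      rw [sum_congr rfl e3, sum_add_distrib, ← mul_sum, ← mul_sum, e1, e2]
      simp
    · rw [bd_tens, hwz]
      funext T b
      change z T b = (1 / 2 : ℝ) * (z T true + z T false) +
        ((1 / 2 : ℝ) * (z T true - z T false)) * (if b then 1 else -1)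
      cases b
      · simp only [Bool.false_eq_true, if_false]
        ring
      · simp only [if_true]
        ring

/-- **Alexander duality**, inequality -/
theorem alex_le {n i j : ℕ} (hS : HSph n H) (hij : i + j = n) (A : Set U) :
    beta H (triv U) A ∅ i ≤ beta H (triv U) Set.univ ∅ j + beta H (triv U) Aᶜ ∅ j :=
  (lhs_le A i).trans ((duality (G := H) (a := actA A) (n := n) (actA_inv A)
    (fun u w _ b => actA_comm A u w b) hS hij).trans (rhs_le A j))

end alexle

end Pool.Agent.W5h14.TV
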