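import Pool.Agent.W5h14.TV.LamDef

/-!
# The Charney-Davis quantity under the contraction of an edge
-/

set_option autoImplicit false

namespace Pool.Agent.W5h14.TV

open Finset Classical
open Pool.Agent.W5h83.FS
open Pool.Agent.R781.VS (con)
open Pool.Agent.W907.SG (chiW)

theorem lamF_univ {V : Type} [Fintype V] (G : SimpleGraph V) : lamF G univ = chiW G := by
  unfold lamF chiW
  rw [Finset.powerset_univ, Finset.sum_filter]

theorem lamF_congr {V : Type} {G H : SimpleGraph V} {S : Finset V}
    (h : ∀ x ∈ S, ∀ y ∈ S, (G.Adj x y ↔ H.Adj x y)) : lamF G S = lamF H S := by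
  unfold lamF
  refine Finset.sum_congr (Finset.filter_congr ?_) (fun _ _ => rfl)
  intro T hT
  rw [Finset.mem_powerset] at hT
  constructor
  · intro hG x hx y hy hxy
    exact (h x (hT hx) y (hT hy)).1 (hG hx hy hxy)
  · intro hG x hx y hy hxy
    exact (h x (hT hx) y (hT hy)).2 (hG hx hy hxy)

/-- deletion of a vertex -/
theorem lamF_erase {V : Type} {G : SimpleGraph V} {S : Finset V} {v : V} (hv : v ∈ S) :
    lamF G S = lamF G (S.erase v) - 1 / 2 * lamF G (nb G S v) := by
  have key : S.powerset.filter (fun T : Finset V => G.IsClique (T : Set V)) =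
      (S.erase v).powerset.filter (fun T : Finset V => G.IsClique (T : Set V)) ∪
      ((nb G S v).powerset.filter (fun T : Finset V => G.IsClique (T : Set V))).image
        (fun T => insert v T) := by
    ext T
    simp only [Finset.mem_filter, Finset.mem_powerset, Finset.mem_union, Finset.mem_image]
    constructor
    · rintro ⟨hT, hc⟩
      by_cases hvT : v ∈ T
      · right
        refine ⟨T.erase v, ⟨?_, ?_⟩, Finset.insert_erase hvT⟩
        · intro x hx
          rw [Finset.mem_erase] at hx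
          unfold nb
          rw [Finset.mem_filter]
          exact ⟨hT hx.2, hc (by exact_mod_cast hvT) (by exact_mod_cast hx.2) (Ne.symm hx.1)⟩
        · exact hc.subset (by
            intro x hx
            have : x ∈ T.erase v := by exact_mod_cast hx
            exact_mod_cast (Finset.mem_erase.1 this).2)
      · left
        refine ⟨?_, hc⟩
        intro x hx
        rw [Finset.mem_erase]
        exact ⟨fun h => hvT (h ▸ hx), hT hx⟩
    · rintro (⟨hT, hc⟩ | ⟨T', ⟨hT, hc⟩, rfl⟩)
      · exact ⟨hT.trans (Finset.erase_subset _ _), hc⟩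
      · refine ⟨?_, ?_⟩
        · intro x hx
          rw [Finset.mem_insert] at hx
          rcases hx with rfl | hx
          · exact hv
          · exact (Finset.mem_filter.1 (hT hx)).1
        · rw [Finset.coe_insert, SimpleGraph.isClique_insert]
          exact ⟨hc, fun b hb _ => (Finset.mem_filter.1 (hT (by exact_mod_cast hb))).2⟩
  have hdisj : Disjoint ((S.erase v).powerset.filter (fun T : Finset V => G.IsClique (T : Set V)))
      (((nb G S v).powerset.filter (fun T : Finset V => G.IsClique (T : Set V))).image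
        (fun T => insert v T)) := by
    rw [Finset.disjoint_left]
    intro T hT hT'
    rw [Finset.mem_image] at hT'
    obtain ⟨T', _, rfl⟩ := hT'
    rw [Finset.mem_filter, Finset.mem_powerset] at hT
    exact (Finset.mem_erase.1 (hT.1 (Finset.mem_insert_self v T'))).1 rfl
  have hnv : ∀ T ∈ (nb G S v).powerset.filter (fun T : Finset V => G.IsClique (T : Set V)), v ∉ T := by
    intro T hT hvT
    rw [Finset.mem_filter, Finset.mem_powerset] at hT
    exact G.loopless.irrefl v (Finset.mem_filter.1 (hT.1 hvT)).2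
  unfold lamF
  rw [key, Finset.sum_union hdisj, Finset.sum_image, sub_eq_add_neg, Finset.mul_sum, ← Finset.sum_neg_distrib]
  · congr 1
    refine Finset.sum_congr rfl ?_
    intro T hT
    rw [Finset.card_insert_of_notMem (hnv T hT), pow_succ]
    ring
  · intro T hT T' hT' h
    have h1 := hnv T (by exact_mod_cast hT)
    have h2 := hnv T' (by exact_mod_cast hT')
    have h3 : (insert v T).erase v = (insert v T').erase v := by rw [show insert v T = insert v T' from h]
    rwa [Finset.erase_insert h1, Finset.erase_insert h2] at h3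

/-- union without edges between the two differences -/
theorem lamF_union {V : Type} {G : SimpleGraph V} {A B : Finset V}
    (h : ∀ x ∈ A, x ∉ B → ∀ y ∈ B, y ∉ A → ¬ G.Adj x y) :
    lamF G (A ∪ B) = lamF G A + lamF G B - lamF G (A ∩ B) := by
  have key : (A ∪ B).powerset.filter (fun T : Finset V => G.IsClique (T : Set V)) =
      A.powerset.filter (fun T : Finset V => G.IsClique (T : Set V)) ∪
      B.powerset.filter (fun T : Finset V => G.IsClique (T : Set V)) := by
    ext T
    simp only [Finset.mem_filter, Finset.mem_powerset, Finset.mem_union]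
    constructor
    · rintro ⟨hT, hc⟩
      by_cases hA : T ⊆ A
      · exact Or.inl ⟨hA, hc⟩
      · right
        refine ⟨?_, hc⟩
        rw [Finset.not_subset] at hA
        obtain ⟨y, hyT, hyA⟩ := hA
        have hyB : y ∈ B := (Finset.mem_union.1 (hT hyT)).resolve_left hyA
        intro x hx
        by_contra hxB
        have hxA : x ∈ A := (Finset.mem_union.1 (hT hx)).resolve_right hxB
        exact h x hxA hxB y hyB hyA (hc (by exact_mod_cast hx) (by exact_mod_cast hyT)
          (fun e => hyA (e ▸ hxA)))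
    · rintro (⟨hT, hc⟩ | ⟨hT, hc⟩)
      · exact ⟨hT.trans Finset.subset_union_left, hc⟩
      · exact ⟨hT.trans Finset.subset_union_right, hc⟩
  have kint : (A ∩ B).powerset.filter (fun T : Finset V => G.IsClique (T : Set V)) =
      A.powerset.filter (fun T : Finset V => G.IsClique (T : Set V)) ∩
      B.powerset.filter (fun T : Finset V => G.IsClique (T : Set V)) := by
    ext T
    simp only [Finset.mem_filter, Finset.mem_powerset, Finset.mem_inter, Finset.subset_inter_iff]
    tauto
  unfold lamF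
  rw [key, kint, ← Finset.sum_union_inter]
  ring

theorem lamF_con {V : Type} {G : SimpleGraph V} {S : Finset V} {s t : V} (hs : s ∈ S) (ht : t ∈ S)
    (hst : G.Adj s t) (hq : NoSqF G S s t) :
    lamF G S = lamF (con G s t) (S.erase t) - 1 / 4 * lamF G (nb G (nb G S s) t) := by
  have hne : s ≠ t := hst.ne
  set D : Finset V := (S.erase t).erase s with hD
  have mD : ∀ x, x ∈ D ↔ x ≠ s ∧ x ≠ t ∧ x ∈ S := by
    intro x
    rw [hD, Finset.mem_erase, Finset.mem_erase]
  set A : Finset V := nb G D s with hA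
  set B : Finset V := nb G D t with hB
  have mA : ∀ x, x ∈ A ↔ x ∈ D ∧ G.Adj s x := by
    intro x; rw [hA]; unfold nb; rw [Finset.mem_filter]
  have mB : ∀ x, x ∈ B ↔ x ∈ D ∧ G.Adj t x := by
    intro x; rw [hB]; unfold nb; rw [Finset.mem_filter]
  -- the three deletions
  have e1 := lamF_erase (G := G) (S := S) ht
  have e2 := lamF_erase (G := G) (S := S.erase t) (v := s) (Finset.mem_erase.2 ⟨hne, hs⟩)
  have e3 := lamF_erase (G := G) (S := nb G S t) (v := s)
    (by unfold nb; rw [Finset.mem_filter]; exact ⟨hs, hst.symm⟩)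
  have e4 := lamF_erase (G := con G s t) (S := S.erase t) (v := s) (Finset.mem_erase.2 ⟨hne, hs⟩)
  have f2 : nb G (S.erase t) s = A := by
    ext x
    rw [mA, mD]
    unfold nb
    rw [Finset.mem_filter, Finset.mem_erase]
    constructor
    · rintro ⟨⟨h1, h2⟩, h3⟩
      exact ⟨⟨h3.ne', h1, h2⟩, h3⟩
    · rintro ⟨⟨h1, h2, h3⟩, h4⟩
      exact ⟨⟨h2, h3⟩, h4⟩
  have f3 : (nb G S t).erase s = B := by
    ext x
    rw [mB, mD]
    unfold nb
    rw [Finset.mem_erase, Finset.mem_filter]
    constructor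
    · rintro ⟨h1, h2, h3⟩
      exact ⟨⟨h1, h3.ne', h2⟩, h3⟩
    · rintro ⟨⟨h1, h2, h3⟩, h4⟩
      exact ⟨h1, h3, h4⟩
  have f3' : nb G (nb G S t) s = A ∩ B := by
    ext x
    rw [Finset.mem_inter, mA, mB, mD]
    unfold nb
    rw [Finset.mem_filter, Finset.mem_filter]
    constructor
    · rintro ⟨⟨h1, h2⟩, h3⟩
      exact ⟨⟨⟨h3.ne', h2.ne', h1⟩, h3⟩, ⟨h3.ne', h2.ne', h1⟩, h2⟩
    · rintro ⟨⟨⟨h1, h2, h3⟩, h4⟩, _, h5⟩
      exact ⟨⟨h3, h5⟩, h4⟩
  have f5 : nb G (nb G S s) t = A ∩ B := by
    rw [← f3']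
    unfold nb
    ext x
    simp only [Finset.mem_filter]
    tauto
  have f4 : lamF (con G s t) D = lamF G D := by
    refine lamF_congr ?_
    intro x hx y hy
    rw [mD] at hx hy
    constructor
    · rintro ⟨_, _, _, h | ⟨h, _⟩ | ⟨h, _⟩⟩
      · exact h
      · exact absurd h hx.1
      · exact absurd h hy.1
    · intro h
      exact ⟨h.ne, hx.2.1, hy.2.1, Or.inl h⟩
  have f4' : nb (con G s t) (S.erase t) s = A ∪ B := by
    ext x
    rw [Finset.mem_union, mA, mB, mD]
    unfold nb
    rw [Finset.mem_filter, Finset.mem_erase]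
    constructor
    · rintro ⟨⟨h1, h2⟩, h3, _, _, h | ⟨_, h⟩ | ⟨h, _⟩⟩
      · exact Or.inl ⟨⟨h3.symm, h1, h2⟩, h⟩
      · exact Or.inr ⟨⟨h3.symm, h1, h2⟩, h⟩
      · exact absurd h.symm h3
    · rintro (⟨⟨h1, h2, h3⟩, h4⟩ | ⟨⟨h1, h2, h3⟩, h4⟩)
      · exact ⟨⟨h2, h3⟩, h1.symm, hne, h2, Or.inl h4⟩
      · exact ⟨⟨h2, h3⟩, h1.symm, hne, h2, Or.inr (Or.inl ⟨rfl, h4⟩)⟩
  have f4'' : lamF (con G s t) (A ∪ B) = lamF G (A ∪ B) := by
    refine lamF_congr ?_
    intro x hx y hy
    have hx' : x ≠ s ∧ x ≠ t ∧ x ∈ S := by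
      rw [Finset.mem_union, mA, mB] at hx
      rcases hx with hx | hx
      · exact (mD x).1 hx.1
      · exact (mD x).1 hx.1
    have hy' : y ≠ s ∧ y ≠ t ∧ y ∈ S := by
      rw [Finset.mem_union, mA, mB] at hy
      rcases hy with hy | hy
      · exact (mD y).1 hy.1
      · exact (mD y).1 hy.1
    constructor
    · rintro ⟨_, _, _, h | ⟨h, _⟩ | ⟨h, _⟩⟩
      · exact h
      · exact absurd h hx'.1
      · exact absurd h hy'.1
    · intro h
      exact ⟨h.ne, hx'.2.1, hy'.2.1, Or.inl h⟩
  have hu := lamF_union (G := G) (A := A) (B := B) (by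
    intro x hx hxB y hy hyA hxy
    rw [mA] at hx
    rw [mB] at hy
    have hx' := (mD x).1 hx.1
    have hy' := (mD y).1 hy.1
    exact hq x hx'.2.2 y hy'.2.2 hx.2 (fun h => hxB ((mB x).2 ⟨hx.1, h⟩)) hx'.2.1 hy.2
      (fun h => hyA ((mA y).2 ⟨hy.1, h⟩)) hy'.1 hxy)
  rw [← hD] at e2 e4
  rw [f2] at e2
  rw [f3, f3'] at e3
  rw [f4, f4', f4'', hu] at e4
  rw [f5, e1, e2, e3, e4]
  ring

end Pool.Agent.W5h14.TV
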