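import Pool.Agent.W5h14.TV.CDDef
import Pool.Agent.W5h14.TV.LamCon

/-!
# The Charney-Davis quantity: full subcomplexes and cones
-/

set_option autoImplicit false

namespace Pool.Agent.W5h14.TV

open Finset Classical
open Pool.Agent.W5h83.FS
open Pool.Agent.R781.VS (con)
open Pool.Agent.W907.SG (chiW)

section
variable {V : Type} {G : SimpleGraph V}

/-- the full subcomplex -/
theorem lamF_induce (S : Finset V) : lamF (G.induce (S : Set V)) univ = lamF G S := by
  unfold lamF
  have h1 : S.powerset.filter (fun T : Finset V => G.IsClique (T : Set V)) =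
      ((univ : Finset ↥(S : Set V)).powerset.filter
        (fun T : Finset ↥(S : Set V) => (G.induce (S : Set V)).IsClique (T : Set ↥(S : Set V)))).map
        (Finset.mapEmbedding (Function.Embedding.subtype (fun x => x ∈ (S : Set V)))).toEmbedding := by
    ext T
    simp only [mem_filter, mem_powerset, mem_map, RelEmbedding.coe_toEmbedding, Finset.mapEmbedding_apply]
    constructor
    · rintro ⟨h2, h3⟩
      refine ⟨T.subtype (fun x => x ∈ (S : Set V)), ⟨subset_univ _, ?_⟩, ?_⟩
      · intro x hx y hy hxy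
        rw [mem_coe, Finset.mem_subtype] at hx hy
        exact h3 hx hy (fun h => hxy (Subtype.ext h))
      · exact Finset.subtype_map_of_mem fun x hx => h2 hx
    · rintro ⟨T', ⟨-, h3⟩, rfl⟩
      constructor
      · intro x hx
        rw [mem_map] at hx
        obtain ⟨y, -, rfl⟩ := hx
        exact y.2
      · intro x hx y hy hxy
        rw [mem_coe, mem_map] at hx hy
        obtain ⟨x', hx', rfl⟩ := hx
        obtain ⟨y', hy', rfl⟩ := hy
        exact h3 hx' hy' (fun h => hxy (congrArg _ h))
  rw [h1, sum_map]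
  refine sum_congr (by ext T; simp only [mem_filter]) fun T _ => ?_
  rw [RelEmbedding.coe_toEmbedding, Finset.mapEmbedding_apply, card_map]

theorem lamF_union' [inst : DecidableEq V] {A B : Finset V} (h : ∀ x ∈ A, x ∉ B → ∀ y ∈ B, y ∉ A → ¬ G.Adj x y) :
    lamF G (A ∪ B) = lamF G A + lamF G B - lamF G (A ∩ B) := by
  obtain rfl : inst = (fun a b => Classical.propDecidable (a = b)) := Subsingleton.elim _ _
  exact lamF_union h

theorem lamF_con' [inst : DecidableEq V] {S : Finset V} {s t : V} (hs : s ∈ S) (ht : t ∈ S)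
    (hst : G.Adj s t) (hq : NoSqF G S s t) :
    lamF G S = lamF (con G s t) (S.erase t) - 1 / 4 * lamF G (nb G (nb G S s) t) := by
  obtain rfl : inst = (fun a b => Classical.propDecidable (a = b)) := Subsingleton.elim _ _
  exact lamF_con hs ht hst hq

theorem lamF_erase' [inst : DecidableEq V] {S : Finset V} {v : V} (hv : v ∈ S) :
    lamF G S = lamF G (S.erase v) - 1 / 2 * lamF G (nb G S v) := by
  obtain rfl : inst = (fun a b => Classical.propDecidable (a = b)) := Subsingleton.elim _ _
  exact lamF_erase hv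

theorem lamF_cone [inst : DecidableEq V] {E A : Finset V} {p : V} (hp : p ∉ A) (hE : E ⊆ A) :
    lamF (coneAt G E p) (insert p A) = lamF G A - 1 / 2 * lamF G E := by
  have h1 : (insert p A).erase p = A := erase_insert hp
  have h2 : nb (coneAt G E p) (insert p A) p = E := by
    ext x
    rw [mem_nb]
    constructor
    · rintro ⟨h3, (⟨h4, _⟩ | ⟨_, _, h4⟩ | ⟨h4, h5, _⟩)⟩
      · exact absurd rfl h4
      · exact h4
      · exact absurd rfl h5
    · intro h3
      refine ⟨mem_insert_of_mem (hE h3), Or.inr (Or.inl ⟨rfl, ?_, h3⟩)⟩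
      rintro rfl
      exact hp (hE h3)
  have h3 : ∀ x ∈ A, ∀ y ∈ A, ((coneAt G E p).Adj x y ↔ G.Adj x y) := by
    intro x hx y hy
    have hx' : x ≠ p := fun h => hp (h ▸ hx)
    have hy' : y ≠ p := fun h => hp (h ▸ hy)
    constructor
    · rintro (⟨_, _, h⟩ | ⟨h, _⟩ | ⟨h, _⟩)
      · exact h
      · exact absurd h hx'
      · exact absurd h hy'
    · exact fun h => Or.inl ⟨hx', hy', h⟩
  rw [lamF_erase' (mem_insert_self p A), h1, h2, lamF_congr h3,
    lamF_congr (fun x hx y hy => h3 x (hE hx) y (hE hy))]

end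

theorem chi_induce {V : Type} {G : SimpleGraph V} (S : Finset V) [Fintype ↥(S : Set V)] :
    chiW (G.induce (S : Set V)) = lamF G S := by
  refine (lamF_univ (G.induce (S : Set V))).symm.trans (Eq.trans ?_ (lamF_induce S))
  refine congrArg (lamF (G.induce (S : Set V))) ?_
  ext x
  simp only [mem_univ]

end Pool.Agent.W5h14.TV
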