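import Pool.Agent.W5h14.TV.RedLV
import Pool.Agent.W5h14.TV.OfH
import Pool.Agent.R781.VS.Growth

/-!
# Reducible flag spheres: summary
-/

set_option autoImplicit false

namespace Pool.Agent.W5h14.TV

open Finset Classical
open Pool.Agent.W907.SG Pool.Agent.W907.SM Pool.Agent.W5h83.FS
open Pool.Agent.TH652.Above (HSph lv_set lv_univ singer_of_above)
open Pool.Agent.R781.VS (con)

/-- the sphere -/
theorem red_sphere {b : Bool} {n : ℕ} {V : Type} [Fintype V] [LinearOrder V] {G : SimpleGraph V} (hS : HSph n G)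
    (hR : Red b n G Finset.univ) (i : ℕ) (hi : n < 2 * i) : LV G i := by
  have h1 := lv_red hR (HS.of_hsph hS) _ (Finset.Subset.refl _) (fun _ => rfl) i (by omega)
  exact (lv_univ G i).1 (lv_set (by rw [Finset.coe_univ]) h1)

/-- the full subcomplexes -/
theorem red_full {n : ℕ} {V : Type} [Fintype V] [LinearOrder V] {G : SimpleGraph V} (hS : HSph n G)
    (hR : Red true n G Finset.univ) (A : Set V) (i : ℕ) (hi : n < 2 * i) : LV (G.induce A) i := by
  have hf : Fintype ↥A := Fintype.ofFinite _
  have h1 := lv_red hR (HS.of_hsph hS) A.toFinset (Finset.subset_univ _) (by simp) i (by omega)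
  exact lv_set (by rw [Set.coe_toFinset]) h1

/-- the criterion -/
theorem red_of_crit {V : Type} [Fintype V] [LinearOrder V] {G : SimpleGraph V} {n : ℕ}
    (hc : ∀ (T : Finset V) (m : ℕ), G.IsClique (T : Set V) → T.card + (2 * m + 5) = n →
      2 * (lkF G T).card ≤ 5 * (2 * m + 5) + 2 ∨ ∃ v ∈ lkF G T, SpansTree G (mn G (lkF G T) v)) :
    ∀ (k : ℕ) (T : Finset V) (b : Bool), G.IsClique (T : Set V) → T.card + k = n → Red b k G (lkF G T) := by
  intro k
  induction k using Nat.strong_induction_on with
  | _ k ih =>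
    intro T b hT hk
    have hv : ∀ (b : Bool), ∀ v ∈ lkF G T, ∀ j, k = j + 1 → Red b j G (nb G (lkF G T) v) := by
      intro b v hv j hj
      have h1 := lkF_clique hT hv
      rw [nb_lkF]
      exact ih j (by omega) _ b h1.1 (by omega)
    by_cases hk4 : k ≤ 4
    · exact Red.low b k G _ hk4
    rcases Nat.even_or_odd' k with ⟨m, rfl | rfl⟩
    · obtain ⟨m, rfl⟩ : ∃ m', m = m' + 1 := ⟨m - 1, by omega⟩
      exact Red.even b m G _ fun x hx => hv true x hx _ (by ring)
    · obtain ⟨m, rfl⟩ : ∃ m', m = m' + 2 := ⟨m - 2, by omega⟩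
      have hf : Red false (2 * (m + 2) + 1) G (lkF G T) := by
        rcases hc T m hT (by omega) with h | ⟨v, hvT, h⟩
        · exact Red.few _ _ _ _ (by omega)
        · have h2 := Red.tree (m + 1) G _ v hvT h (by
            intro a ha b hb hab
            have h3 := lkF_clique hT (mem_mn.1 ha).1
            have h4 : b ∈ lkF G (insert a T) := by
              rw [← nb_lkF]
              exact mem_nb.2 ⟨(mem_mn.1 hb).1, hab⟩
            have h5 := lkF_clique h3.1 h4
            rw [nb_lkF, nb_lkF]
            exact ih _ (by omega) _ false h5.1 (by omega))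
          have h3 : 2 * (m + 1) + 3 = 2 * (m + 2) + 1 := by ring
          rwa [h3] at h2
      cases b with
      | false => exact hf
      | true => exact Red.full _ G _ hf fun x hx => hv true x hx _ (by ring)

theorem red_univ {n : ℕ} {V : Type} [Fintype V] [LinearOrder V] {G : SimpleGraph V}
    (hc : ∀ (T : Finset V) (m : ℕ), G.IsClique (T : Set V) → T.card + (2 * m + 5) = n →
      2 * (lkF G T).card ≤ 5 * (2 * m + 5) + 2 ∨ ∃ v ∈ lkF G T, SpansTree G (mn G (lkF G T) v)) :
    Red true n G Finset.univ := by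
  have h1 := red_of_crit hc n ∅ true (by simp) (by simp)
  have h2 : lkF G (∅ : Finset V) = univ := by
    ext x
    rw [mem_lkF]
    simp
  rwa [h2] at h1

end Pool.Agent.W5h14.TV
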