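import Pool.Agent.W5h14.TV.SumLV
import Pool.Agent.W5h14.TV.RedMain

/-!
# Reducible flag spheres, with connected sums: summary
-/

set_option autoImplicit false

namespace Pool.Agent.W5h14.TV

open Finset Classical
open Pool.Agent.W907.SG Pool.Agent.W907.SM Pool.Agent.W5h83.FS
open Pool.Agent.TH652.Above (HSph lv_set lv_univ singer_of_above)
open Pool.Agent.R781.VS (con)

/-- the sphere -/
theorem redS_sphere {b : Bool} {n : ℕ} {V : Type} [Fintype V] [LinearOrder V] {G : SimpleGraph V} (hS : HSph n G)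
    (hR : RedS b n G Finset.univ) (i : ℕ) (hi : n < 2 * i) : LV G i := by
  have h1 := lv_redS hR (HS.of_hsph hS) _ (Finset.Subset.refl _) (fun _ => rfl) i (by omega)
  exact (lv_univ G i).1 (lv_set (by rw [Finset.coe_univ]) h1)

/-- the full subcomplexes -/
theorem redS_full {n : ℕ} {V : Type} [Fintype V] [LinearOrder V] {G : SimpleGraph V} (hS : HSph n G)
    (hR : RedS true n G Finset.univ) (A : Set V) (i : ℕ) (hi : n < 2 * i) : LV (G.induce A) i := by
  have hf : Fintype ↥A := Fintype.ofFinite _
  have h1 := lv_redS hR (HS.of_hsph hS) A.toFinset (Finset.subset_univ _) (by simp) i (by omega)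
  exact lv_set (by rw [Set.coe_toFinset]) h1

theorem redS_of_red {V : Type} [Fintype V] [LinearOrder V] {b : Bool} {n : ℕ} {G : SimpleGraph V} {S : Finset V}
    (h : Red b n G S) : RedS b n G S := by
  induction h with
  | low b n G S hn => exact RedS.low b n G S hn
  | few b n G S hc => exact RedS.few b n G S hc
  | even b m G S _ ih =>
    refine RedS.even b m G S ∅ (fun T hT _ => ?_) fun x hx _ => ih x hx
    rw [subset_empty.1 hT, card_empty]
    omega
  | tree m G S v hv hT _ ih => exact RedS.tree m G S v hv hT ih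
  | split m G S s t hs ht hst hq _ _ ih1 ih2 =>
    refine RedS.split m G S s t hs ht hst hq ih1 ((congrArg (RedS false (2 * m + 3) (con G s t)) ?_).mp ih2)
    ext x
    simp only [mem_erase]
  | full m G S _ _ ih1 ih2 => exact RedS.full m G S ih1 ih2

/-- the criterion for type 6 -/
theorem redS_six {V : Type} [Fintype V] [LinearOrder V] {G : SimpleGraph V}
    (hc : ∀ T : Finset V, G.IsClique (T : Set V) → T.card = 4 → ∃ x ∈ T,
      (lkF G {x}).card ≤ 13 ∨ ∃ v ∈ lkF G {x}, SpansTree G (mn G (lkF G {x}) v)) (b : Bool) :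
    RedS b 6 G Finset.univ := by
  have e1 : ∀ x, nb G univ x = lkF G {x} := by
    intro x
    have h1 := nb_lkF (G := G) (∅ : Finset V) x
    have h2 : lkF G (∅ : Finset V) = univ := by
      ext y
      rw [mem_lkF]
      simp
    rw [h2] at h1
    rw [h1]
    refine congrArg (lkF G) ?_
    ext y
    simp only [mem_insert, notMem_empty, or_false, mem_singleton]
  let U : Finset V := univ.filter fun x =>
    ¬ ((lkF G {x}).card ≤ 13 ∨ ∃ v ∈ lkF G {x}, SpansTree G (mn G (lkF G {x}) v))
  refine RedS.even b 2 G univ U (fun T hT hcl => ?_) fun x _ hxU => ?_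
  · by_contra h1
    obtain ⟨T', hT', hc'⟩ := exists_subset_card_eq (n := 4) (s := T) (by omega)
    obtain ⟨x, hx, hx'⟩ := hc T' (hcl.subset (coe_subset.2 hT')) hc'
    exact (mem_filter.1 (hT (hT' hx))).2 hx'
  · have h1 : (lkF G {x}).card ≤ 13 ∨ ∃ v ∈ lkF G {x}, SpansTree G (mn G (lkF G {x}) v) := by
      by_contra h2
      exact hxU (mem_filter.2 ⟨mem_univ x, h2⟩)
    rw [e1]
    refine RedS.full 2 G _ ?_ fun y _ => RedS.low _ _ _ _ (by norm_num)
    rcases h1 with h1 | ⟨v, hv, h1⟩
    · exact RedS.few _ _ _ _ (by omega)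
    · exact RedS.tree 1 G _ v hv h1 fun a _ b _ _ => RedS.low _ _ _ _ (by norm_num)

end Pool.Agent.W5h14.TV
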