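import Pool.Agent.W5h14.TV.Jor
import Pool.Agent.TH652.Dual7

/-!
# Flag homology spheres as sets of vertices
-/

set_option autoImplicit false

namespace Pool.Agent.W5h14.TV

open Finset Classical
open Pool.Agent.W907.SG Pool.Agent.W5h83.FS
open Pool.Agent.TH652.Dual (triv)

variable {V : Type} [Fintype V] [LinearOrder V]

/-- The full subcomplex on `S` is a real homology sphere of dimension `n - 1`, and a homology manifold. -/
def HS (G : SimpleGraph V) : ℕ → Finset V → Prop
  | 0, S => S = ∅
  | n + 1, S => (∀ i, beta G (triv V) (S : Set V) ∅ i = if i = n + 1 then 1 else 0) ∧ ∀ v ∈ S, HS G n (nb G S v)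

end Pool.Agent.W5h14.TV
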