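import Pool.Agent.W5h14.TV.RedDef
import Pool.Agent.W5h14.TV.HSDef

/-!
# The class of flag spheres of odd dimension for the Charney-Davis inequality
-/

set_option autoImplicit false

namespace Pool.Agent.W5h14.TV

open Finset Classical
open Pool.Agent.W5h83.FS
open Pool.Agent.R781.VS (con)

/-- The graph `G` with the neighbours of the vertex `p` changed: they are the vertices in `E`. -/
def coneAt {V : Type} (G : SimpleGraph V) (E : Finset V) (p : V) : SimpleGraph V where
  Adj x y := (x ≠ p ∧ y ≠ p ∧ G.Adj x y) ∨ (x = p ∧ y ≠ p ∧ y ∈ E) ∨ (y = p ∧ x ≠ p ∧ x ∈ E)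
  symm := ⟨by
    rintro x y (⟨h1, h2, h3⟩ | h | h)
    · exact Or.inl ⟨h2, h1, h3.symm⟩
    · exact Or.inr (Or.inr h)
    · exact Or.inr (Or.inl h)⟩
  loopless := ⟨by
    rintro x (⟨_, _, h⟩ | ⟨h, h', _⟩ | ⟨h, h', _⟩)
    · exact G.loopless.irrefl x h
    · exact h' h
    · exact h' h⟩

/-- Flag spheres of dimension `2 m - 1`. `S` is the set of vertices of the sphere (the full subcomplex on `S` of the
flag complex of `G`). -/
inductive CD {V : Type} [Fintype V] [LinearOrder V] : ℕ → SimpleGraph V → Finset V → Prop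
  /-- reducible flag spheres -/
  | base (m : ℕ) (G : SimpleGraph V) (S : Finset V) : Red true (2 * m) G S → CD m G S
  /-- vertex splitting: an edge `st` in no induced 4-cycle, with link and contraction in the class -/
  | split (m : ℕ) (G : SimpleGraph V) (S : Finset V) (s t : V) : s ∈ S → t ∈ S → G.Adj s t → NoSqF G S s t →
      CD m G (nb G (nb G S s) t) → CD (m + 1) (con G s t) (S.erase t) → CD (m + 1) G S
  /-- connected sum along links of vertices: there are no edges between `A \ B` and `B \ A`, and the full subcomplexes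
  on `A` and on `B`, with a cone over the full subcomplex on `A ∩ B`, are flag spheres in the class -/
  | sum (m : ℕ) (G : SimpleGraph V) (A B : Finset V) (p q : V) : p ∉ A → q ∉ B →
      (∀ x ∈ A, x ∉ B → ∀ y ∈ B, y ∉ A → ¬ G.Adj x y) →
      HS (coneAt G (A ∩ B) p) (2 * m) (insert p A) → CD m (coneAt G (A ∩ B) p) (insert p A) →
      HS (coneAt G (A ∩ B) q) (2 * m) (insert q B) → CD m (coneAt G (A ∩ B) q) (insert q B) →
      CD m G (A ∪ B)

end Pool.Agent.W5h14.TV
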