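import Pool.Agent.W5h14.TV.Jor

/-!
# Labellings of cycles
-/

set_option autoImplicit false

namespace Pool.Agent.W5h14.TV

open Finset Classical
open Pool.Agent.W5h83.FS

variable {V : Type} {G : SimpleGraph V}

/-- `f 0, ..., f (n - 1)` is a cyclic enumeration of `Z` -/
structure Lab (G : SimpleGraph V) (Z : Finset V) (n : ℕ) (f : ℕ → V) : Prop where
  mem : ∀ x, x < n → f x ∈ Z
  surj : ∀ z ∈ Z, ∃ x, x < n ∧ f x = z
  inj : ∀ x y, x < y → y < n → f x ≠ f y
  adj : ∀ x y, x < y → y < n → (G.Adj (f x) (f y) ↔ (y = x + 1 ∨ (x = 0 ∧ y + 1 = n)))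

/-- `f 0, ..., f (n - 1)` is a path in `Z` -/
structure Pth (G : SimpleGraph V) (Z : Finset V) (n : ℕ) (f : ℕ → V) : Prop where
  mem : ∀ x, x < n → f x ∈ Z
  inj : ∀ x y, x < y → y < n → f x ≠ f y
  adj : ∀ x, x + 1 < n → G.Adj (f x) (f (x + 1))

lemma no_three {C : Finset V} {v x y z : V} (h : (nb G C v).card = 2) (hx : x ∈ C) (hy : y ∈ C) (hz : z ∈ C)
    (ax : G.Adj v x) (ay : G.Adj v y) (az : G.Adj v z) (hxy : x ≠ y) (hxz : x ≠ z) (hyz : y ≠ z) : False := by
  have hsub : ({x, y, z} : Finset V) ⊆ nb G C v := by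
    intro w hw
    simp only [mem_insert, mem_singleton] at hw
    rcases hw with rfl | rfl | rfl
    · exact mem_nb.2 ⟨hx, ax⟩
    · exact mem_nb.2 ⟨hy, ay⟩
    · exact mem_nb.2 ⟨hz, az⟩
  have h1 := card_le_card hsub
  rw [card_eq_three.2 ⟨x, y, z, hxy, hxz, hyz, rfl⟩, h] at h1
  omega

lemma ex_other {C : Finset V} {v x : V} (h : (nb G C v).card = 2) :
    ∃ y ∈ C, G.Adj v y ∧ y ≠ x := by
  by_contra hc
  push Not at hc
  have hsub : nb G C v ⊆ {x} := by
    intro w hw
    rw [mem_singleton]
    exact hc w (mem_nb.1 hw).1 (mem_nb.1 hw).2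
  have h1 := card_le_card hsub
  rw [card_singleton, h] at h1
  omega

lemma Pth.card_le {Z : Finset V} {n : ℕ} {f : ℕ → V} (h : Pth G Z n f) : n ≤ Z.card := by
  have h1 : (range n).card ≤ Z.card := by
    refine card_le_card_of_injOn f (fun x hx => h.mem x (mem_range.1 (mem_coe.1 hx))) ?_
    intro x hx y hy hxy
    have hx' := mem_range.1 (mem_coe.1 hx)
    have hy' := mem_range.1 (mem_coe.1 hy)
    rcases lt_trichotomy x y with h2 | h2 | h2
    · exact absurd hxy (h.inj x y h2 hy')
    · exact h2
    · exact absurd hxy.symm (h.inj y x h2 hx')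
  rwa [card_range] at h1

lemma Pth.ext {Z : Finset V} {n : ℕ} {f : ℕ → V} (h : Pth G Z n f) (hn : 1 ≤ n) {z : V} (hz : z ∈ Z)
    (hnew : ∀ x, x < n → f x ≠ z) (ha : G.Adj (f (n - 1)) z) :
    Pth G Z (n + 1) (fun x => if x = n then z else f x) := by
  refine ⟨?_, ?_, ?_⟩
  · intro x hx
    by_cases hxn : x = n
    · simp only [hxn, if_true]; exact hz
    · simp only [hxn, if_false]; exact h.mem x (by omega)
  · intro x y hxy hy
    have hxn : x ≠ n := by omega
    by_cases hyn : y = n
    · simp only [hxn, hyn, if_true, if_false]; exact hnew x (by omega)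
    · simp only [hxn, hyn, if_false]; exact h.inj x y hxy (by omega)
  · intro x hx
    have hxn : x ≠ n := by omega
    by_cases hyn : x + 1 = n
    · simp only [hxn, hyn, if_true, if_false]
      have : x = n - 1 := by omega
      rw [this]; exact ha
    · simp only [hxn, hyn, if_false]; exact h.adj x (by omega)

lemma exists_lab {Z : Finset V} (h : Cyc G Z) : ∃ n f, 4 ≤ n ∧ Lab G Z n f := by
  obtain ⟨h4, hconn, hdeg⟩ := h
  have hne : Z.Nonempty := card_pos.1 (by omega)
  obtain ⟨v, hv⟩ := hne
  let P : ℕ → Prop := fun n => ∃ f, Pth G Z n f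
  have hP1 : P 1 := ⟨fun _ => v, ⟨fun _ _ => hv, fun x y h1 h2 => by omega, fun x h1 => by omega⟩⟩
  have hb : ∀ m, P m → m ≤ Z.card := fun m ⟨f, hf⟩ => hf.card_le
  set n := Nat.findGreatest P Z.card with hn
  have hPn : P n := Nat.findGreatest_spec (hb 1 hP1) hP1
  have hmax : ∀ m, P m → m ≤ n := fun m hm => Nat.le_findGreatest (hb m hm) hm
  have hn1 : 1 ≤ n := hmax 1 hP1
  obtain ⟨f, hf⟩ := hPn
  have hend : ∀ z ∈ Z, G.Adj (f (n - 1)) z → ∃ x, x < n ∧ f x = z := by
    intro z hz ha
    by_contra hc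
    push Not at hc
    have := hmax (n + 1) ⟨_, hf.ext hn1 hz hc ha⟩
    omega
  have hn2 : 2 ≤ n := by
    obtain ⟨y, hy, hay, -⟩ := ex_other (x := f (n - 1)) (hdeg (f (n - 1)) (hf.mem _ (by omega)))
    obtain ⟨x, hx, rfl⟩ := hend y hy hay
    by_contra hc
    have h1 : x = n - 1 := by omega
    subst h1
    exact G.irrefl hay
  have hlast : G.Adj (f (n - 1)) (f (n - 2)) := by
    have := hf.adj (n - 2) (by omega)
    rw [show n - 2 + 1 = n - 1 by omega] at this
    exact this.symm
  obtain ⟨y, hy, hay, hyne⟩ := ex_other (x := f (n - 2)) (hdeg (f (n - 1)) (hf.mem _ (by omega)))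
  obtain ⟨w, hw, rfl⟩ := hend y hy hay
  have hw1 : w ≠ n - 1 := by rintro rfl; exact G.irrefl hay
  have hw2 : w ≠ n - 2 := by rintro rfl; exact hyne rfl
  have hw0 : w = 0 := by
    by_contra hc
    have h1 : G.Adj (f w) (f (w - 1)) := by
      have := hf.adj (w - 1) (by omega)
      rw [show w - 1 + 1 = w by omega] at this
      exact this.symm
    have h2 : G.Adj (f w) (f (w + 1)) := hf.adj w (by omega)
    exact no_three (hdeg (f w) (hf.mem w hw)) (hf.mem (w - 1) (by omega)) (hf.mem (w + 1) (by omega))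
      (hf.mem (n - 1) (by omega)) h1 h2 hay.symm (hf.inj _ _ (by omega) (by omega))
      (hf.inj _ _ (by omega) (by omega)) (hf.inj _ _ (by omega) (by omega))
  subst hw0
  have hn3 : 3 ≤ n := by omega
  -- neighbours
  have key : ∀ x, x < n → ∀ z ∈ Z, G.Adj (f x) z →
      z = f (if x = 0 then n - 1 else x - 1) ∨ z = f (if x + 1 = n then 0 else x + 1) := by
    intro x hx z hz ha
    by_contra hc
    push Not at hc
    obtain ⟨hc1, hc2⟩ := hc
    have a1 : G.Adj (f x) (f (if x = 0 then n - 1 else x - 1)) := by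
      by_cases hx0 : x = 0
      · subst hx0; simpa using hay.symm
      · simp only [hx0, if_false]
        have := hf.adj (x - 1) (by omega)
        rw [show x - 1 + 1 = x by omega] at this
        exact this.symm
    have a2 : G.Adj (f x) (f (if x + 1 = n then 0 else x + 1)) := by
      by_cases hx0 : x + 1 = n
      · simp only [hx0, if_true]
        have : x = n - 1 := by omega
        rw [this]; exact hay
      · simp only [hx0, if_false]
        exact hf.adj x (by omega)
    have m1 : (if x = 0 then n - 1 else x - 1) < n := by split_ifs <;> omega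
    have m2 : (if x + 1 = n then 0 else x + 1) < n := by split_ifs <;> omega
    have m3 : (if x = 0 then n - 1 else x - 1) ≠ (if x + 1 = n then 0 else x + 1) := by
      split_ifs <;> omega
    have hne : f (if x = 0 then n - 1 else x - 1) ≠ f (if x + 1 = n then 0 else x + 1) := by
      rcases lt_or_gt_of_ne m3 with h5 | h5
      · exact hf.inj _ _ h5 m2
      · exact (hf.inj _ _ h5 m1).symm
    exact no_three (hdeg (f x) (hf.mem x hx)) (hf.mem _ m1) (hf.mem _ m2) hz a1 a2 ha hne
      (Ne.symm hc1) (Ne.symm hc2)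
  have himg : (range n).image f = Z := by
    by_contra hc
    obtain ⟨c, hc1, d, hd1, hd2, hcd⟩ := hconn ((range n).image f)
      (by
        intro z hz
        obtain ⟨x, hx, rfl⟩ := mem_image.1 hz
        exact hf.mem x (mem_range.1 hx))
      ⟨f 0, mem_image.2 ⟨0, mem_range.2 (by omega), rfl⟩⟩ hc
    obtain ⟨x, hx, rfl⟩ := mem_image.1 hc1
    rw [mem_range] at hx
    apply hd2
    rcases key x hx d hd1 hcd with h5 | h5
    · rw [h5]
      exact mem_image.2 ⟨_, mem_range.2 (by split_ifs <;> omega), rfl⟩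
    · rw [h5]
      exact mem_image.2 ⟨_, mem_range.2 (by split_ifs <;> omega), rfl⟩
  have hcard : Z.card ≤ n := by
    rw [← himg]
    exact card_image_le.trans (by rw [card_range])
  refine ⟨n, f, by omega, hf.mem, ?_, hf.inj, ?_⟩
  · intro z hz
    rw [← himg] at hz
    obtain ⟨x, hx, hxz⟩ := mem_image.1 hz
    exact ⟨x, mem_range.1 hx, hxz⟩
  · intro x y hxy hyn
    have finj : ∀ a b, a < n → b < n → f a = f b → a = b := by
      intro a b ha hb hab
      rcases lt_trichotomy a b with h2 | h2 | h2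
      · exact absurd hab (hf.inj a b h2 hb)
      · exact h2
      · exact absurd hab.symm (hf.inj b a h2 ha)
    constructor
    · intro ha
      rcases key x (by omega) (f y) (hf.mem y hyn) ha with h5 | h5
      · have := finj y _ hyn (by split_ifs <;> omega) h5
        split_ifs at this <;> omega
      · have := finj y _ hyn (by split_ifs <;> omega) h5
        split_ifs at this <;> omega
    · rintro (rfl | ⟨rfl, h5⟩)
      · exact hf.adj x hyn
      · have : y = n - 1 := by omega
        rw [this]; exact hay.symm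

lemma Lab.finj {Z : Finset V} {n : ℕ} {f : ℕ → V} (h : Lab G Z n f) {a b : ℕ} (ha : a < n) (hb : b < n)
    (hab : f a = f b) : a = b := by
  rcases lt_trichotomy a b with h2 | h2 | h2
  · exact absurd hab (h.inj a b h2 hb)
  · exact h2
  · exact absurd hab.symm (h.inj b a h2 ha)

lemma Lab.rot {Z : Finset V} {n : ℕ} {f : ℕ → V} (h : Lab G Z n f) {t : ℕ} (ht : t < n) :
    Lab G Z n (fun x => if x + t < n then f (x + t) else f (x + t - n)) := by
  refine ⟨?_, ?_, ?_, ?_⟩
  · intro x hx
    by_cases h1 : x + t < n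
    · simp only [h1, if_true]; exact h.mem _ h1
    · simp only [h1, if_false]; exact h.mem _ (by omega)
  · intro z hz
    obtain ⟨x, hx, rfl⟩ := h.surj z hz
    by_cases h1 : t ≤ x
    · refine ⟨x - t, by omega, ?_⟩
      have h2 : x - t + t = x := by omega
      simp only [h2, hx, if_true]
    · refine ⟨x + n - t, by omega, ?_⟩
      have h2 : x + n - t + t = x + n := by omega
      have h3 : ¬ (x + n < n) := by omega
      have h4 : x + n - n = x := by omega
      simp only [h2, h3, if_false, h4]
  · intro x y hxy hyn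
    by_cases h1 : x + t < n
    · by_cases h2 : y + t < n
      · simp only [h1, h2, if_true]; exact h.inj _ _ (by omega) h2
      · simp only [h1, h2, if_true, if_false]; exact (h.inj _ _ (by omega) h1).symm
    · have h2 : ¬ (y + t < n) := by omega
      simp only [h1, h2, if_false]; exact h.inj _ _ (by omega) (by omega)
  · intro x y hxy hyn
    by_cases h1 : x + t < n
    · by_cases h2 : y + t < n
      · simp only [h1, h2, if_true]
        rw [h.adj _ _ (by omega) h2]
        omega
      · simp only [h1, h2, if_true, if_false]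
        rw [G.adj_comm, h.adj _ _ (by omega) h1]
        omega
    · have h2 : ¬ (y + t < n) := by omega
      simp only [h1, h2, if_false]
      rw [h.adj _ _ (by omega) (by omega)]
      omega

lemma exists_lab_at {Z : Finset V} (h : Cyc G Z) {z : V} (hz : z ∈ Z) :
    ∃ n f, 4 ≤ n ∧ Lab G Z n f ∧ f 0 = z := by
  obtain ⟨n, f, hn, hf⟩ := exists_lab h
  obtain ⟨t, ht, htz⟩ := hf.surj z hz
  refine ⟨n, _, hn, hf.rot ht, ?_⟩
  simp only [Nat.zero_add, ht, if_true]
  exact htz

end Pool.Agent.W5h14.TV
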