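import Pool.Agent.W5h14.TV.CDDef
import Pool.Agent.W5h83.GT.Sum
import Pool.Agent.W5h83.GT.Num5

/-!
# Gluing for full subcomplexes given by finite sets of vertices
-/

set_option autoImplicit false

namespace Pool.Agent.W5h14.TV

open Pool.Agent.W907.SG Pool.Agent.W907.SM
open Pool.Agent.W5h83.GT (lv_sum van_sum)

section
variable {V : Type} [DecidableEq V] (G : SimpleGraph V) (A B D : Finset V)

theorem glueF_sub (i : ℕ) (h : LV (G.induce ((A ∩ D : Finset V) : Set V)) i) :
    LV ((G.induce (D : Set V)).induce {x : ↥(D : Set V) | (x : V) ∈ A}) i := by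
  let f : ↥({x : ↥(D : Set V) | (x : V) ∈ A}) → ↥(((A ∩ D : Finset V)) : Set V) :=
    fun x => ⟨x.1.1, Finset.mem_coe.2 (Finset.mem_inter.2 ⟨x.2, Finset.mem_coe.1 x.1.2⟩)⟩
  have hf : Function.Bijective f := by
    constructor
    · intro x y hxy
      have h0 := congrArg Subtype.val hxy
      exact Subtype.ext (Subtype.ext h0)
    · rintro ⟨x, hx⟩
      have hx' := Finset.mem_inter.1 (Finset.mem_coe.1 hx)
      exact ⟨⟨⟨x, Finset.mem_coe.2 hx'.2⟩, hx'.1⟩, rfl⟩
  have e : (G.induce (D : Set V)).induce {x : ↥(D : Set V) | (x : V) ∈ A} ≃g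
      G.induce ((A ∩ D : Finset V) : Set V) := ⟨Equiv.ofBijective f hf, Iff.rfl⟩
  exact liso _ _ _ _ i ⟨e.symm⟩ h

theorem glueF_cone (p : V) (hp : p ∉ A) (i : ℕ)
    (h : LV ((coneAt G (A ∩ B) p).induce ((insert p (A ∩ D) : Finset V) : Set V)) i) :
    LV (Pool.Agent.W5h83.GT.cone ((G.induce (D : Set V)).induce {x : ↥(D : Set V) | (x : V) ∈ A})
      {a | (a : ↥(D : Set V)) ∈ {x : ↥(D : Set V) | (x : V) ∈ B}}) i := by
  let f : Option ↥({x : ↥(D : Set V) | (x : V) ∈ A}) →
      ↥(((insert p (A ∩ D) : Finset V)) : Set V) := fun x => match x with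
    | none => ⟨p, Finset.mem_coe.2 (Finset.mem_insert_self _ _)⟩
    | some x => ⟨x.1.1, Finset.mem_coe.2 (Finset.mem_insert_of_mem
        (Finset.mem_inter.2 ⟨x.2, Finset.mem_coe.1 x.1.2⟩))⟩
  have hne : ∀ a : ↥({x : ↥(D : Set V) | (x : V) ∈ A}), (a.1.1 : V) ≠ p := fun a h =>
    hp (h ▸ a.2)
  have hf : Function.Bijective f := by
    constructor
    · intro x y hxy
      have h0 := congrArg Subtype.val hxy
      cases x with
      | none =>
        cases y with
        | none => rfl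
        | some b => exact absurd h0.symm (hne b)
      | some a =>
        cases y with
        | none => exact absurd h0 (hne a)
        | some b => exact congrArg some (Subtype.ext (Subtype.ext h0))
    · rintro ⟨x, hx⟩
      rcases Finset.mem_insert.1 (Finset.mem_coe.1 hx) with h1 | h1
      · exact ⟨none, Subtype.ext h1.symm⟩
      · have hx' := Finset.mem_inter.1 h1
        exact ⟨some ⟨⟨x, Finset.mem_coe.2 hx'.2⟩, hx'.1⟩, rfl⟩
  have e : Pool.Agent.W5h83.GT.cone ((G.induce (D : Set V)).induce {x : ↥(D : Set V) | (x : V) ∈ A})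
      {a | (a : ↥(D : Set V)) ∈ {x : ↥(D : Set V) | (x : V) ∈ B}} ≃g
      (coneAt G (A ∩ B) p).induce ((insert p (A ∩ D) : Finset V) : Set V) := by
    refine ⟨Equiv.ofBijective f hf, ?_⟩
    intro x y
    cases x with
    | none =>
      cases y with
      | none =>
        constructor
        · rintro (⟨h1, -⟩ | ⟨-, h1, -⟩ | ⟨-, h1, -⟩) <;> exact absurd rfl h1
        · exact fun h => h.elim
      | some b =>
        constructor
        · rintro (⟨h1, -⟩ | ⟨-, -, h1⟩ | ⟨h1, -⟩)
          · exact absurd rfl h1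
          · exact (Finset.mem_inter.1 h1).2
          · exact absurd h1 (hne b)
        · exact fun h => Or.inr (Or.inl ⟨rfl, hne b, Finset.mem_inter.2 ⟨b.2, h⟩⟩)
    | some a =>
      cases y with
      | none =>
        constructor
        · rintro (⟨-, h1, -⟩ | ⟨h1, -⟩ | ⟨-, -, h1⟩)
          · exact absurd rfl h1
          · exact absurd h1 (hne a)
          · exact (Finset.mem_inter.1 h1).2
        · exact fun h => Or.inr (Or.inr ⟨rfl, hne a, Finset.mem_inter.2 ⟨a.2, h⟩⟩)
      | some b =>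
        constructor
        · rintro (⟨-, -, h1⟩ | ⟨h1, -⟩ | ⟨h1, -⟩)
          · exact h1
          · exact absurd h1 (hne a)
          · exact absurd h1 (hne b)
        · exact fun h => Or.inl ⟨hne a, hne b, h⟩
  exact liso _ _ _ _ i ⟨e.symm⟩ h

end

/-- Gluing for the full subcomplex on `D ⊆ A ∪ B`. -/
theorem lv_glueF {V : Type} [Finite V] [DecidableEq V] (G : SimpleGraph V) (A B D : Finset V) (p q : V)
    (hp : p ∉ A) (hq : q ∉ B) (hno : ∀ x ∈ A, x ∉ B → ∀ y ∈ B, y ∉ A → ¬ G.Adj x y)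
    (hD : D ⊆ A ∪ B) (i : ℕ) (h1 : LV (G.induce ((A ∩ D : Finset V) : Set V)) i)
    (h2 : LV (G.induce ((B ∩ D : Finset V) : Set V)) i)
    (h3 : LV ((coneAt G (A ∩ B) p).induce ((insert p (A ∩ D) : Finset V) : Set V)) i)
    (h4 : LV ((coneAt G (A ∩ B) q).induce ((insert q (B ∩ D) : Finset V) : Set V)) i) :
    LV (G.induce (D : Set V)) i := by
  refine lv_sum (G.induce (D : Set V)) {x | (x : V) ∈ A} {x | (x : V) ∈ B} ?_ ?_ i
    (glueF_sub G A D i h1) (glueF_sub G B D i h2) (glueF_cone G A B D p hp i h3)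
    (glueF_cone G B A D q hq i (by rw [Finset.inter_comm B A]; exact h4))
  · ext x
    have : (x : V) ∈ A ∪ B := hD (Finset.mem_coe.1 x.2)
    simpa using this
  · exact fun a ha haB b hb hbA => hno a ha haB b hb hbA

/-- Gluing for the full subcomplex on `D ⊆ A ∪ B`, only the two cones. -/
theorem lv_glueF2 {V : Type} [Finite V] [DecidableEq V] (G : SimpleGraph V) (A B D : Finset V) (p q : V)
    (hp : p ∉ A) (hq : q ∉ B) (hno : ∀ x ∈ A, x ∉ B → ∀ y ∈ B, y ∉ A → ¬ G.Adj x y)
    (hD : D ⊆ A ∪ B) (i : ℕ) (hi : 1 ≤ i)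
    (h3 : LV ((coneAt G (A ∩ B) p).induce ((insert p (A ∩ D) : Finset V) : Set V)) i)
    (h4 : LV ((coneAt G (A ∩ B) q).induce ((insert q (B ∩ D) : Finset V) : Set V)) i) :
    LV (G.induce (D : Set V)) i := by
  intro fD oD
  letI fA : Fintype ↥{x : ↥(D : Set V) | (x : V) ∈ A} := Fintype.ofFinite _
  letI fB : Fintype ↥{x : ↥(D : Set V) | (x : V) ∈ B} := Fintype.ofFinite _
  letI oA : LinearOrder (Option ↥{x : ↥(D : Set V) | (x : V) ∈ A}) :=
    LinearOrder.lift' (Fintype.equivFin _) (Fintype.equivFin _).injective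
  letI oB : LinearOrder (Option ↥{x : ↥(D : Set V) | (x : V) ∈ B}) :=
    LinearOrder.lift' (Fintype.equivFin _) (Fintype.equivFin _).injective
  refine van_sum (G.induce (D : Set V)) {x | (x : V) ∈ A} {x | (x : V) ∈ B} ?_ ?_ i hi
    (glueF_cone G A B D p hp i h3 _ _)
    (glueF_cone G B A D q hq i (by rw [Finset.inter_comm B A]; exact h4) _ _)
  · ext x
    have : (x : V) ∈ A ∪ B := hD (Finset.mem_coe.1 x.2)
    simpa using this
  · exact fun a ha haB b hb hbA => hno a ha haB b hb hbA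

end Pool.Agent.W5h14.TV
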