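import Pool.Agent.W5h14.TV.HSDef
import Pool.Agent.R781.VS.VDel
import Pool.Agent.R703.MO.Small

/-!
# Vertices and links: three exact sequences
-/

set_option autoImplicit false

namespace Pool.Agent.W5h14.TV

open Finset Classical
open Pool.Agent.W907.SG Pool.Agent.W5h83.FS
open Pool.Agent.TH652.Dual (triv mem_KK_triv)
open Pool.Agent.W347.SGV (qq qq_of_mem qq_of_not qq_bd qq_mem lift lift_mem qq_lift KK_mono mem_of_qq)

variable {V : Type} [Fintype V] [LinearOrder V] {G : SimpleGraph V}

omit [Fintype V] [LinearOrder V] in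
theorem triv_neg (v : V) (m : ℝ) : triv V v m = - m := rfl

/-- the chains of the link, with the generator of `v` acting as `-1` -/
theorem KK_ins {A : Set V} (v : V) (i : ℕ) :
    KK G (triv V) A (insert v ∅) i = KK G (triv V) A ∅ i :=
  Pool.Agent.R703.MO.KK_S (triv_neg v)

/-- the boundary of the cone over a cycle of the link -/
theorem bd_lift {A : Set V} {v : V} (hv : v ∉ A) {i : ℕ} {z : Finset V → ℝ}
    (hz : z ∈ KK G (triv V) (A ∩ G.neighborSet v) (insert v ∅) i) (hb : bd ℝ z = 0) :
    bd ℝ (lift v z) = z := by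
  have h1 := qq_bd (F := ℝ) v (lift v z)
  rw [qq_lift hv hz, hb] at h1
  have h2 : qq ℝ v (bd ℝ (lift v z)) = 0 := by
    have : - qq ℝ v (bd ℝ (lift v z)) = 0 := h1.symm
    exact neg_eq_zero.1 this
  funext T
  by_cases hT : v ∈ T
  · have h3 := congrFun h2 (T.erase v)
    rw [qq_of_not _ (notMem_erase _ _), insert_erase hT, Pi.zero_apply] at h3
    have h4 : sg v (T.erase v) • sg v (T.erase v) • bd ℝ (lift v z) T = 0 := by rw [h3, smul_zero]
    rw [smul_smul, sg_mul_self, one_smul] at h4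
    rw [h4, (mem_KK.1 hz).1 T]
    rintro ⟨-, h5, -⟩
    exact hv (h5 (mem_coe.2 hT)).1
  · rw [bd_apply, sum_eq_single v]
    · unfold lift
      rw [if_pos (mem_insert_self _ _), erase_insert hT, smul_smul, sg_mul_self, one_smul]
    · intro u hu huv
      unfold lift
      rw [if_neg, smul_zero]
      intro h
      rcases mem_insert.1 h with h | h
      · exact huv h.symm
      · exact hT h
    · intro h
      exact absurd (mem_compl.2 hT) h

theorem qq_zero {A : Set V} {v : V} (hv : v ∉ A) {i : ℕ} {c : Finset V → ℝ}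
    (hc : c ∈ KK G (triv V) A ∅ i) : qq ℝ v c = 0 := by
  funext T
  by_cases hT : v ∈ T
  · rw [qq_of_mem _ hT]
    rfl
  · rw [qq_of_not _ hT, (mem_KK.1 hc).1 (insert v T), smul_zero]
    · rfl
    · rintro ⟨-, h, -⟩
      exact hv (h (by simp))

/-- the link in terms of the vertex and its complement -/
theorem lnk_le {A : Set V} {v : V} (hv : v ∉ A) (i : ℕ) :
    beta G (triv V) (A ∩ G.neighborSet v) ∅ i ≤
      beta G (triv V) (insert v A) ∅ (i + 1) + beta G (triv V) A ∅ i := by
  have key := mid ℝ (Finset V → ℝ) (Finset V → ℝ) (Finset V → ℝ) (qq ℝ v) LinearMap.id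
    (BB G (triv V) (insert v A) ∅ (i + 1)) (ZZ G (triv V) (insert v A) ∅ (i + 1))
    (BB G (triv V) (A ∩ G.neighborSet v) ∅ i) (ZZ G (triv V) (A ∩ G.neighborSet v) ∅ i)
    (BB G (triv V) A ∅ i) (ZZ G (triv V) A ∅ i)
    (BB_le_ZZ _ _ _ _ _) (BB_le_ZZ _ _ _ _ _) (BB_le_ZZ _ _ _ _ _) ?_ ?_ ?_
  · exact key
  · rintro _ ⟨_, ⟨c, hc, rfl⟩, rfl⟩
    have h1 := qq_mem (F := ℝ) (G := G) (A := A) (v := v) (i := i + 1) (c := c) hc
    rw [KK_ins] at h1
    refine ⟨- qq ℝ v c, Submodule.neg_mem _ h1, ?_⟩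
    rw [map_neg, qq_bd, neg_neg]
  · rw [Submodule.map_id]
    exact inf_le_inf_right _ (KK_mono Set.inter_subset_left)
  · rintro z ⟨hz1, hz2⟩ ⟨w, hw, hwz⟩
    have hz2 : bd ℝ z = 0 := hz2
    have hw : w ∈ KK G (triv V) A ∅ (i + 1) := hw
    have hwz : bd ℝ w = z := hwz
    have hz1' : z ∈ KK G (triv V) (A ∩ G.neighborSet v) (insert v ∅) i := by
      rw [KK_ins]
      exact hz1
    refine ⟨lift v z - w, ⟨Submodule.sub_mem _ (lift_mem (A := A) hz1')
      (KK_mono (Set.subset_insert _ _) hw), ?_⟩, 0, Submodule.zero_mem _, ?_⟩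
    · show bd ℝ (lift v z - w) = 0
      rw [map_sub, bd_lift hv hz1' hz2, hwz, sub_self]
    · rw [map_sub, qq_lift hv hz1', qq_zero hv hw, sub_zero, add_zero]

/-- adding a vertex -/
theorem add_le {A : Set V} {v : V} (hv : v ∉ A) (i : ℕ) :
    beta G (triv V) (insert v A) ∅ (i + 1) ≤
      beta G (triv V) A ∅ (i + 1) + beta G (triv V) (A ∩ G.neighborSet v) ∅ i := by
  have h := (vert V ℝ ℝ G (triv V) A ∅ v hv (Set.notMem_empty v)).2 i
  rwa [Pool.Agent.R703.MO.beta_S (triv_neg v)] at h

/-- no reduced homology in degree `-1` -/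
theorem beta_ne_zero {A : Set V} (hA : A.Nonempty) : beta G (triv V) A ∅ 0 = 0 := by
  obtain ⟨a, ha⟩ := hA
  refine Pool.Agent.R703.MO.beta_zero_of fun z hz _ => ?_
  rw [mem_KK_triv] at hz
  refine ⟨fun T => if T = {a} then z ∅ else 0, ?_, ?_⟩
  · rw [mem_KK_triv]
    intro T hT
    rw [if_neg]
    rintro rfl
    apply hT
    refine ⟨?_, ?_, card_singleton a⟩
    · rw [coe_singleton]
      exact Set.pairwise_singleton _ _
    · rw [coe_singleton]
      exact Set.singleton_subset_iff.2 ha
  · funext T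
    rw [bd_apply]
    by_cases hT : T = ∅
    · subst hT
      rw [sum_eq_single a]
      · have h1 : sg a (∅ : Finset V) = 1 := by
          unfold sg
          simp
        rw [if_pos (insert_empty_eq a), h1, one_smul]
      · intro b _ hb
        rw [if_neg, smul_zero]
        intro h
        rw [insert_empty_eq] at h
        exact hb (singleton_injective h)
      · intro h
        exact absurd (mem_compl.2 (notMem_empty a)) h
    · rw [hz T fun h => hT (card_eq_zero.1 h.2.2)]
      refine sum_eq_zero fun b hb => ?_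
      rw [if_neg, smul_zero]
      intro h
      have h1 : (insert b T).card = T.card + 1 := card_insert_of_notMem (mem_compl.1 hb)
      rw [h, card_singleton] at h1
      exact hT (card_eq_zero.1 (by omega))

end Pool.Agent.W5h14.TV
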