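import Pool.Agent.W5h14.TV.HSDef
import Pool.Agent.R781.VS.VDel
import Pool.Agent.R781.VS.Contr

/-!
# Restriction to a set of vertices, contraction in a full subcomplex
-/

set_option autoImplicit false

namespace Pool.Agent.W5h14.TV

open Finset Classical
open Pool.Agent.W907.SG Pool.Agent.W5h83.FS
open Pool.Agent.TH652.Dual (triv)
open Pool.Agent.R781.VS (con)

variable {V : Type} [Fintype V] [LinearOrder V] {G : SimpleGraph V}

/-- Betti numbers of the full subcomplex on `A`, computed in two graphs with the same adjacency on `A` -/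
theorem beta_two (S : Finset V) (K : SimpleGraph ↥(S : Set V)) (A : Set V) (hA : A ⊆ (S : Set V))
    (hK : ∀ x y : ↥(S : Set V), x.1 ∈ A → y.1 ∈ A → (K.Adj x y ↔ G.Adj x.1 y.1)) (i : ℕ) :
    beta K (triv ↥(S : Set V)) (Subtype.val ⁻¹' A) ∅ i = beta G (triv V) A ∅ i := by
  let _ : Fintype ↥A := Fintype.ofFinite _
  have h1 := tr ↥A V ℝ ℝ G (G.induce A) (triv V) (fun u => (u : V)) (Subtype.strictMono_coe _)
    (fun u u' => Iff.rfl) i
  rw [Subtype.range_coe] at h1
  have h2 := tr ↥A ↥(S : Set V) ℝ ℝ K (G.induce A) (triv ↥(S : Set V)) (fun u => ⟨u.1, hA u.2⟩)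
    (fun u u' h => h) (fun u u' => (hK ⟨u.1, hA u.2⟩ ⟨u'.1, hA u'.2⟩ u.2 u'.2).symm) i
  have h3 : Set.range (fun u : ↥A => (⟨u.1, hA u.2⟩ : ↥(S : Set V))) = Subtype.val ⁻¹' A := by
    ext x
    constructor
    · rintro ⟨u, rfl⟩
      exact u.2
    · intro hx
      exact ⟨⟨x.1, hx⟩, rfl⟩
  rw [h3] at h2
  rw [h1, h2]

/-- restriction to a full subcomplex -/
theorem beta_sub (S : Finset V) (A : Set V) (hA : A ⊆ (S : Set V)) (i : ℕ) :
    beta (G.induce (S : Set V)) (triv ↥(S : Set V)) (Subtype.val ⁻¹' A) ∅ i =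
      beta G (triv V) A ∅ i :=
  beta_two S _ A hA (fun _ _ _ _ => Iff.rfl) i

/-- contraction of an edge of a full subcomplex -/
theorem beta_con_rel {S : Finset V} {s t : V} (hs : s ∈ S) (ht : t ∈ S) (hst : G.Adj s t)
    (hq : NoSqF G S s t) (i : ℕ) :
    beta G (triv V) (S : Set V) ∅ i ≤
      beta (con G s t) (triv V) ((S.erase t : Finset V) : Set V) ∅ i := by
  set K := G.induce (S : Set V) with hK
  let s' : ↥(S : Set V) := ⟨s, hs⟩
  let t' : ↥(S : Set V) := ⟨t, ht⟩
  have h1 := beta_sub (G := G) S (S : Set V) (Set.Subset.refl _) i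
  rw [Subtype.coe_preimage_self] at h1
  have h2 := Pool.Agent.R781.VS.beta_con (F := ℝ) (M := ℝ) (G := K) (ρ := triv ↥(S : Set V)) (s := s')
    (t := t') mid hst (fun x y a1 a2 a3 a4 a5 a6 => hq x.1 x.2 y.1 y.2 a1 a2
      (fun h => a3 (Subtype.ext h)) a4 a5 (fun h => a6 (Subtype.ext h))) rfl i
  have h3 := beta_two (G := con G s t) S (con K s' t') ((S.erase t : Finset V) : Set V)
    (by
      intro x hx
      exact mem_coe.2 (mem_erase.1 (mem_coe.1 hx)).2) (by
      intro x y _ _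
      constructor
      · rintro ⟨h3, h4, h5, h6⟩
        refine ⟨fun h => h3 (Subtype.ext h), fun h => h4 (Subtype.ext h),
          fun h => h5 (Subtype.ext h), ?_⟩
        rcases h6 with h | ⟨h, h7⟩ | ⟨h, h7⟩
        · exact Or.inl h
        · exact Or.inr (Or.inl ⟨congrArg Subtype.val h, h7⟩)
        · exact Or.inr (Or.inr ⟨congrArg Subtype.val h, h7⟩)
      · rintro ⟨h3, h4, h5, h6⟩
        refine ⟨fun h => h3 (congrArg Subtype.val h), fun h => h4 (congrArg Subtype.val h),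
          fun h => h5 (congrArg Subtype.val h), ?_⟩
        rcases h6 with h | ⟨h, h7⟩ | ⟨h, h7⟩
        · exact Or.inl h
        · exact Or.inr (Or.inl ⟨Subtype.ext h, h7⟩)
        · exact Or.inr (Or.inr ⟨Subtype.ext h, h7⟩)) i
  have h4 : (Subtype.val ⁻¹' ((S.erase t : Finset V) : Set V) : Set ↥(S : Set V)) = {t'}ᶜ := by
    ext x
    rw [Set.mem_preimage, mem_coe, mem_erase, Set.mem_compl_iff, Set.mem_singleton_iff]
    constructor
    · rintro ⟨h5, -⟩ h6
      exact h5 (congrArg Subtype.val h6)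
    · intro h5
      exact ⟨fun h6 => h5 (Subtype.ext h6), x.2⟩
  rw [h4] at h3
  rw [← h1, ← h3]
  exact h2

end Pool.Agent.W5h14.TV
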