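import Pool.Agent.W5h14.TV.Alex
import Pool.Agent.W5h14.TV.Lnk
import Pool.Agent.W5h14.TV.Rel

/-!
# Flag homology spheres as sets of vertices: basic facts
-/

set_option autoImplicit false

namespace Pool.Agent.W5h14.TV

open Finset Classical
open Pool.Agent.W907.SG Pool.Agent.W907.SM Pool.Agent.W5h83.FS
open Pool.Agent.TH652.Above (HSph)
open Pool.Agent.TH652.Dual (triv duality mem_KK_triv exact_of_beta)
open Pool.Agent.R781.VS (con)

variable {V : Type} [Fintype V] [LinearOrder V] {G G' : SimpleGraph V}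

/-- the Betti numbers of the full subcomplex on `A` (index `i`: dimension `i - 1`) -/
noncomputable abbrev bt (G : SimpleGraph V) (A : Set V) (i : ℕ) : ℕ := beta G (triv V) A ∅ i

theorem KK_graph {A : Set V} (h : ∀ x ∈ A, ∀ y ∈ A, (G.Adj x y ↔ G'.Adj x y)) (i : ℕ) :
    KK G (triv V) A ∅ i = KK G' (triv V) A ∅ i := by
  have key : ∀ G G' : SimpleGraph V, (∀ x ∈ A, ∀ y ∈ A, (G.Adj x y ↔ G'.Adj x y)) →
      KK G (triv V) A ∅ i ≤ KK G' (triv V) A ∅ i := by
    intro G G' h c hc
    rw [mem_KK_triv] at hc ⊢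
    intro T hT
    refine hc T fun h1 => hT ⟨fun x hx y hy hxy => ?_, h1.2⟩
    exact (h x (h1.2.1 hx) y (h1.2.1 hy)).1 (h1.1 hx hy hxy)
  exact le_antisymm (key G G' h) (key G' G fun x hx y hy => (h x hx y hy).symm)

theorem bt_graph {A : Set V} (h : ∀ x ∈ A, ∀ y ∈ A, (G.Adj x y ↔ G'.Adj x y)) (i : ℕ) : bt G A i = bt G' A i := by
  unfold bt beta ZZ BB
  rw [KK_graph h, KK_graph h]

theorem bt_empty (i : ℕ) : bt G (∅ : Set V) i = if i = 0 then 1 else 0 := by
  split_ifs with hi
  · subst hi
    have hB : BB G (triv V) (∅ : Set V) ∅ 0 = ⊥ := by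
      rw [eq_bot_iff]
      rintro _ ⟨w, hw, rfl⟩
      replace hw := mem_KK_triv.1 hw
      have : w = 0 := by
        funext T
        refine hw T fun h => ?_
        have h1 : T = ∅ := by
          rw [eq_empty_iff_forall_notMem]
          intro x hx
          exact h.2.1 hx
        rw [h1] at h
        simp at h
      rw [this, map_zero]
      exact Submodule.zero_mem _
    unfold bt beta
    rw [hB, finrank_bot, Nat.sub_zero]
    set z : Finset V → ℝ := fun T => if T = ∅ then 1 else 0 with hz
    have hzZ : z ∈ ZZ G (triv V) (∅ : Set V) ∅ 0 := by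
      refine ⟨mem_KK_triv.2 fun T hT => ?_, LinearMap.mem_ker.2 ?_⟩
      · rw [hz]
        simp only
        rw [if_neg]
        rintro rfl
        exact hT ⟨by simp, by simp, rfl⟩
      · funext T
        rw [bd_apply, Pi.zero_apply]
        refine sum_eq_zero fun v _ => ?_
        rw [hz]
        simp only
        rw [if_neg (insert_ne_empty _ _), smul_zero]
    refine le_antisymm (finrank_le_one (⟨z, hzZ⟩ : ↥(ZZ G (triv V) (∅ : Set V) ∅ 0)) ?_) ?_
    · rintro ⟨w, hw⟩
      refine ⟨w ∅, Subtype.ext ?_⟩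
      funext T
      replace hw := mem_KK_triv.1 hw.1
      change w ∅ * z T = w T
      rw [hz]
      simp only
      split_ifs with h
      · rw [h, mul_one]
      · rw [mul_zero]
        refine (hw T fun h1 => h ?_).symm
        exact card_eq_zero.1 h1.2.2
    · rw [Nat.succ_le_iff, Module.finrank_pos_iff_exists_ne_zero]
      refine ⟨⟨z, hzZ⟩, fun h => ?_⟩
      have h1 : z ∅ = 0 := congrFun (congrArg Subtype.val h) ∅
      rw [hz] at h1
      simp at h1
  · refine Pool.Agent.R703.MO.beta_zero_of fun z hz _ => ?_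
    replace hz := mem_KK_triv.1 hz
    have : z = 0 := by
      funext T
      refine hz T fun h => ?_
      have h1 : T = ∅ := by
        rw [eq_empty_iff_forall_notMem]
        intro x hx
        exact h.2.1 hx
      rw [h1] at h
      exact hi h.2.2.symm
    exact ⟨0, Submodule.zero_mem _, by rw [this, map_zero]⟩

/-- a cone is acyclic -/
theorem bt_cone {A : Set V} {u : V} (hu : u ∈ A) (h : ∀ w ∈ A, w ≠ u → G.Adj u w) (i : ℕ) : bt G A i = 0 :=
  Pool.Agent.R703.MO.beta_cone hu h (fun _ => rfl) i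

theorem HS.congr : ∀ (n : ℕ) (S : Finset V), (∀ x ∈ S, ∀ y ∈ S, (G.Adj x y ↔ G'.Adj x y)) → HS G n S → HS G' n S := by
  intro n
  induction n with
  | zero => exact fun S _ h => h
  | succ n ih =>
    intro S h hS
    refine ⟨fun i => ?_, fun v hv => ?_⟩
    · rw [← hS.1 i]
      exact (bt_graph h i).symm
    · have h1 : nb G' S v = nb G S v := by
        ext x
        rw [mem_nb, mem_nb]
        constructor
        · rintro ⟨h2, h3⟩
          exact ⟨h2, (h v hv x h2).2 h3⟩
        · rintro ⟨h2, h3⟩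
          exact ⟨h2, (h v hv x h2).1 h3⟩
      rw [h1]
      exact ih _ (fun x hx y hy => h x (mem_nb.1 hx).1 y (mem_nb.1 hy).1) (hS.2 v hv)

theorem HS.ne_empty {n : ℕ} {S : Finset V} (h : HS G (n + 1) S) : S.Nonempty := by
  rw [nonempty_iff_ne_empty]
  rintro rfl
  have h1 := h.1 (n + 1)
  rw [coe_empty, if_pos rfl] at h1
  have h2 := bt_empty (G := G) (n + 1)
  unfold bt at h2
  rw [h2, if_neg (by omega)] at h1
  exact absurd h1 (by norm_num)

theorem HS.bt_eq {n : ℕ} {S : Finset V} (h : HS G n S) (i : ℕ) : bt G (S : Set V) i = if i = n then 1 else 0 := by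
  cases n with
  | zero =>
    have h1 : S = ∅ := h
    rw [h1, coe_empty]
    exact bt_empty i
  | succ n => exact h.1 i

/-- links of simplices -/
theorem HS.clique : ∀ (n : ℕ) (S T : Finset V), HS G n S → T ⊆ S → G.IsClique (T : Set V) →
    ∃ k, k + T.card = n ∧ HS G k (S.filter fun x => ∀ u ∈ T, G.Adj x u) := by
  intro n
  induction n with
  | zero =>
    intro S T hS hT _
    have h1 : S = ∅ := hS
    rw [h1, subset_empty] at hT
    refine ⟨0, by rw [hT]; rfl, ?_⟩
    rw [h1]
    rfl
  | succ n ih =>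
    intro S T hS hT hc
    rcases T.eq_empty_or_nonempty with rfl | ⟨v, hv⟩
    · refine ⟨n + 1, rfl, ?_⟩
      have h1 : (S.filter fun x => ∀ u ∈ (∅ : Finset V), G.Adj x u) = S := by
        rw [filter_eq_self]
        simp
      rw [h1]
      exact hS
    · have hadj : ∀ x ∈ T.erase v, G.Adj v x := fun x hx =>
        hc (mem_coe.2 hv) (mem_coe.2 (mem_of_mem_erase hx)) (ne_of_mem_erase hx).symm
      obtain ⟨k, hk, h1⟩ := ih (nb G S v) (T.erase v) (hS.2 v (hT hv))
        (fun x hx => mem_nb.2 ⟨hT (mem_of_mem_erase hx), hadj x hx⟩)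
        (hc.subset (by rw [coe_erase]; exact Set.diff_subset))
      refine ⟨k, ?_, ?_⟩
      · rw [card_erase_of_mem hv] at hk
        have := card_pos.2 ⟨v, hv⟩
        omega
      · have h2 : (S.filter fun x => ∀ u ∈ T, G.Adj x u) =
            (nb G S v).filter fun x => ∀ u ∈ T.erase v, G.Adj x u := by
          ext x
          rw [mem_filter, mem_filter, mem_nb]
          constructor
          · rintro ⟨h3, h4⟩
            exact ⟨⟨h3, (h4 v hv).symm⟩, fun u hu => h4 u (mem_of_mem_erase hu)⟩
          · rintro ⟨⟨h3, h4⟩, h5⟩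
            refine ⟨h3, fun u hu => ?_⟩
            by_cases huv : u = v
            · rw [huv]
              exact h4.symm
            · exact h5 u (mem_erase.2 ⟨huv, hu⟩)
        rw [h2]
        exact h1

theorem HS.card_le {n : ℕ} {S T : Finset V} (h : HS G n S) (hT : T ⊆ S) (hc : G.IsClique (T : Set V)) :
    T.card ≤ n := by
  obtain ⟨k, hk, -⟩ := HS.clique n S T h hT hc
  omega

theorem HS.big {n : ℕ} {S : Finset V} (h : HS G n S) {A : Set V} (hA : A ⊆ (S : Set V)) {i : ℕ} (hi : n < i) :
    bt G A i = 0 := by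
  refine Pool.Agent.R703.MO.beta_zero_of fun z hz _ => ?_
  replace hz := mem_KK_triv.1 hz
  have : z = 0 := by
    funext T
    refine hz T fun h1 => ?_
    have h2 := h.card_le (T := T) (by
      intro x hx
      exact mem_coe.1 (hA (h1.2.1 (mem_coe.2 hx)))) h1.1
    omega
  exact ⟨0, Submodule.zero_mem _, by rw [this, map_zero]⟩

/-- the type of the sphere -/
theorem HS.hsph {n : ℕ} {S : Finset V} (h : HS G n S) : HSph n (G.induce (S : Set V)) := by
  intro S' hS' i
  set T : Finset V := S'.map (Function.Embedding.subtype _) with hT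
  have hTS : T ⊆ S := by
    intro x hx
    rw [hT, mem_map] at hx
    obtain ⟨y, -, rfl⟩ := hx
    exact y.2
  have hTc : G.IsClique (T : Set V) := by
    intro x hx y hy hxy
    rw [hT, mem_coe, mem_map] at hx hy
    obtain ⟨x', hx', rfl⟩ := hx
    obtain ⟨y', hy', rfl⟩ := hy
    exact hS' hx' hy' fun h => hxy (congrArg _ h)
  obtain ⟨k, hk, h1⟩ := HS.clique n S T h hTS hTc
  have h2 : lk (G.induce (S : Set V)) S' =
      Subtype.val ⁻¹' ((S.filter fun x => ∀ u ∈ T, G.Adj x u : Finset V) : Set V) := by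
    ext x
    rw [Set.mem_preimage, mem_coe, mem_filter]
    constructor
    · intro h3
      refine ⟨x.2, fun u hu => ?_⟩
      rw [hT, mem_map] at hu
      obtain ⟨u', hu', rfl⟩ := hu
      exact h3 u' hu'
    · rintro ⟨-, h3⟩ u hu
      exact h3 u.1 (by rw [hT, mem_map]; exact ⟨u, hu, rfl⟩)
  have h3 : beta (G.induce (S : Set V)) (triv ↥(S : Set V)) (lk (G.induce (S : Set V)) S') ∅ i =
      if i + S'.card = n then 1 else 0 := by
    rw [h2, beta_sub S _ (by
      intro x hx
      rw [mem_coe, mem_filter] at hx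
      exact hx.1) i]
    have h4 := h1.bt_eq i
    unfold bt at h4
    rw [h4]
    have h5 : T.card = S'.card := card_map _
    by_cases h6 : i = k
    · rw [if_pos h6, if_pos (by omega)]
    · rw [if_neg h6, if_neg (by omega)]
  exact h3

end Pool.Agent.W5h14.TV
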