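import Pool.Agent.W5h14.TV.HSBase
import Pool.Agent.W5h14.TV.AlexLe
import Pool.Agent.W5h14.TV.Crit

/-!
# The contraction of an edge in no induced 4-cycle preserves flag homology spheres
-/

set_option autoImplicit false

namespace Pool.Agent.W5h14.TV

open Finset Classical
open Pool.Agent.W907.SG Pool.Agent.W907.SM Pool.Agent.W5h83.FS
open Pool.Agent.TH652.Above (HSph)
open Pool.Agent.TH652.Dual (triv duality mem_KK_triv exact_of_beta)
open Pool.Agent.R781.VS (con)

variable {V : Type} [Fintype V] [LinearOrder V] {G G' : SimpleGraph V}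

/-- Alexander duality, inequality -/
theorem HS.alex {n : ℕ} {S A : Finset V} (h : HS G n S) (hA : A ⊆ S) {i j : ℕ} (hij : i + j = n) :
    bt G (A : Set V) i ≤ (if j = n then 1 else 0) + bt G ((S \ A : Finset V) : Set V) j := by
  have h1 := alex_le h.hsph hij (Subtype.val ⁻¹' (A : Set V))
  have e1 := beta_sub (G := G) S (A : Set V) (by exact_mod_cast hA) i
  have e2 := beta_sub (G := G) S (S : Set V) (Set.Subset.refl _) j
  have e3 := beta_sub (G := G) S ((S \ A : Finset V) : Set V) (by
    rw [coe_sdiff]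
    exact Set.diff_subset) j
  have e4 : (Subtype.val ⁻¹' (S : Set V) : Set ↥(S : Set V)) = Set.univ := by
    ext x
    simp
  have e5 : (Subtype.val ⁻¹' (A : Set V) : Set ↥(S : Set V))ᶜ = Subtype.val ⁻¹' ((S \ A : Finset V) : Set V) := by
    ext x
    simp
  rw [e4] at e2
  rw [e5, e1, e2, e3] at h1
  have e6 := h.bt_eq j
  unfold bt at e6 ⊢
  rw [e6] at h1
  exact h1

/-- the complement of an acyclic set is acyclic -/
theorem HS.compl {n : ℕ} {S A : Finset V} (h : HS G n S) (hA : A ⊆ S) (hne : (S \ A).Nonempty)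
    (h0 : ∀ j, bt G (A : Set V) j = 0) (j : ℕ) : bt G ((S \ A : Finset V) : Set V) j = 0 := by
  rcases Nat.eq_zero_or_pos j with rfl | hj
  · exact beta_ne_zero (by exact_mod_cast hne)
  · by_cases hjn : j ≤ n
    · have h1 := h.alex (A := S \ A) sdiff_subset (i := j) (j := n - j) (by omega)
      rw [if_neg (by omega), Finset.sdiff_sdiff_eq_self hA, h0] at h1
      omega
    · exact h.big (by rw [coe_sdiff]; exact Set.diff_subset) (by omega)

theorem bt_insert {D : Set V} {v : V} (hv : v ∉ D) (hD : ∀ j, bt G D j = 0) {k : ℕ}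
    (hL : ∀ i, bt G (D ∩ G.neighborSet v) i = if i = k then 1 else 0) (i : ℕ) :
    bt G (insert v D) i = if i = k + 1 then 1 else 0 := by
  rcases i with _ | i
  · rw [if_neg (by omega)]
    exact beta_ne_zero ⟨v, Set.mem_insert _ _⟩
  · have h1 := add_le (G := G) hv i
    have h2 := lnk_le (G := G) hv i
    have h3 := hD (i + 1)
    have h4 := hD i
    have h5 := hL i
    unfold bt at h3 h4 h5 ⊢
    rw [h3, h5] at h1
    rw [h4, h5] at h2
    by_cases h6 : i = k
    · rw [if_pos h6] at h1 h2
      rw [if_pos (by omega)]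
      omega
    · rw [if_neg h6] at h1 h2
      rw [if_neg (by omega)]
      omega

theorem bt_single (v : V) (i : ℕ) : bt G (({v} : Finset V) : Set V) i = 0 :=
  bt_cone (u := v) (by simp) (fun w hw hne => absurd (by simpa using hw) hne) i

/-- spheres have at least two vertices -/
theorem HS.two {n : ℕ} {S : Finset V} (h : HS G (n + 1) S) (v : V) : (S \ {v}).Nonempty := by
  by_contra h1
  rw [not_nonempty_iff_eq_empty, sdiff_eq_empty_iff_subset] at h1
  obtain ⟨w, hw⟩ := h.ne_empty
  have h2 : S = {v} := by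
    refine Subset.antisymm h1 ?_
    have h3 := mem_singleton.1 (h1 hw)
    rw [← h3, singleton_subset_iff]
    exact hw
  have h3 := h.bt_eq (n + 1)
  rw [h2, bt_single, if_pos rfl] at h3
  exact absurd h3 (by norm_num)

/-- renaming a vertex -/
theorem HS.relabel : ∀ (n : ℕ) (S : Finset V) (s t : V), HS G n S → t ∈ S → s ∉ S →
    (∀ x ∈ S.erase t, ∀ y ∈ S.erase t, (G.Adj x y ↔ G'.Adj x y)) →
    (∀ x ∈ S.erase t, (G'.Adj s x ↔ G.Adj t x)) → HS G' n (insert s (S.erase t)) := by
  intro n
  induction n with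
  | zero =>
    intro S s t hS ht
    have h1 : S = ∅ := hS
    rw [h1] at ht
    exact absurd ht (notMem_empty t)
  | succ n ih =>
    intro S s t hS ht hs hag hst
    have hsD : s ∉ S.erase t := fun h => hs (mem_of_mem_erase h)
    have hDt : S \ {t} = S.erase t := by
      ext x
      simp [and_comm]
    have hD : ∀ j, bt G ((S.erase t : Finset V) : Set V) j = 0 := by
      intro j
      have h1 := hS.compl (A := {t}) (by rwa [singleton_subset_iff]) (hS.two t) (bt_single t) j
      rwa [hDt] at h1
    have hnbs : (S.erase t : Finset V).filter (fun x => G'.Adj s x) = nb G S t := by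
      ext x
      rw [mem_filter, mem_nb]
      constructor
      · rintro ⟨h1, h2⟩
        exact ⟨mem_of_mem_erase h1, (hst x h1).1 h2⟩
      · rintro ⟨h1, h2⟩
        have h3 : x ∈ S.erase t := mem_erase.2 ⟨h2.ne.symm, h1⟩
        exact ⟨h3, (hst x h3).2 h2⟩
    have hsub : ∀ x ∈ nb G S t, x ∈ S.erase t := fun x hx =>
      mem_erase.2 ⟨(mem_nb.1 hx).2.ne.symm, (mem_nb.1 hx).1⟩
    refine ⟨fun i => ?_, fun v hv => ?_⟩
    · rw [coe_insert]
      refine bt_insert (G := G') (k := n) (by exact_mod_cast hsD) (fun j => ?_) (fun j => ?_) i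
      · rw [← hD j]
        exact (bt_graph (fun x hx y hy => hag x (by exact_mod_cast hx) y (by exact_mod_cast hy)) j).symm
      · have h1 : ((S.erase t : Finset V) : Set V) ∩ G'.neighborSet s = (nb G S t : Set V) := by
          rw [← hnbs]
          ext x
          rw [Set.mem_inter_iff, mem_coe, mem_coe, mem_filter, SimpleGraph.mem_neighborSet]
        rw [h1, ← (hS.2 t ht).bt_eq j]
        exact (bt_graph (fun x hx y hy => hag x (hsub x (by exact_mod_cast hx)) y
          (hsub y (by exact_mod_cast hy))) j).symm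
    · rw [mem_insert] at hv
      by_cases hvs : v = s
      · have h1 : nb G' (insert s (S.erase t)) v = nb G S t := by
          rw [← hnbs]
          ext x
          rw [mem_nb, mem_insert, mem_filter, hvs]
          constructor
          · rintro ⟨h2 | h2, h3⟩
            · rw [h2] at h3
              exact absurd h3 G'.irrefl
            · exact ⟨h2, h3⟩
          · rintro ⟨h2, h3⟩
            exact ⟨Or.inr h2, h3⟩
        rw [h1]
        exact HS.congr n _ (fun x hx y hy => hag x (hsub x hx) y (hsub y hy)) (hS.2 t ht)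
      · have hvD : v ∈ S.erase t := hv.resolve_left hvs
        have hvS := mem_of_mem_erase hvD
        by_cases htv : G.Adj t v
        · have h1 : nb G' (insert s (S.erase t)) v = insert s ((nb G S v).erase t) := by
            ext x
            rw [mem_nb, mem_insert, mem_insert, mem_erase (s := nb G S v), mem_nb]
            constructor
            · rintro ⟨h2 | h2, h3⟩
              · exact Or.inl h2
              · refine Or.inr ⟨ne_of_mem_erase h2, mem_of_mem_erase h2, (hag v hvD x h2).2 h3⟩
            · rintro (h2 | ⟨h2, h3, h4⟩)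
              · refine ⟨Or.inl h2, ?_⟩
                rw [h2]
                exact ((hst v hvD).2 htv).symm
              · have h5 : x ∈ S.erase t := mem_erase.2 ⟨h2, h3⟩
                exact ⟨Or.inr h5, (hag v hvD x h5).1 h4⟩
          rw [h1]
          have hmem : ∀ x ∈ (nb G S v).erase t, x ∈ S.erase t := fun x hx =>
            mem_erase.2 ⟨ne_of_mem_erase hx, (mem_nb.1 (mem_of_mem_erase hx)).1⟩
          exact ih (nb G S v) s t (hS.2 v hvS) (mem_nb.2 ⟨ht, htv.symm⟩) (fun h => hs (mem_nb.1 h).1)
            (fun x hx y hy => hag x (hmem x hx) y (hmem y hy)) fun x hx => hst x (hmem x hx)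
        · have h1 : nb G' (insert s (S.erase t)) v = nb G S v := by
            ext x
            rw [mem_nb, mem_insert, mem_nb]
            constructor
            · rintro ⟨h2 | h2, h3⟩
              · rw [h2] at h3
                exact absurd ((hst v hvD).1 h3.symm) htv
              · exact ⟨mem_of_mem_erase h2, (hag v hvD x h2).2 h3⟩
            · rintro ⟨h2, h3⟩
              have h5 : x ∈ S.erase t := mem_erase.2 ⟨fun h => htv (h ▸ h3.symm), h2⟩
              exact ⟨Or.inr h5, (hag v hvD x h5).1 h3⟩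
          rw [h1]
          have hmem : ∀ x ∈ nb G S v, x ∈ S.erase t := fun x hx =>
            mem_erase.2 ⟨fun h => htv (h ▸ (mem_nb.1 hx).2.symm), (mem_nb.1 hx).1⟩
          exact HS.congr n _ (fun x hx y hy => hag x (hmem x hx) y (hmem y hy)) (hS.2 v hvS)

/-- the merged link -/
noncomputable def mg (G : SimpleGraph V) (S : Finset V) (s t : V) : Finset V :=
  (nb G S s ∪ nb G S t) \ {s, t}

theorem mem_mg {S : Finset V} {s t x : V} :
    x ∈ mg G S s t ↔ x ∈ S ∧ (G.Adj s x ∨ G.Adj t x) ∧ x ≠ s ∧ x ≠ t := by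
  rw [mg, mem_sdiff, mem_union, mem_nb, mem_nb, mem_insert, mem_singleton, not_or]
  tauto

theorem con_agree {s t x y : V} (hxs : x ≠ s) (hxt : x ≠ t) (hys : y ≠ s) (hyt : y ≠ t) :
    G.Adj x y ↔ (con G s t).Adj x y := by
  constructor
  · intro h
    exact ⟨h.ne, hxt, hyt, Or.inl h⟩
  · rintro ⟨-, -, -, h | ⟨h, -⟩ | ⟨h, -⟩⟩
    · exact h
    · exact absurd h hxs
    · exact absurd h hys

theorem con_s {s t y : V} (hst : s ≠ t) (hys : y ≠ s) (hyt : y ≠ t) :
    (con G s t).Adj s y ↔ (G.Adj s y ∨ G.Adj t y) := by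
  constructor
  · rintro ⟨-, -, -, h | ⟨-, h⟩ | ⟨h, -⟩⟩
    · exact Or.inl h
    · exact Or.inr h
    · exact absurd h hys
  · rintro (h | h)
    · exact ⟨hys.symm, hst, hyt, Or.inl h⟩
    · exact ⟨hys.symm, hst, hyt, Or.inr (Or.inl ⟨rfl, h⟩)⟩

/-- the rest of the sphere is acyclic -/
theorem HS.rest {n : ℕ} {S : Finset V} (h : HS G (n + 2) S) {s t : V} (hs : s ∈ S) (ht : t ∈ S) (hst : G.Adj s t)
    (j : ℕ) : bt G ((S \ {s, t} : Finset V) : Set V) j = 0 := by
  refine h.compl (A := {s, t}) ?_ ?_ ?_ j
  · intro x hx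
    rw [mem_insert, mem_singleton] at hx
    rcases hx with rfl | rfl
    · exact hs
    · exact ht
  · have h1 : HS G (n + 1) (nb G S s) := h.2 s hs
    obtain ⟨x, hx⟩ := h1.two t
    rw [mem_sdiff, mem_nb, mem_singleton] at hx
    refine ⟨x, ?_⟩
    rw [mem_sdiff, mem_insert, mem_singleton]
    exact ⟨hx.1.1, fun h2 => h2.elim (fun h3 => hx.1.2.ne h3.symm) hx.2⟩
  · intro k
    refine bt_cone (u := s) (by simp) (fun w hw hne => ?_) k
    simp only [coe_insert, coe_singleton, Set.mem_insert_iff, Set.mem_singleton_iff] at hw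
    rcases hw with rfl | rfl
    · exact absurd rfl hne
    · exact hst

/-- the Betti numbers of the merged link -/
theorem HS.bt_mg {n : ℕ} {S : Finset V} (h : HS G (n + 2) S) {s t : V} (hs : s ∈ S) (ht : t ∈ S)
    (hst : G.Adj s t) (hq : NoSqF G S s t) (i : ℕ) : bt G (mg G S s t : Set V) i = if i = n + 1 then 1 else 0 := by
  have hsub : mg G S s t ⊆ S := fun x hx => (mem_mg.1 hx).1
  have hne : (mg G S s t).Nonempty := by
    have h1 : HS G (n + 1) (nb G S s) := h.2 s hs
    obtain ⟨x, hx⟩ := h1.two t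
    rw [mem_sdiff, mem_nb, mem_singleton] at hx
    exact ⟨x, mem_mg.2 ⟨hx.1.1, Or.inl hx.1.2, hx.1.2.ne.symm, hx.2⟩⟩
  -- the union of the stars is acyclic
  set N : Finset V := nb G S s ∪ nb G S t with hN
  have hNS : N ⊆ S := by
    intro x hx
    rw [hN, mem_union, mem_nb, mem_nb] at hx
    rcases hx with hx | hx
    · exact hx.1
    · exact hx.1
  have hsN : s ∈ N := mem_union_right _ (mem_nb.2 ⟨hs, hst.symm⟩)
  have htN : t ∈ N := mem_union_left _ (mem_nb.2 ⟨ht, hst⟩)
  have hN0 : ∀ k, bt G (N : Set V) k = 0 := by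
    intro k
    have h1 := beta_con_rel (G := G) hsN htN hst (fun x hx y hy => hq x (hNS hx) y (hNS hy)) k
    have h2 : bt (con G s t) ((N.erase t : Finset V) : Set V) k = 0 := by
      refine bt_cone (u := s) (by simp [hst.ne, hsN]) (fun w hw hws => ?_) k
      rw [mem_coe, mem_erase, hN, mem_union, mem_nb, mem_nb] at hw
      rw [con_s hst.ne hws hw.1]
      rcases hw.2 with h3 | h3
      · exact Or.inl h3.2
      · exact Or.inr h3.2
    unfold bt at h2 ⊢
    omega
  have hRne : (S \ N).Nonempty := by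
    by_contra h1
    rw [not_nonempty_iff_eq_empty, sdiff_eq_empty_iff_subset] at h1
    have h2 : S = N := Subset.antisymm h1 hNS
    have h3 := h.bt_eq (n + 2)
    rw [h2, hN0, if_pos rfl] at h3
    exact absurd h3 (by norm_num)
  have hR0 := h.compl hNS hRne hN0
  -- the complement of the merged link
  have hcomp : ((S \ mg G S s t : Finset V) : Set V) = insert t (insert s ((S \ N : Finset V) : Set V)) := by
    ext x
    simp only [coe_sdiff, Set.mem_sdiff, mem_coe, Set.mem_insert_iff, mem_mg, hN, mem_union, mem_nb]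
    constructor
    · rintro ⟨h1, h2⟩
      by_cases h3 : x = t
      · exact Or.inl h3
      · by_cases h4 : x = s
        · exact Or.inr (Or.inl h4)
        · refine Or.inr (Or.inr ⟨h1, fun h5 => h2 ⟨h1, ?_, h4, h3⟩⟩)
          rcases h5 with h5 | h5
          · exact Or.inl h5.2
          · exact Or.inr h5.2
    · rintro (rfl | rfl | ⟨h1, h2⟩)
      · exact ⟨ht, fun h3 => h3.2.2.2 rfl⟩
      · exact ⟨hs, fun h3 => h3.2.2.1 rfl⟩
      · refine ⟨h1, fun h3 => h2 ?_⟩
        rcases h3.2.1 with h4 | h4
        · exact Or.inl ⟨h1, h4⟩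
        · exact Or.inr ⟨h1, h4⟩
  have hsR : s ∉ ((S \ N : Finset V) : Set V) := by
    rw [mem_coe, mem_sdiff]
    exact fun h1 => h1.2 hsN
  have htR : t ∉ insert s ((S \ N : Finset V) : Set V) := by
    rw [Set.mem_insert_iff, mem_coe, mem_sdiff]
    rintro (h1 | h1)
    · exact hst.ne h1.symm
    · exact h1.2 htN
  have e1 : ((S \ N : Finset V) : Set V) ∩ G.neighborSet s = ∅ := by
    ext x
    simp only [Set.mem_inter_iff, mem_coe, mem_sdiff, SimpleGraph.mem_neighborSet, Set.mem_empty_iff_false,
      iff_false, hN, mem_union, mem_nb]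
    rintro ⟨⟨h1, h2⟩, h3⟩
    exact h2 (Or.inl ⟨h1, h3⟩)
  have e2 : insert s ((S \ N : Finset V) : Set V) ∩ G.neighborSet t = (({s} : Finset V) : Set V) := by
    ext x
    simp only [Set.mem_inter_iff, Set.mem_insert_iff, mem_coe, mem_sdiff, SimpleGraph.mem_neighborSet,
      hN, mem_union, mem_nb, mem_singleton]
    constructor
    · rintro ⟨h1 | ⟨h1, h2⟩, h3⟩
      · exact h1
      · exact absurd (Or.inr ⟨h1, h3⟩) h2
    · rintro rfl
      exact ⟨Or.inl rfl, hst.symm⟩
  have hY : ∀ j, bt G ((S \ mg G S s t : Finset V) : Set V) (j + 1) ≤ if j = 0 then 1 else 0 := by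
    intro j
    rw [hcomp]
    have h1 := add_le (G := G) htR j
    have h2 := add_le (G := G) hsR j
    rw [e2] at h1
    rw [e1] at h2
    have h3 := bt_single (G := G) s j
    have h4 := bt_empty (G := G) j
    have h5 := hR0 (j + 1)
    unfold bt at h3 h4 h5 ⊢
    rw [h3] at h1
    rw [h4, h5] at h2
    split_ifs at h2 ⊢ <;> omega
  by_cases hi0 : i = 0
  · subst hi0
    rw [if_neg (by omega)]
    exact beta_ne_zero (by exact_mod_cast hne)
  by_cases hin : n + 2 < i
  · rw [if_neg (by omega)]
    exact h.big (by exact_mod_cast hsub) hin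
  by_cases hin2 : i = n + 2
  · rw [if_neg (by omega)]
    have h1 := h.alex hsub (i := i) (j := 0) (by omega)
    rw [if_neg (by omega)] at h1
    have h2 : bt G ((S \ mg G S s t : Finset V) : Set V) 0 = 0 := by
      refine beta_ne_zero ⟨s, ?_⟩
      rw [hcomp]
      exact Set.mem_insert_of_mem _ (Set.mem_insert _ _)
    omega
  obtain ⟨j, hj⟩ : ∃ j, i + (j + 1) = n + 2 := ⟨n + 1 - i, by omega⟩
  have h1 := h.alex hsub (i := i) (j := j + 1) hj
  rw [if_neg (by omega)] at h1
  have h2 := hY j
  by_cases hi1 : i = n + 1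
  · rw [if_pos hi1]
    rw [if_pos (by omega)] at h2
    refine le_antisymm (by omega) ?_
    -- lower bound, from the contraction
    have h3 := beta_con_rel (G := G) hs ht hst hq (n + 2)
    have h4 := h.bt_eq (n + 2)
    rw [if_pos rfl] at h4
    have h5 : ((S.erase t : Finset V) : Set V) = insert s ((S \ {s, t} : Finset V) : Set V) := by
      ext x
      simp only [mem_coe, mem_erase, Set.mem_insert_iff, mem_sdiff, mem_insert, mem_singleton, not_or]
      constructor
      · rintro ⟨h6, h7⟩
        by_cases h8 : x = s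
        · exact Or.inl h8
        · exact Or.inr ⟨h7, h8, h6⟩
      · rintro (rfl | ⟨h6, h7, h8⟩)
        · exact ⟨hst.ne, hs⟩
        · exact ⟨h8, h6⟩
    have hsD : s ∉ ((S \ {s, t} : Finset V) : Set V) := by
      simp
    have h6 := add_le (G := con G s t) hsD (n + 1)
    have h7 : ((S \ {s, t} : Finset V) : Set V) ∩ (con G s t).neighborSet s = (mg G S s t : Set V) := by
      ext x
      simp only [Set.mem_inter_iff, mem_coe, mem_sdiff, mem_insert, mem_singleton, not_or,
        SimpleGraph.mem_neighborSet, mem_mg]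
      constructor
      · rintro ⟨⟨h8, h9, h10⟩, h11⟩
        exact ⟨h8, (con_s hst.ne h9 h10).1 h11, h9, h10⟩
      · rintro ⟨h8, h9, h10, h11⟩
        exact ⟨⟨h8, h10, h11⟩, (con_s hst.ne h10 h11).2 h9⟩
    have h8 : bt (con G s t) (mg G S s t : Set V) (n + 1) = bt G (mg G S s t : Set V) (n + 1) := by
      refine (bt_graph (fun x hx y hy => ?_) _).symm
      have hx' := mem_mg.1 (mem_coe.1 hx)
      have hy' := mem_mg.1 (mem_coe.1 hy)
      exact con_agree hx'.2.2.1 hx'.2.2.2 hy'.2.2.1 hy'.2.2.2
    have h9 : bt (con G s t) ((S \ {s, t} : Finset V) : Set V) (n + 2) = 0 := by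
      rw [← h.rest hs ht hst (n + 2)]
      refine (bt_graph (fun x hx y hy => ?_) _).symm
      rw [mem_coe, mem_sdiff, mem_insert, mem_singleton, not_or] at hx hy
      exact con_agree hx.2.1 hx.2.2 hy.2.1 hy.2.2
    rw [hi1]
    rw [h5] at h3
    rw [h7, show n + 1 + 1 = n + 2 from rfl] at h6
    unfold bt at h4 h8 h9 ⊢
    omega
  · rw [if_neg hi1]
    rw [if_neg (by omega)] at h2
    omega

/-- **The merged link is a flag homology sphere.** -/
theorem HS.mg_sphere : ∀ (n : ℕ) (S : Finset V) (s t : V), HS G (n + 2) S → s ∈ S → t ∈ S → G.Adj s t →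
    NoSqF G S s t → HS G (n + 1) (mg G S s t) := by
  intro n
  induction n with
  | zero =>
    intro S s t h hs ht hst hq
    refine ⟨fun i => h.bt_mg hs ht hst hq i, fun x hx => ?_⟩
    obtain ⟨hxS, hx1, hxs, hxt⟩ := mem_mg.1 hx
    have key : ∀ s t : V, s ∈ S → t ∈ S → G.Adj s t → G.Adj s x → ¬ G.Adj t x → x ≠ t → NoSqF G S s t →
        nb G (mg G S s t) x = nb G (nb G S s) x := by
      intro s t hs ht hst hsx htx hxt hq
      ext y
      rw [mem_nb, mem_mg, mem_nb, mem_nb]
      constructor
      · rintro ⟨⟨hyS, hy1, hys, hyt⟩, hxy⟩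
        refine ⟨⟨hyS, ?_⟩, hxy⟩
        by_contra hsy
        exact hq x hxS y hyS hsx htx hxt (hy1.resolve_left hsy) hsy hys hxy
      · rintro ⟨⟨hyS, hsy⟩, hxy⟩
        exact ⟨⟨hyS, Or.inl hsy, hsy.ne.symm, fun h1 => htx (h1 ▸ hxy.symm)⟩, hxy⟩
    have hmgs : mg G S s t = mg G S t s := by
      ext y
      rw [mem_mg, mem_mg]
      tauto
    have hqs : NoSqF G S t s := fun a ha b hb h1 h2 h3 h4 h5 h6 hab =>
      hq b hb a ha h4 h5 h6 h1 h2 h3 hab.symm
    by_cases hsx : G.Adj s x
    · by_cases htx : G.Adj t x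
      · exfalso
        -- a 0-sphere with two adjacent points
        have h1 : HS G 1 (nb G S x) := h.2 x hxS
        have h2 : HS G 0 (nb G (nb G S x) s) := h1.2 s (mem_nb.2 ⟨hs, hsx.symm⟩)
        have h3 : nb G (nb G S x) s = ∅ := h2
        have h4 : t ∈ nb G (nb G S x) s := mem_nb.2 ⟨mem_nb.2 ⟨ht, htx.symm⟩, hst⟩
        rw [h3] at h4
        exact notMem_empty t h4
      · rw [key s t hs ht hst hsx htx hxt hq]
        have h1 : HS G 1 (nb G S s) := h.2 s hs
        exact h1.2 x (mem_nb.2 ⟨hxS, hsx⟩)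
    · have htx : G.Adj t x := hx1.resolve_left hsx
      rw [hmgs, key t s ht hs hst.symm htx hsx hxs hqs]
      have h1 : HS G 1 (nb G S t) := h.2 t ht
      exact h1.2 x (mem_nb.2 ⟨hxS, htx⟩)
  | succ n ih =>
    intro S s t h hs ht hst hq
    refine ⟨fun i => h.bt_mg hs ht hst hq i, fun x hx => ?_⟩
    obtain ⟨hxS, hx1, hxs, hxt⟩ := mem_mg.1 hx
    have key : ∀ s t : V, s ∈ S → t ∈ S → G.Adj s t → G.Adj s x → ¬ G.Adj t x → x ≠ t → NoSqF G S s t →
        nb G (mg G S s t) x = nb G (nb G S s) x := by
      intro s t hs ht hst hsx htx hxt hq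
      ext y
      rw [mem_nb, mem_mg, mem_nb, mem_nb]
      constructor
      · rintro ⟨⟨hyS, hy1, hys, hyt⟩, hxy⟩
        refine ⟨⟨hyS, ?_⟩, hxy⟩
        by_contra hsy
        exact hq x hxS y hyS hsx htx hxt (hy1.resolve_left hsy) hsy hys hxy
      · rintro ⟨⟨hyS, hsy⟩, hxy⟩
        exact ⟨⟨hyS, Or.inl hsy, hsy.ne.symm, fun h1 => htx (h1 ▸ hxy.symm)⟩, hxy⟩
    have hmgs : mg G S s t = mg G S t s := by
      ext y
      rw [mem_mg, mem_mg]
      tauto
    have hqs : NoSqF G S t s := fun a ha b hb h1 h2 h3 h4 h5 h6 hab =>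
      hq b hb a ha h4 h5 h6 h1 h2 h3 hab.symm
    by_cases hsx : G.Adj s x
    · by_cases htx : G.Adj t x
      · have h1 : nb G (mg G S s t) x = mg G (nb G S x) s t := by
          ext y
          rw [mem_nb, mem_mg, mem_mg, mem_nb]
          tauto
        rw [h1]
        exact ih (nb G S x) s t (h.2 x hxS) (mem_nb.2 ⟨hs, hsx.symm⟩) (mem_nb.2 ⟨ht, htx.symm⟩) hst
          fun a ha b hb => hq a (mem_nb.1 ha).1 b (mem_nb.1 hb).1
      · rw [key s t hs ht hst hsx htx hxt hq]
        have h1 : HS G (n + 2) (nb G S s) := h.2 s hs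
        exact h1.2 x (mem_nb.2 ⟨hxS, hsx⟩)
    · have htx : G.Adj t x := hx1.resolve_left hsx
      rw [hmgs, key t s ht hs hst.symm htx hsx hxs hqs]
      have h1 : HS G (n + 2) (nb G S t) := h.2 t ht
      exact h1.2 x (mem_nb.2 ⟨hxS, htx⟩)

/-- **Contraction.** -/
theorem HS.con : ∀ (n : ℕ) (S : Finset V) (s t : V), HS G n S → s ∈ S → t ∈ S → G.Adj s t →
    NoSqF G S s t → HS (con G s t) n (S.erase t) := by
  intro n
  induction n with
  | zero =>
    intro S s t h hs
    have h1 : S = ∅ := h
    rw [h1] at hs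
    exact absurd hs (notMem_empty s)
  | succ n ih =>
    intro S s t h hs ht hst hq
    rcases n with _ | n
    · exfalso
      have h1 : HS G 0 (nb G S s) := h.2 s hs
      have h2 : nb G S s = ∅ := h1
      have h3 : t ∈ nb G S s := mem_nb.2 ⟨ht, hst⟩
      rw [h2] at h3
      exact notMem_empty t h3
    have hmg := HS.mg_sphere n S s t h hs ht hst hq
    have h5 : ((S.erase t : Finset V) : Set V) = insert s ((S \ {s, t} : Finset V) : Set V) := by
      ext x
      simp only [mem_coe, mem_erase, Set.mem_insert_iff, mem_sdiff, mem_insert, mem_singleton, not_or]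
      constructor
      · rintro ⟨h6, h7⟩
        by_cases h8 : x = s
        · exact Or.inl h8
        · exact Or.inr ⟨h7, h8, h6⟩
      · rintro (rfl | ⟨h6, h7, h8⟩)
        · exact ⟨hst.ne, hs⟩
        · exact ⟨h8, h6⟩
    have h7 : ((S \ {s, t} : Finset V) : Set V) ∩ (Pool.Agent.R781.VS.con G s t).neighborSet s =
        (mg G S s t : Set V) := by
      ext x
      simp only [Set.mem_inter_iff, mem_coe, mem_sdiff, mem_insert, mem_singleton, not_or,
        SimpleGraph.mem_neighborSet, mem_mg]
      constructor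
      · rintro ⟨⟨h8, h9, h10⟩, h11⟩
        exact ⟨h8, (con_s hst.ne h9 h10).1 h11, h9, h10⟩
      · rintro ⟨h8, h9, h10, h11⟩
        exact ⟨⟨h8, h10, h11⟩, (con_s hst.ne h10 h11).2 h9⟩
    have hmgag : ∀ x ∈ mg G S s t, ∀ y ∈ mg G S s t,
        (G.Adj x y ↔ (Pool.Agent.R781.VS.con G s t).Adj x y) := by
      intro x hx y hy
      have hx' := mem_mg.1 hx
      have hy' := mem_mg.1 hy
      exact con_agree hx'.2.2.1 hx'.2.2.2 hy'.2.2.1 hy'.2.2.2
    refine ⟨fun i => ?_, fun v hv => ?_⟩
    · rw [h5]
      refine bt_insert (k := n + 1) (by simp) (fun j => ?_) (fun j => ?_) i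
      · rw [← h.rest hs ht hst j]
        refine (bt_graph (fun x hx y hy => ?_) _).symm
        rw [mem_coe, mem_sdiff, mem_insert, mem_singleton, not_or] at hx hy
        exact con_agree hx.2.1 hx.2.2 hy.2.1 hy.2.2
      · rw [h7, ← hmg.bt_eq j]
        exact (bt_graph (fun x hx y hy => hmgag x hx y hy) j).symm
    · obtain ⟨hvt, hvS⟩ := mem_erase.1 hv
      by_cases hvs : v = s
      · have h1 : nb (Pool.Agent.R781.VS.con G s t) (S.erase t) v = mg G S s t := by
          ext x
          rw [mem_nb, mem_erase, mem_mg, hvs]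
          constructor
          · rintro ⟨⟨h2, h3⟩, h4⟩
            have h6 : x ≠ s := h4.ne.symm
            exact ⟨h3, (con_s hst.ne h6 h2).1 h4, h6, h2⟩
          · rintro ⟨h2, h3, h4, h6⟩
            exact ⟨⟨h6, h2⟩, (con_s hst.ne h4 h6).2 h3⟩
        rw [h1]
        exact HS.congr _ _ hmgag hmg
      · by_cases hvs1 : G.Adj s v
        · by_cases hvt1 : G.Adj t v
          · -- both
            have h1 : nb (Pool.Agent.R781.VS.con G s t) (S.erase t) v = (nb G S v).erase t := by
              ext x
              rw [mem_nb, mem_erase, mem_erase, mem_nb]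
              constructor
              · rintro ⟨⟨h2, h3⟩, h4⟩
                refine ⟨h2, h3, ?_⟩
                by_cases hxs : x = s
                · rw [hxs]
                  exact hvs1.symm
                · exact (con_agree hvs hvt hxs h2).2 h4
              · rintro ⟨h2, h3, h4⟩
                refine ⟨⟨h2, h3⟩, ?_⟩
                exact ⟨h4.ne, hvt, h2, Or.inl h4⟩
            rw [h1]
            exact ih (nb G S v) s t (h.2 v hvS) (mem_nb.2 ⟨hs, hvs1.symm⟩) (mem_nb.2 ⟨ht, hvt1.symm⟩) hst
              fun a ha b hb => hq a (mem_nb.1 ha).1 b (mem_nb.1 hb).1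
          · -- only `s`
            have h1 : nb (Pool.Agent.R781.VS.con G s t) (S.erase t) v = nb G S v := by
              ext x
              rw [mem_nb, mem_erase, mem_nb]
              constructor
              · rintro ⟨⟨h2, h3⟩, h4⟩
                refine ⟨h3, ?_⟩
                by_cases hxs : x = s
                · rw [hxs]
                  exact hvs1.symm
                · exact (con_agree hvs hvt hxs h2).2 h4
              · rintro ⟨h2, h3⟩
                have h4 : x ≠ t := fun h6 => hvt1 (h6 ▸ h3.symm)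
                exact ⟨⟨h4, h2⟩, h3.ne, hvt, h4, Or.inl h3⟩
            rw [h1]
            refine HS.congr _ _ (fun x hx y hy => ?_) (h.2 v hvS)
            obtain ⟨hxS, hvx⟩ := mem_nb.1 hx
            obtain ⟨hyS, hvy⟩ := mem_nb.1 hy
            have hxt : x ≠ t := fun h6 => hvt1 (h6 ▸ hvx.symm)
            have hyt : y ≠ t := fun h6 => hvt1 (h6 ▸ hvy.symm)
            have hcom : ∀ z ∈ S, G.Adj v z → z ≠ s → z ≠ t → G.Adj t z → G.Adj s z := by
              intro z hz hvz hzs hzt htz
              by_contra hsz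
              exact hq v hvS z hz hvs1 hvt1 hvt htz hsz hzs hvz
            by_cases hxs : x = s
            · by_cases hys : y = s
              · rw [hxs, hys]
                exact ⟨fun h6 => absurd h6 G.irrefl, fun h6 => absurd h6 (Pool.Agent.R781.VS.con G s t).irrefl⟩
              · rw [hxs, con_s hst.ne hys hyt]
                exact ⟨Or.inl, fun h6 => h6.elim id (hcom y hyS hvy hys hyt)⟩
            · by_cases hys : y = s
              · rw [hys, SimpleGraph.adj_comm, SimpleGraph.adj_comm (Pool.Agent.R781.VS.con G s t),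
                  con_s hst.ne hxs hxt]
                exact ⟨Or.inl, fun h6 => h6.elim id (hcom x hxS hvx hxs hxt)⟩
              · exact con_agree hxs hxt hys hyt
        · by_cases hvt1 : G.Adj t v
          · -- only `t`
            have h1 : nb (Pool.Agent.R781.VS.con G s t) (S.erase t) v = insert s ((nb G S v).erase t) := by
              ext x
              rw [mem_nb, mem_erase, mem_insert, mem_erase, mem_nb]
              constructor
              · rintro ⟨⟨h2, h3⟩, h4⟩
                by_cases hxs : x = s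
                · exact Or.inl hxs
                · exact Or.inr ⟨h2, h3, (con_agree hvs hvt hxs h2).2 h4⟩
              · rintro (h2 | ⟨h2, h3, h4⟩)
                · rw [h2]
                  exact ⟨⟨hst.ne, hs⟩, ((con_s hst.ne hvs hvt).2 (Or.inr hvt1)).symm⟩
                · exact ⟨⟨h2, h3⟩, h4.ne, hvt, h2, Or.inl h4⟩
            rw [h1]
            have hno : ∀ x ∈ (nb G S v).erase t, x ≠ s ∧ x ≠ t ∧ x ∈ S ∧ G.Adj v x := by
              intro x hx
              obtain ⟨h2, h3⟩ := mem_erase.1 hx
              obtain ⟨h4, h6⟩ := mem_nb.1 h3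
              exact ⟨fun h8 => hvs1 (h8 ▸ h6.symm), h2, h4, h6⟩
            refine HS.relabel _ (nb G S v) s t (h.2 v hvS) (mem_nb.2 ⟨ht, hvt1.symm⟩)
              (fun h2 => hvs1 (mem_nb.1 h2).2.symm) (fun x hx y hy => ?_) fun x hx => ?_
            · exact con_agree (hno x hx).1 (hno x hx).2.1 (hno y hy).1 (hno y hy).2.1
            · obtain ⟨hxs, hxt, hxS, hvx⟩ := hno x hx
              rw [con_s hst.ne hxs hxt]
              constructor
              · rintro (hsx | htx)
                · by_contra htx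
                  exact hq x hxS v hvS hsx htx hxt hvt1 hvs1 hvs hvx.symm
                · exact htx
              · exact Or.inr
          · -- neither
            have h1 : nb (Pool.Agent.R781.VS.con G s t) (S.erase t) v = nb G S v := by
              ext x
              rw [mem_nb, mem_erase, mem_nb]
              constructor
              · rintro ⟨⟨h2, h3⟩, h4⟩
                refine ⟨h3, ?_⟩
                by_cases hxs : x = s
                · rw [hxs] at h4
                  have h6 := (con_s hst.ne hvs hvt).1 h4.symm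
                  exact absurd h6 (by tauto)
                · exact (con_agree hvs hvt hxs h2).2 h4
              · rintro ⟨h2, h3⟩
                have h4 : x ≠ t := fun h6 => hvt1 (h6 ▸ h3.symm)
                exact ⟨⟨h4, h2⟩, h3.ne, hvt, h4, Or.inl h3⟩
            rw [h1]
            refine HS.congr _ _ (fun x hx y hy => ?_) (h.2 v hvS)
            obtain ⟨hxS, hvx⟩ := mem_nb.1 hx
            obtain ⟨hyS, hvy⟩ := mem_nb.1 hy
            exact con_agree (fun h6 => hvs1 (h6 ▸ hvx.symm)) (fun h6 => hvt1 (h6 ▸ hvx.symm))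
              (fun h6 => hvs1 (h6 ▸ hvy.symm)) (fun h6 => hvt1 (h6 ▸ hvy.symm))

end Pool.Agent.W5h14.TV
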