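import Pool.Agent.W5h14.TV.HSBase

/-!
# Betti numbers of a union of two parts without edges between them
-/

set_option autoImplicit false

namespace Pool.Agent.W5h14.TV

open Finset Classical
open Pool.Agent.W907.SG Pool.Agent.W907.SM Pool.Agent.W5h83.FS
open Pool.Agent.TH652.Dual (triv duality mem_KK_triv exact_of_beta)

section abs
variable {M N : Type} [AddCommGroup M] [Module ℝ M] [FiniteDimensional ℝ M] [AddCommGroup N] [Module ℝ N]
  [FiniteDimensional ℝ N]

theorem fin_map (f : M →ₗ[ℝ] N) {B1 Z1 : Submodule ℝ M} (hB : B1 ≤ Z1) {B2 : Submodule ℝ N}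
    (h : B1.map f ≤ B2) :
    Module.finrank ℝ (Z1.map f) + Module.finrank ℝ B1 ≤ Module.finrank ℝ Z1 + Module.finrank ℝ B2 := by
  have e1 := LinearMap.finrank_range_add_finrank_ker (f.domRestrict Z1)
  have e2 := LinearMap.finrank_range_add_finrank_ker (f.domRestrict B1)
  rw [LinearMap.range_domRestrict] at e1 e2
  have e3 : Module.finrank ℝ (LinearMap.ker (f.domRestrict B1)) ≤ Module.finrank ℝ (LinearMap.ker (f.domRestrict Z1)) := by
    refine LinearMap.finrank_le_finrank_of_injective
      (f := ((Submodule.inclusion hB).comp (LinearMap.ker (f.domRestrict B1)).subtype).codRestrict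
        (LinearMap.ker (f.domRestrict Z1)) (fun x => x.2)) ?_
    intro x y hxy
    have h1 := congrArg (fun z : ↥(LinearMap.ker (f.domRestrict Z1)) => ((z : ↥Z1) : M)) hxy
    exact Subtype.ext (Subtype.ext h1)
  have e4 := Submodule.finrank_mono h
  omega

end abs

variable {V : Type} [Fintype V] [LinearOrder V] {G : SimpleGraph V}

/-- restriction to the nonempty sets contained in `X` -/
noncomputable def rX (X : Set V) : (Finset V → ℝ) →ₗ[ℝ] (Finset V → ℝ) where
  toFun z T := if (T : Set V) ⊆ X then z T else 0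
  map_add' z w := by
    funext T
    show (if (T : Set V) ⊆ X then z T + w T else 0) = (if (T : Set V) ⊆ X then z T else 0) +
      (if (T : Set V) ⊆ X then w T else 0)
    split_ifs
    · rfl
    · rw [add_zero]
  map_smul' a z := by
    funext T
    show (if (T : Set V) ⊆ X then a • z T else 0) = a • (if (T : Set V) ⊆ X then z T else 0)
    split_ifs
    · rfl
    · rw [smul_zero]

theorem rX_apply (X : Set V) (z : Finset V → ℝ) (T : Finset V) : rX X z T = if (T : Set V) ⊆ X then z T else 0 := rfl

/-- a clique of the union is contained in one part -/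
theorem clique_part {X Y : Set V} (hno : ∀ x ∈ X, ∀ y ∈ Y, ¬ G.Adj x y) {T : Finset V} (hT : G.IsClique (T : Set V))
    (hs : (T : Set V) ⊆ X ∪ Y) {x : V} (hx : x ∈ T) (hxX : x ∈ X) : (T : Set V) ⊆ X := by
  intro y hy
  rcases hs hy with h | h
  · exact h
  · by_cases hxy : x = y
    · rwa [← hxy]
    · exact absurd (hT (mem_coe.2 hx) hy hxy) (hno x hxX y h)

theorem rX_bd {X Y : Set V} (hno : ∀ x ∈ X, ∀ y ∈ Y, ¬ G.Adj x y) {i : ℕ} (hi : 1 ≤ i) {w : Finset V → ℝ}
    (hw : w ∈ KK G (triv V) (X ∪ Y) ∅ (i + 1)) : rX X (bd ℝ w) = bd ℝ (rX X w) := by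
  rw [mem_KK_triv] at hw
  funext T
  rw [rX_apply, bd_apply, bd_apply]
  by_cases hT : (T : Set V) ⊆ X
  · rw [if_pos hT]
    refine sum_congr rfl fun v _ => ?_
    rw [rX_apply]
    by_cases hv : ((insert v T : Finset V) : Set V) ⊆ X
    · rw [if_pos hv]
    · rw [if_neg hv, hw]
      rintro ⟨h1, h2, h3⟩
      by_cases hTe : T = ∅
      · subst hTe
        simp at h3
        omega
      · obtain ⟨x, hx⟩ := nonempty_iff_ne_empty.2 hTe
        exact hv (clique_part hno h1 h2 (mem_insert_of_mem hx) (hT (mem_coe.2 hx)))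
  · rw [if_neg hT]
    refine (sum_eq_zero fun v _ => ?_).symm
    rw [rX_apply, if_neg, smul_zero]
    intro h
    refine hT (Set.Subset.trans ?_ h)
    rw [coe_subset]
    exact subset_insert v T

theorem rX_mem {X Y : Set V} {i : ℕ} {w : Finset V → ℝ}
    (hw : w ∈ KK G (triv V) (X ∪ Y) ∅ i) : rX X w ∈ KK G (triv V) X ∅ i := by
  rw [mem_KK_triv] at hw ⊢
  intro T hT
  rw [rX_apply]
  split_ifs with h
  · exact hw T fun h1 => hT ⟨h1.1, h, h1.2.2⟩
  · rfl

theorem rX_fix {X : Set V} {i : ℕ} {w : Finset V → ℝ} (hw : w ∈ KK G (triv V) X ∅ i) : rX X w = w := by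
  rw [mem_KK_triv] at hw
  funext T
  rw [rX_apply]
  split_ifs with h
  · rfl
  · exact (hw T fun h1 => h h1.2.1).symm

theorem KK_sub {X Y : Set V} {i : ℕ} {w : Finset V → ℝ} (hw : w ∈ KK G (triv V) X ∅ i) :
    w ∈ KK G (triv V) (X ∪ Y) ∅ i := by
  rw [mem_KK_triv] at hw ⊢
  intro T hT
  exact hw T fun h1 => hT ⟨h1.1, h1.2.1.trans Set.subset_union_left, h1.2.2⟩

/-- two parts without edges between them -/
theorem bt_sep {X Y : Set V} (hX : X.Nonempty) (hY : Y.Nonempty) (hXY : Disjoint X Y)
    (hno : ∀ x ∈ X, ∀ y ∈ Y, ¬ G.Adj x y) (i : ℕ) : (if i = 1 then 1 else 0) + bt G X i ≤ bt G (X ∪ Y) i := by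
  rcases Nat.eq_zero_or_pos i with rfl | hi
  · rw [if_neg (by omega)]
    have h1 : bt G X 0 = 0 := beta_ne_zero hX
    omega
  have hB : (BB G (triv V) (X ∪ Y) ∅ i).map (rX X) ≤ BB G (triv V) X ∅ i := by
    rintro _ ⟨_, ⟨w, hw, rfl⟩, rfl⟩
    exact ⟨rX X w, rX_mem hw, (rX_bd hno hi hw).symm⟩
  have hZ : ZZ G (triv V) X ∅ i ≤ (ZZ G (triv V) (X ∪ Y) ∅ i).map (rX X) := by
    intro z hz
    exact ⟨z, ⟨KK_sub hz.1, hz.2⟩, rX_fix hz.1⟩
  have key := fin_map (rX X) (BB_le_ZZ G (triv V) (X ∪ Y) ∅ i) hB
  have hBX := Submodule.finrank_mono (BB_le_ZZ G (triv V) X ∅ i)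
  have hBU := Submodule.finrank_mono (BB_le_ZZ G (triv V) (X ∪ Y) ∅ i)
  unfold bt beta
  by_cases h1 : i = 1
  · subst h1
    obtain ⟨x, hx⟩ := hX
    obtain ⟨y, hy⟩ := hY
    have hxy : x ≠ y := fun h => Set.disjoint_left.1 hXY hx (h ▸ hy)
    have hlt : ZZ G (triv V) X ∅ 1 < (ZZ G (triv V) (X ∪ Y) ∅ 1).map (rX X) := by
      refine lt_of_le_of_ne hZ fun heq => ?_
      let z : Finset V → ℝ := fun T => if T = {x} then 1 else if T = {y} then -1 else 0
      have hz : z ∈ ZZ G (triv V) (X ∪ Y) ∅ 1 := by
        refine ⟨mem_KK_triv.2 fun T hT => ?_, LinearMap.mem_ker.2 ?_⟩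
        · show (if T = {x} then (1 : ℝ) else if T = {y} then -1 else 0) = 0
          rw [if_neg, if_neg]
          · rintro rfl
            exact hT ⟨by simp, by simpa using Or.inr hy, by simp⟩
          · rintro rfl
            exact hT ⟨by simp, by simpa using Or.inl hx, by simp⟩
        · funext T
          rw [bd_apply, Pi.zero_apply]
          by_cases hT : T = ∅
          · subst hT
            have h2 : ∀ v ∈ (∅ : Finset V)ᶜ, sg v ∅ • z (insert v ∅) = (if v = x then 1 else 0) + (if v = y then -1 else 0) := by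
              intro v _
              have h3 : sg v (∅ : Finset V) = 1 := by simp [sg]
              rw [h3, one_smul]
              show (if (insert v ∅ : Finset V) = {x} then (1 : ℝ) else if (insert v ∅ : Finset V) = {y} then -1 else 0) = _
              have h4 : ∀ u : V, ((insert v ∅ : Finset V) = {u}) ↔ v = u := by
                intro u
                rw [insert_empty_eq, singleton_inj]
              simp only [h4]
              by_cases h5 : v = x
              · rw [if_pos h5, if_pos h5, if_neg (fun h6 => hxy (h5.symm.trans h6)), add_zero]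
              · rw [if_neg h5, if_neg h5, zero_add]
            rw [sum_congr rfl h2, sum_add_distrib, compl_empty, sum_ite_eq' univ x, sum_ite_eq' univ y,
              if_pos (mem_univ _), if_pos (mem_univ _)]
            norm_num
          · refine sum_eq_zero fun v hv => ?_
            have h2 : ∀ u : V, (insert v T : Finset V) ≠ {u} := by
              intro u h3
              have h4 := congrArg Finset.card h3
              rw [card_insert_of_notMem (mem_compl.1 hv), card_singleton] at h4
              exact hT (card_eq_zero.1 (by omega))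
            show sg v T • (if (insert v T : Finset V) = {x} then (1 : ℝ) else if (insert v T : Finset V) = {y} then -1 else 0) = 0
            rw [if_neg (h2 x), if_neg (h2 y), smul_zero]
      have h2 : rX X z ∈ ZZ G (triv V) X ∅ 1 := by
        rw [heq]
        exact ⟨z, hz, rfl⟩
      have h3 : bd ℝ (rX X z) = 0 := h2.2
      have h4 := congrFun h3 ∅
      rw [bd_apply, Pi.zero_apply, sum_eq_single x] at h4
      · rw [rX_apply, if_pos (by simpa using hx)] at h4
        have h5 : z (insert x ∅) = 1 := if_pos (by simp)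
        rw [h5] at h4
        have h6 : sg x (∅ : Finset V) = 1 := by simp [sg]
        rw [h6] at h4
        norm_num at h4
      · intro v _ hvx
        rw [rX_apply]
        split_ifs with h5
        · have h6 : z (insert v ∅) = 0 := by
            show (if (insert v ∅ : Finset V) = {x} then (1 : ℝ) else if (insert v ∅ : Finset V) = {y} then -1 else 0) = 0
            have h7 : v ∈ X := h5 (by simp)
            rw [if_neg, if_neg]
            · rw [insert_empty_eq, singleton_inj]
              rintro rfl
              exact Set.disjoint_left.1 hXY h7 hy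
            · rw [insert_empty_eq, singleton_inj]
              exact hvx
          rw [h6, smul_zero]
        · rw [smul_zero]
      · intro h5
        exact absurd (mem_compl.2 (notMem_empty x)) h5
    have h2 := Submodule.finrank_lt_finrank_of_lt hlt
    rw [if_pos rfl]
    omega
  · rw [if_neg h1]
    have h2 := Submodule.finrank_mono hZ
    omega

end Pool.Agent.W5h14.TV
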