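import Pool.Agent.W5h14.TV.HSCon
import Pool.Agent.W5h14.TV.CDDef
import Pool.Agent.W5h14.TV.SepBt

/-!
# Cutting a flag homology sphere along a full subcomplex which is a homology sphere
-/

set_option autoImplicit false

namespace Pool.Agent.W5h14.TV

open Finset Classical
open Pool.Agent.W907.SG Pool.Agent.W907.SM Pool.Agent.W5h83.FS
open Pool.Agent.TH652.Above (HSph)
open Pool.Agent.TH652.Dual (triv duality mem_KK_triv exact_of_beta)

section
variable {V : Type} {G : SimpleGraph V}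

theorem coneAt_agree {E : Finset V} {p x y : V} (hx : x ≠ p) (hy : y ≠ p) :
    (coneAt G E p).Adj x y ↔ G.Adj x y := by
  constructor
  · rintro (⟨_, _, h⟩ | ⟨h, _⟩ | ⟨h, _⟩)
    · exact h
    · exact absurd h hx
    · exact absurd h hy
  · exact fun h => Or.inl ⟨hx, hy, h⟩

theorem coneAt_p {E : Finset V} {p y : V} (hy : y ≠ p) : (coneAt G E p).Adj p y ↔ y ∈ E := by
  constructor
  · rintro (⟨h, _⟩ | ⟨_, _, h⟩ | ⟨h, _⟩)
    · exact absurd rfl h
    · exact h
    · exact absurd h hy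
  · exact fun h => Or.inr (Or.inl ⟨rfl, hy, h⟩)

end

variable {V : Type} [Fintype V] [LinearOrder V] {G : SimpleGraph V}

/-- both parts of the complement are acyclic -/
theorem HS.part {n : ℕ} {A B : Finset V} (h : HS G (n + 1) (A ∪ B))
    (hno : ∀ x ∈ A, x ∉ B → ∀ y ∈ B, y ∉ A → ¬ G.Adj x y) (hE : HS G n (A ∩ B)) {a : V} (ha : a ∈ A) (ha' : a ∉ B)
    {b : V} (hb : b ∈ B) (hb' : b ∉ A) (i : ℕ) : bt G ((B \ A : Finset V) : Set V) i = 0 := by
  have hne : ((B \ A : Finset V) : Set V).Nonempty := ⟨b, by rw [mem_coe, mem_sdiff]; exact ⟨hb, hb'⟩⟩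
  have hne' : ((A \ B : Finset V) : Set V).Nonempty := ⟨a, by rw [mem_coe, mem_sdiff]; exact ⟨ha, ha'⟩⟩
  rcases Nat.eq_zero_or_pos i with rfl | hi
  · exact beta_ne_zero hne
  have h1 := bt_sep (G := G) hne hne' (by
    rw [Set.disjoint_left]
    intro x hx hx'
    rw [mem_coe, mem_sdiff] at hx hx'
    exact hx.2 hx'.1) (by
    intro x hx y hy hxy
    rw [mem_coe, mem_sdiff] at hx hy
    exact hno y hy.1 hy.2 x hx.1 hx.2 hxy.symm) i
  have hu : ((B \ A : Finset V) : Set V) ∪ ((A \ B : Finset V) : Set V) = (((A ∪ B) \ (A ∩ B) : Finset V) : Set V) := by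
    ext x
    simp only [coe_sdiff, coe_union, coe_inter, Set.mem_union, Set.mem_sdiff, Set.mem_inter_iff, mem_coe]
    tauto
  rw [hu] at h1
  by_cases hin : i ≤ n + 1
  · have h2 := h.alex (A := (A ∪ B) \ (A ∩ B)) sdiff_subset (i := i) (j := n + 1 - i) (by omega)
    have h3 : (A ∪ B) \ ((A ∪ B) \ (A ∩ B)) = A ∩ B :=
      Finset.sdiff_sdiff_eq_self (inter_subset_left.trans subset_union_left)
    rw [if_neg (by omega), h3, hE.bt_eq] at h2
    by_cases h4 : i = 1
    · rw [if_pos h4] at h1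
      rw [if_pos (by omega)] at h2
      omega
    · rw [if_neg h4] at h1
      rw [if_neg (by omega)] at h2
      omega
  · have h2 := h.big (A := (((A ∪ B) \ (A ∩ B) : Finset V) : Set V)) (by
      rw [coe_sdiff]; exact Set.sdiff_subset) (i := i) (by omega)
    omega

/-- both parts meet the links of the vertices of the intersection -/
theorem HS.meet {n : ℕ} {A B : Finset V} (h : HS G (n + 2) (A ∪ B))
    (hno : ∀ x ∈ A, x ∉ B → ∀ y ∈ B, y ∉ A → ¬ G.Adj x y) (hE : HS G (n + 1) (A ∩ B)) {a : V} (ha : a ∈ A)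
    (ha' : a ∉ B) {b : V} (hb : b ∈ B) (hb' : b ∉ A) {v : V} (hv : v ∈ A ∩ B) :
    ∃ x ∈ A, x ∉ B ∧ G.Adj v x := by
  by_contra hcon
  push Not at hcon
  have h1 : ∀ j, bt G (((A ∩ B) \ {v} : Finset V) : Set V) j = 0 := hE.compl (singleton_subset_iff.2 hv) (hE.two v)
    (bt_single v)
  have h2 := h.compl (A := (A ∩ B) \ {v}) (sdiff_subset.trans (inter_subset_left.trans subset_union_left))
    ⟨v, by rw [mem_sdiff, mem_sdiff]; exact ⟨mem_union_left _ (mem_inter.1 hv).1, fun h => h.2 (mem_singleton_self v)⟩⟩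
    h1 1
  have h3 := bt_sep (G := G) (X := ((A \ B : Finset V) : Set V)) (Y := ((insert v (B \ A) : Finset V) : Set V))
    ⟨a, by rw [mem_coe, mem_sdiff]; exact ⟨ha, ha'⟩⟩ ⟨v, by rw [mem_coe]; exact mem_insert_self _ _⟩ (by
      rw [Set.disjoint_left]
      intro x hx hx'
      rw [mem_coe, mem_sdiff] at hx
      rw [mem_coe, mem_insert, mem_sdiff] at hx'
      rcases hx' with rfl | hx'
      · exact hx.2 (mem_inter.1 hv).2
      · exact hx.2 hx'.1) (by
      intro x hx y hy hxy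
      rw [mem_coe, mem_sdiff] at hx
      rw [mem_coe, mem_insert, mem_sdiff] at hy
      rcases hy with rfl | hy
      · exact hcon x hx.1 hx.2 hxy.symm
      · exact hno x hx.1 hx.2 y hy.1 hy.2 hxy) 1
  have h4 : ((A \ B : Finset V) : Set V) ∪ ((insert v (B \ A) : Finset V) : Set V) =
      (((A ∪ B) \ ((A ∩ B) \ {v}) : Finset V) : Set V) := by
    ext x
    simp only [Set.mem_union, mem_coe, mem_sdiff, mem_insert, mem_union, mem_inter, mem_singleton]
    have hv1 := (mem_inter.1 hv).1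
    have hv2 := (mem_inter.1 hv).2
    constructor
    · rintro (h5 | rfl | h5)
      · exact ⟨Or.inl h5.1, fun h6 => h5.2 h6.1.2⟩
      · exact ⟨Or.inl hv1, fun h6 => h6.2 rfl⟩
      · exact ⟨Or.inr h5.1, fun h6 => h5.2 h6.1.1⟩
    · rintro ⟨h5, h6⟩
      by_cases h7 : x = v
      · exact Or.inr (Or.inl h7)
      · rcases h5 with h5 | h5
        · exact Or.inl ⟨h5, fun h8 => h6 ⟨⟨h5, h8⟩, h7⟩⟩
        · exact Or.inr (Or.inr ⟨h5, fun h8 => h6 ⟨⟨h8, h5⟩, h7⟩⟩)
  rw [h4, h2, if_pos rfl] at h3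
  omega

theorem HS.cone_step {n : ℕ} {A B : Finset V} {p : V} (h : HS G (n + 1) (A ∪ B))
    (hno : ∀ x ∈ A, x ∉ B → ∀ y ∈ B, y ∉ A → ¬ G.Adj x y) (hE : HS G n (A ∩ B)) (ha : ∃ a ∈ A, a ∉ B)
    (hb : ∃ b ∈ B, b ∉ A) (hp : p ∉ A)
    (hv : ∀ v ∈ A ∩ B, HS (coneAt G (A ∩ B) p) n (nb (coneAt G (A ∩ B) p) (insert p A) v)) :
    HS (coneAt G (A ∩ B) p) (n + 1) (insert p A) := by
  obtain ⟨a, ha, ha'⟩ := ha
  obtain ⟨b, hb, hb'⟩ := hb
  have hne : ∀ x ∈ A, x ≠ p := fun x hx hxp => hp (hxp ▸ hx)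
  have hag : ∀ x ∈ A, ∀ y ∈ A, ((coneAt G (A ∩ B) p).Adj x y ↔ G.Adj x y) := fun x hx y hy =>
    coneAt_agree (hne x hx) (hne y hy)
  refine ⟨fun i => ?_, fun v hvA => ?_⟩
  · have hA0 : ∀ j, bt G (A : Set V) j = 0 := by
      intro j
      have h1 := h.compl (A := B \ A) (sdiff_subset.trans subset_union_right)
        ⟨a, by rw [mem_sdiff, mem_sdiff]; exact ⟨mem_union_left _ ha, fun h => ha' h.1⟩⟩
        (h.part hno hE ha ha' hb hb') j
      have h2 : (A ∪ B) \ (B \ A) = A := by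
        ext x
        simp only [mem_sdiff, mem_union]
        tauto
      rwa [h2] at h1
    have h3 := bt_insert (G := coneAt G (A ∩ B) p) (D := (A : Set V)) (v := p) (by rwa [mem_coe]) (fun j => by
      rw [bt_graph (G := coneAt G (A ∩ B) p) (G' := G) (fun x hx y hy => hag x hx y hy)]
      exact hA0 j) (k := n) (fun j => by
      have h4 : (A : Set V) ∩ (coneAt G (A ∩ B) p).neighborSet p = ((A ∩ B : Finset V) : Set V) := by
        ext x
        rw [Set.mem_inter_iff, mem_coe, SimpleGraph.mem_neighborSet, mem_coe]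
        constructor
        · rintro ⟨h5, h6⟩
          exact (coneAt_p (hne x h5)).1 h6
        · intro h5
          have h6 := (mem_inter.1 h5).1
          exact ⟨h6, (coneAt_p (hne x h6)).2 h5⟩
      rw [h4, bt_graph (G := coneAt G (A ∩ B) p) (G' := G) (fun x hx y hy =>
        hag x (mem_inter.1 (mem_coe.1 hx)).1 y (mem_inter.1 (mem_coe.1 hy)).1)]
      exact hE.bt_eq j) i
    rw [coe_insert]
    exact h3
  · rw [mem_insert] at hvA
    by_cases hvE : v ∈ A ∩ B
    · exact hv v hvE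
    rcases hvA with rfl | hvA
    · have h4 : nb (coneAt G (A ∩ B) v) (insert v A) v = A ∩ B := by
        ext x
        rw [mem_nb, mem_insert]
        constructor
        · rintro ⟨h5, h6⟩
          exact (coneAt_p h6.ne.symm).1 h6
        · intro h5
          have h6 := (mem_inter.1 h5).1
          exact ⟨Or.inr h6, (coneAt_p (hne x h6)).2 h5⟩
      rw [h4]
      exact HS.congr n _ (fun x hx y hy => (hag x (mem_inter.1 hx).1 y (mem_inter.1 hy).1).symm) hE
    · have hvp := hne v hvA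
      have hvB : v ∉ B := fun h => hvE (mem_inter.2 ⟨hvA, h⟩)
      have h4 : nb (coneAt G (A ∩ B) p) (insert p A) v = nb G (A ∪ B) v := by
        ext x
        rw [mem_nb, mem_nb, mem_insert, mem_union]
        constructor
        · rintro ⟨rfl | h5, h6⟩
          · exact absurd ((coneAt_p hvp).1 h6.symm) hvE
          · exact ⟨Or.inl h5, (hag v hvA x h5).1 h6⟩
        · rintro ⟨h5, h6⟩
          have h7 : x ∈ A := by
            by_contra h8
            rcases h5 with h5 | h5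
            · exact h8 h5
            · exact hno v hvA hvB x h5 h8 h6
          exact ⟨Or.inr h7, (hag v hvA x h7).2 h6⟩
      have h5 : HS G n (nb G (A ∪ B) v) := h.2 v (mem_union_left _ hvA)
      rw [h4]
      refine HS.congr n _ (fun x hx y hy => (hag x ?_ y ?_).symm) h5
      · rw [← h4, mem_nb, mem_insert] at hx
        rcases hx with ⟨rfl | hx, h6⟩
        · exact absurd ((coneAt_p hvp).1 h6.symm) hvE
        · exact hx
      · rw [← h4, mem_nb, mem_insert] at hy
        rcases hy with ⟨rfl | hy, h6⟩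
        · exact absurd ((coneAt_p hvp).1 h6.symm) hvE
        · exact hy

/-- **Cutting along a homology sphere.** -/
theorem HS.cone : ∀ (n : ℕ) (A B : Finset V) (p : V), HS G (n + 1) (A ∪ B) →
    (∀ x ∈ A, x ∉ B → ∀ y ∈ B, y ∉ A → ¬ G.Adj x y) → HS G n (A ∩ B) → (∃ a ∈ A, a ∉ B) → (∃ b ∈ B, b ∉ A) →
    p ∉ A → HS (coneAt G (A ∩ B) p) (n + 1) (insert p A) := by
  intro n
  induction n with
  | zero =>
    intro A B p h hno hE ha hb hp
    refine h.cone_step hno hE ha hb hp fun v hv => ?_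
    have h1 : A ∩ B = ∅ := hE
    rw [h1] at hv
    exact absurd hv (notMem_empty v)
  | succ n ih =>
    intro A B p h hno hE ha hb hp
    refine h.cone_step hno hE ha hb hp fun v hv => ?_
    obtain ⟨a, ha, ha'⟩ := ha
    obtain ⟨b, hb, hb'⟩ := hb
    obtain ⟨hvA, hvB⟩ := mem_inter.1 hv
    have hvp : v ≠ p := fun h => hp (h ▸ hvA)
    obtain ⟨a1, ha1, ha2, ha3⟩ := h.meet hno hE ha ha' hb hb' hv
    have h' : HS G (n + 2) (B ∪ A) := by rw [union_comm]; exact h
    have hE' : HS G (n + 1) (B ∩ A) := by rw [inter_comm]; exact hE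
    obtain ⟨b1, hb1, hb2, hb3⟩ := h'.meet (fun x hx hx' y hy hy' hxy => hno y hy hy' x hx hx' hxy.symm) hE' hb hb'
      ha ha' (by rw [inter_comm]; exact hv)
    have e1 : nb G A v ∪ nb G B v = nb G (A ∪ B) v := by
      ext x
      simp only [mem_union, mem_nb]
      tauto
    have e2 : nb G A v ∩ nb G B v = nb G (A ∩ B) v := by
      ext x
      simp only [mem_inter, mem_nb]
      tauto
    have h1 := ih (nb G A v) (nb G B v) p (by rw [e1]; exact h.2 v (mem_union_left _ hvA))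
      (fun x hx hx' y hy hy' hxy => hno x (mem_nb.1 hx).1 (fun h => hx' (mem_nb.2 ⟨h, (mem_nb.1 hx).2⟩)) y
        (mem_nb.1 hy).1 (fun h => hy' (mem_nb.2 ⟨h, (mem_nb.1 hy).2⟩)) hxy)
      (by rw [e2]; exact hE.2 v hv) ⟨a1, mem_nb.2 ⟨ha1, ha3⟩, fun h => ha2 (mem_nb.1 h).1⟩
      ⟨b1, mem_nb.2 ⟨hb1, hb3⟩, fun h => hb2 (mem_nb.1 h).1⟩ (fun h => hp (mem_nb.1 h).1)
    have e3 : nb (coneAt G (A ∩ B) p) (insert p A) v = insert p (nb G A v) := by
      ext x
      rw [mem_nb, mem_insert, mem_insert, mem_nb]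
      constructor
      · rintro ⟨rfl | h5, h6⟩
        · exact Or.inl rfl
        · exact Or.inr ⟨h5, (coneAt_agree hvp (fun h => hp (h ▸ h5))).1 h6⟩
      · rintro (rfl | ⟨h5, h6⟩)
        · exact ⟨Or.inl rfl, ((coneAt_p hvp).2 hv).symm⟩
        · exact ⟨Or.inr h5, (coneAt_agree hvp (fun h => hp (h ▸ h5))).2 h6⟩
    rw [e3]
    refine HS.congr _ _ (fun x hx y hy => ?_) h1
    rw [e2]
    rw [mem_insert] at hx hy
    rcases hx with rfl | hx
    · rcases hy with rfl | hy
      · exact ⟨fun h => absurd rfl h.ne, fun h => absurd rfl h.ne⟩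
      · have hyp : y ≠ x := fun h => hp (h ▸ (mem_nb.1 hy).1)
        rw [coneAt_p hyp, coneAt_p hyp, mem_nb]
        exact ⟨fun h => h.1, fun h => ⟨h, (mem_nb.1 hy).2⟩⟩
    · have hxp : x ≠ p := fun h => hp (h ▸ (mem_nb.1 hx).1)
      rcases hy with rfl | hy
      · rw [(coneAt G (nb G (A ∩ B) v) y).adj_comm, (coneAt G (A ∩ B) y).adj_comm, coneAt_p hxp, coneAt_p hxp, mem_nb]
        exact ⟨fun h => h.1, fun h => ⟨h, (mem_nb.1 hx).2⟩⟩
      · have hyp : y ≠ p := fun h => hp (h ▸ (mem_nb.1 hy).1)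
        rw [coneAt_agree hxp hyp, coneAt_agree hxp hyp]

end Pool.Agent.W5h14.TV
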