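import Pool.Agent.W5h83.FS.Comb
import Pool.Agent.R781.VS.Contr

/-!
# Flag 2-spheres, combinatorially: definitions
-/

set_option autoImplicit false

namespace Pool.Agent.W5h14.TV

open Finset Classical
open Pool.Agent.W5h83.FS

variable {V : Type} (G : SimpleGraph V)

/-- `C` spans a cycle of length at least four. -/
def Cyc (C : Finset V) : Prop := 4 ≤ C.card ∧ Conn G C ∧ ∀ v ∈ C, (nb G C v).card = 2

/-- Connected, the links of the vertices are cycles of length at least four, and all induced cycles of length at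
least four separate. -/
def Jor (S : Finset V) : Prop :=
  S.Nonempty ∧ Conn G S ∧ (∀ v ∈ S, Cyc G (nb G S v)) ∧ ∀ C ⊆ S, Cyc G C → ¬ Conn G (S \ C)

/-- `st` is contained in no induced 4-cycle of `S` -/
def NoSqF (S : Finset V) (s t : V) : Prop :=
  ∀ x ∈ S, ∀ y ∈ S, G.Adj s x → ¬ G.Adj t x → x ≠ t → G.Adj t y → ¬ G.Adj s y → y ≠ s → ¬ G.Adj x y

end Pool.Agent.W5h14.TV
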