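import Pool.Agent.W5h14.TV.Jor

/-!
# Contraction of an edge in a combinatorial 2-sphere

`Jor G S` is preserved by contracting an edge which lies in no induced 4-cycle.
-/

set_option autoImplicit false

namespace Pool.Agent.W5h14.TV

open Finset Classical
open Pool.Agent.W5h83.FS
open Pool.Agent.R781.VS (con)

variable {V : Type} {G H : SimpleGraph V}

namespace JC

theorem con_adj {s t x y : V} : (con G s t).Adj x y ↔
    x ≠ y ∧ x ≠ t ∧ y ≠ t ∧ (G.Adj x y ∨ (x = s ∧ G.Adj t y) ∨ (y = s ∧ G.Adj t x)) := Iff.rfl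

/-! ## transfer -/

theorem conn_image {f : V → V} {C : Finset V}
    (h : ∀ x ∈ C, ∀ y ∈ C, G.Adj x y → H.Adj (f x) (f y)) (hC : Conn G C) :
    Conn H (C.image f) := by
  intro D hD hne hpr
  have h1 : (C.filter (fun x => f x ∈ D)).Nonempty := by
    obtain ⟨y, hy⟩ := hne
    obtain ⟨x, hx, rfl⟩ := mem_image.1 (hD hy)
    exact ⟨x, mem_filter.2 ⟨hx, hy⟩⟩
  have h2 : C.filter (fun x => f x ∈ D) ≠ C := by
    intro h3
    apply hpr
    apply Finset.Subset.antisymm hD
    intro y hy
    obtain ⟨x, hx, rfl⟩ := mem_image.1 hy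
    rw [← h3] at hx
    exact (mem_filter.1 hx).2
  obtain ⟨c, hc, d, hd, hdn, hcd⟩ := hC _ (filter_subset _ _) h1 h2
  rw [mem_filter] at hc
  refine ⟨f c, hc.2, f d, mem_image_of_mem f hd, ?_, h c hc.1 d hd hcd⟩
  intro h3
  exact hdn (mem_filter.2 ⟨hd, h3⟩)

theorem nb_image {f : V → V} {C : Finset V}
    (h : ∀ x ∈ C, ∀ y ∈ C, G.Adj x y ↔ H.Adj (f x) (f y)) {v : V} (hv : v ∈ C) :
    nb H (C.image f) (f v) = (nb G C v).image f := by
  ext y
  rw [mem_nb, mem_image, mem_image]
  constructor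
  · rintro ⟨⟨x, hx, rfl⟩, h1⟩
    exact ⟨x, mem_nb.2 ⟨hx, (h v hv x hx).2 h1⟩, rfl⟩
  · rintro ⟨x, hx, rfl⟩
    rw [mem_nb] at hx
    exact ⟨⟨x, hx.1, rfl⟩, (h v hv x hx.1).1 hx.2⟩

theorem cyc_image {f : V → V} {C : Finset V} (hf : ∀ x ∈ C, ∀ y ∈ C, f x = f y → x = y)
    (h : ∀ x ∈ C, ∀ y ∈ C, G.Adj x y ↔ H.Adj (f x) (f y)) (hC : Cyc G C) :
    Cyc H (C.image f) := by
  refine ⟨?_, conn_image (fun x hx y hy => (h x hx y hy).1) hC.2.1, ?_⟩
  · rw [card_image_of_injOn (fun x hx y hy => hf x hx y hy)]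
    exact hC.1
  · intro y hy
    obtain ⟨x, hx, rfl⟩ := mem_image.1 hy
    rw [nb_image h hx, card_image_of_injOn
      (fun a ha b hb => hf a (mem_nb.1 ha).1 b (mem_nb.1 hb).1)]
    exact hC.2.2 x hx

theorem conn_congr {C : Finset V} (h : ∀ x ∈ C, ∀ y ∈ C, G.Adj x y → H.Adj x y)
    (hC : Conn G C) : Conn H C := by
  intro D hD hne hpr
  obtain ⟨c, hc, d, hd, hdn, hcd⟩ := hC D hD hne hpr
  exact ⟨c, hc, d, hd, hdn, h c (hD hc) d hd hcd⟩

theorem cyc_congr {C : Finset V} (h : ∀ x ∈ C, ∀ y ∈ C, G.Adj x y ↔ H.Adj x y)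
    (hC : Cyc G C) : Cyc H C := by
  have := cyc_image (f := id) (fun x _ y _ h => h) h hC
  rwa [image_id] at this

/-! ## connectivity -/

/-- a connected set meeting a closed part lies in it -/
theorem conn_all {A D U : Finset V} (hA : Conn G A) (hAU : A ⊆ U)
    (hno : ∀ c ∈ D, ∀ d ∈ U, d ∉ D → ¬ G.Adj c d) {p : V} (hp : p ∈ A) (hpD : p ∈ D) :
    A ⊆ D := by
  by_contra h
  obtain ⟨c, hc, d, hd, hdn, hcd⟩ := hA (A ∩ D) inter_subset_left
    ⟨p, mem_inter.2 ⟨hp, hpD⟩⟩ (fun h1 => h (inter_eq_left.1 h1))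
  rw [mem_inter] at hc
  exact hno c hc.2 d (hAU hd) (fun h2 => hdn (mem_inter.2 ⟨hd, h2⟩)) hcd

theorem not_conn {T : Finset V} (h : ¬ Conn G T) :
    ∃ D ⊆ T, D.Nonempty ∧ D ≠ T ∧ ∀ c ∈ D, ∀ d ∈ T, d ∉ D → ¬ G.Adj c d := by
  unfold Conn at h
  push Not at h
  exact h

theorem conn_union {A B : Finset V} (hA : Conn G A) (hB : Conn G B) {p : V} (hpA : p ∈ A)
    (hpB : p ∈ B) : Conn G (A ∪ B) := by
  by_contra hcon
  obtain ⟨D, hD, ⟨y, hy⟩, hpr, hno⟩ := not_conn hcon
  have hp : p ∈ D := by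
    rcases mem_union.1 (hD hy) with h | h
    · exact conn_all hA subset_union_left hno h hy hpA
    · exact conn_all hB subset_union_right hno h hy hpB
  apply hpr
  exact Finset.Subset.antisymm hD (union_subset (conn_all hA subset_union_left hno hpA hp)
    (conn_all hB subset_union_right hno hpB hp))

theorem conn_con {s t : V} {T : Finset V} (hs : s ∈ T) (ht : t ∈ T) (hst : s ≠ t)
    (h : Conn G T) : Conn (con G s t) (T.erase t) := by
  intro D hD hne hpr
  have htD : t ∉ D := fun h1 => (mem_erase.1 (hD h1)).1 rfl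
  have hDT : D ⊆ T := hD.trans (erase_subset _ _)
  by_cases hsD : s ∈ D
  · have h1 : insert t D ≠ T := by
      intro h2
      apply hpr
      rw [← h2, erase_insert htD]
    obtain ⟨c, hc, d, hd, hdn, hcd⟩ := h (insert t D) (insert_subset ht hDT)
      (insert_nonempty _ _) h1
    rw [mem_insert, not_or] at hdn
    have hds : s ≠ d := by
      rintro rfl
      exact hdn.2 hsD
    rcases mem_insert.1 hc with rfl | hc
    · exact ⟨s, hsD, d, mem_erase.2 ⟨hdn.1, hd⟩, hdn.2,
        con_adj.2 ⟨hds, hst, hdn.1, Or.inr (Or.inl ⟨rfl, hcd⟩)⟩⟩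
    · exact ⟨c, hc, d, mem_erase.2 ⟨hdn.1, hd⟩, hdn.2,
        con_adj.2 ⟨hcd.ne, (mem_erase.1 (hD hc)).1, hdn.1, Or.inl hcd⟩⟩
  · have h1 : D ≠ T := by
      rintro rfl
      exact htD ht
    obtain ⟨c, hc, d, hd, hdn, hcd⟩ := h D hDT hne h1
    have hct : c ≠ t := (mem_erase.1 (hD hc)).1
    by_cases hdt : d = t
    · subst hdt
      refine ⟨c, hc, s, mem_erase.2 ⟨hst, hs⟩, hsD, con_adj.2 ⟨?_, hct, hst,
        Or.inr (Or.inr ⟨rfl, hcd.symm⟩)⟩⟩
      rintro rfl
      exact hsD hc
    · exact ⟨c, hc, d, mem_erase.2 ⟨hdt, hd⟩, hdn, con_adj.2 ⟨hcd.ne, hct, hdt, Or.inl hcd⟩⟩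

theorem conn_of_con {s t : V} {T : Finset V} (hs : s ∈ T) (ht : t ∈ T) (hst : G.Adj s t)
    (h : Conn (con G s t) (T.erase t)) : Conn G T := by
  by_contra hcon
  obtain ⟨D, hD, hne, hpr, hno⟩ := not_conn hcon
  have hst1 : s ∈ D → t ∈ D := by
    intro h1
    by_contra h2
    exact hno s h1 t ht h2 hst
  have hst2 : t ∈ D → s ∈ D := by
    intro h1
    by_contra h2
    exact hno t h1 s hs h2 hst.symm
  have h1 : (D.erase t).Nonempty := by
    by_cases h2 : s ∈ D
    · exact ⟨s, mem_erase.2 ⟨hst.ne, h2⟩⟩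
    · obtain ⟨y, hy⟩ := hne
      refine ⟨y, mem_erase.2 ⟨?_, hy⟩⟩
      rintro rfl
      exact h2 (hst2 hy)
  have h2 : D.erase t ≠ T.erase t := by
    intro h3
    apply hpr
    have h4 : s ∈ D := by
      have : s ∈ T.erase t := mem_erase.2 ⟨hst.ne, hs⟩
      rw [← h3] at this
      exact (mem_erase.1 this).2
    rw [← insert_erase (hst1 h4), h3, insert_erase ht]
  obtain ⟨c, hc, d, hd, hdn, hcd⟩ := h (D.erase t) (erase_subset_erase _ hD) h1 h2
  rw [mem_erase] at hc hd
  have hdD : d ∉ D := fun h3 => hdn (mem_erase.2 ⟨hd.1, h3⟩)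
  rcases (con_adj.1 hcd).2.2.2 with h3 | ⟨rfl, h3⟩ | ⟨rfl, h3⟩
  · exact hno c hc.2 d hd.2 hdD h3
  · exact hno t (hst1 hc.2) d hd.2 hdD h3
  · exact hno c hc.2 t ht (fun h4 => hdD (hst2 h4)) h3.symm

/-! ## cycles -/

theorem card_nb_insert {D : Finset V} {v : V} (hv : v ∉ D) (x : V) :
    (nb G (insert v D) x).card = (nb G D x).card + if G.Adj x v then 1 else 0 := by
  split_ifs with h
  · have h1 : nb G (insert v D) x = insert v (nb G D x) := by
      ext y
      rw [mem_nb, mem_insert, mem_insert, mem_nb]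
      constructor
      · rintro ⟨h1 | h1, h2⟩
        · exact Or.inl h1
        · exact Or.inr ⟨h1, h2⟩
      · rintro (rfl | ⟨h1, h2⟩)
        · exact ⟨Or.inl rfl, h⟩
        · exact ⟨Or.inr h1, h2⟩
    rw [h1, card_insert_of_notMem (fun h2 => hv (mem_nb.1 h2).1)]
  · have h1 : nb G (insert v D) x = nb G D x := by
      ext y
      rw [mem_nb, mem_insert, mem_nb]
      constructor
      · rintro ⟨rfl | h1, h2⟩
        · exact absurd h2 h
        · exact ⟨h1, h2⟩
      · rintro ⟨h1, h2⟩
        exact ⟨Or.inr h1, h2⟩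
    rw [h1, add_zero]

theorem sum_ite_adj (D : Finset V) (v : V) :
    (∑ x ∈ D, if G.Adj x v then 1 else 0) = (nb G D v).card := by
  rw [← card_filter]
  congr 1
  ext x
  rw [mem_filter, mem_nb, G.adj_comm]

theorem even_sum (D : Finset V) : Even (∑ x ∈ D, (nb G D x).card) := by
  induction D using Finset.induction_on with
  | empty => simp
  | insert v D hv ih =>
    rw [sum_insert hv, sum_congr rfl (fun x _ => card_nb_insert hv x), sum_add_distrib,
      sum_ite_adj, card_nb_insert hv v, if_neg G.irrefl, add_zero]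
    obtain ⟨k, hk⟩ := ih
    exact ⟨(nb G D v).card + k, by rw [hk]; ring⟩

/-- removing a vertex of a cycle leaves a connected set -/
theorem conn_erase {C : Finset V} (hC : Cyc G C) {v : V} (hv : v ∈ C) : Conn G (C.erase v) := by
  by_contra hcon
  obtain ⟨D, hD, hne, hpr, hno⟩ := not_conn hcon
  have hvD : v ∉ D := fun h => (mem_erase.1 (hD h)).1 rfl
  have hDC : D ⊆ C := hD.trans (erase_subset _ _)
  have h1 : ∃ c ∈ D, G.Adj c v := by
    obtain ⟨c, hc, d, hd, hdn, hcd⟩ := hC.2.1 D hDC hne (by rintro rfl; exact hvD hv)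
    by_cases h2 : d = v
    · exact ⟨c, hc, h2 ▸ hcd⟩
    · exact absurd hcd (hno c hc d (mem_erase.2 ⟨h2, hd⟩) hdn)
  have h2 : ∃ e ∈ C.erase v \ D, G.Adj e v := by
    have h3 : (C.erase v \ D).Nonempty := by
      rw [sdiff_nonempty]
      intro h4
      exact hpr (Finset.Subset.antisymm hD h4)
    have h4 : C.erase v \ D ≠ C := by
      intro h5
      rw [← h5] at hv
      exact (mem_erase.1 (mem_sdiff.1 hv).1).1 rfl
    obtain ⟨c, hc, d, hd, hdn, hcd⟩ := hC.2.1 (C.erase v \ D)
      (sdiff_subset.trans (erase_subset _ _)) h3 h4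
    by_cases h5 : d = v
    · exact ⟨c, hc, h5 ▸ hcd⟩
    · have h6 : d ∈ D := by
        by_contra h7
        exact hdn (mem_sdiff.2 ⟨mem_erase.2 ⟨h5, hd⟩, h7⟩)
      exact absurd hcd.symm (hno d h6 c (mem_sdiff.1 hc).1 (mem_sdiff.1 hc).2)
  obtain ⟨c, hc, hcv⟩ := h1
  obtain ⟨e, he, hev⟩ := h2
  have h3 : (nb G D v).card = 1 := by
    have h4 : 0 < (nb G D v).card := card_pos.2 ⟨c, mem_nb.2 ⟨hc, hcv.symm⟩⟩
    have h5 : nb G D v ⊂ nb G C v := by
      rw [ssubset_iff_of_subset]
      · refine ⟨e, mem_nb.2 ⟨(mem_erase.1 (mem_sdiff.1 he).1).2, hev.symm⟩, ?_⟩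
        intro h6
        exact (mem_sdiff.1 he).2 (mem_nb.1 h6).1
      · intro x hx
        exact mem_nb.2 ⟨hDC (mem_nb.1 hx).1, (mem_nb.1 hx).2⟩
    have h6 := card_lt_card h5
    rw [hC.2.2 v hv] at h6
    omega
  have h4 : ∀ x ∈ D, (nb G D x).card + (if G.Adj x v then 1 else 0) = 2 := by
    intro x hx
    rw [← card_nb_insert hvD, ← hC.2.2 x (hDC hx)]
    congr 1
    ext y
    rw [mem_nb, mem_nb, mem_insert]
    constructor
    · rintro ⟨rfl | h5, h6⟩
      · exact ⟨hv, h6⟩
      · exact ⟨hDC h5, h6⟩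
    · rintro ⟨h5, h6⟩
      refine ⟨?_, h6⟩
      by_cases h7 : y = v
      · exact Or.inl h7
      · right
        by_contra h8
        exact hno x hx y (mem_erase.2 ⟨h7, h5⟩) h8 h6
  have h5 := sum_congr rfl h4
  rw [sum_add_distrib, sum_ite_adj, h3, sum_const, smul_eq_mul] at h5
  obtain ⟨k, hk⟩ := even_sum (G := G) D
  omega

/-- a cycle contained in a cycle -/
theorem cyc_sub {B C : Finset V} (hB : Cyc G B) (hC : Cyc G C) (h : B ⊆ C) : B = C := by
  by_contra hne
  have h0 : B.Nonempty := by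
    rw [← card_pos]
    have := hB.1
    omega
  obtain ⟨c, hc, d, hd, hdn, hcd⟩ := hC.2.1 B h h0 hne
  have h1 : nb G B c ⊆ nb G C c := fun x hx => mem_nb.2 ⟨h (mem_nb.1 hx).1, (mem_nb.1 hx).2⟩
  have h2 : nb G B c = nb G C c := by
    apply eq_of_subset_of_card_le h1
    rw [hB.2.2 c hc, hC.2.2 c (h hc)]
  have h3 : d ∈ nb G C c := mem_nb.2 ⟨hd, hcd⟩
  rw [← h2] at h3
  exact hdn (mem_nb.1 h3).1

/-- the neighbours of a vertex of a cycle -/
theorem nb_pair {C : Finset V} (hC : Cyc G C) {v p q : V} (hv : v ∈ C) (hp : p ∈ C)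
    (hq : q ∈ C) (hpq : p ≠ q) (h1 : G.Adj v p) (h2 : G.Adj v q) : nb G C v = {p, q} := by
  symm
  apply eq_of_subset_of_card_le
  · intro x hx
    rw [mem_insert, mem_singleton] at hx
    rcases hx with rfl | rfl
    · exact mem_nb.2 ⟨hp, h1⟩
    · exact mem_nb.2 ⟨hq, h2⟩
  · rw [hC.2.2 v hv, card_pair hpq]

/-- a cycle contains no triangle -/
theorem no_tri {C : Finset V} (hC : Cyc G C) {a b c : V} (ha : a ∈ C) (hb : b ∈ C)
    (hc : c ∈ C) (hab : G.Adj a b) (hbc : G.Adj b c) (hca : G.Adj c a) : False := by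
  have h1 : ({a, b, c} : Finset V) = C := by
    by_contra hne
    obtain ⟨x, hx, d, hd, hdn, hcd⟩ := hC.2.1 {a, b, c} (by
      intro x hx
      rw [mem_insert, mem_insert, mem_singleton] at hx
      rcases hx with rfl | rfl | rfl <;> assumption) (insert_nonempty _ _) hne
    rw [mem_insert, mem_insert, mem_singleton] at hx
    rw [mem_insert, mem_insert, mem_singleton, not_or, not_or] at hdn
    have h2 : d ∈ nb G C x := mem_nb.2 ⟨hd, hcd⟩
    rcases hx with rfl | rfl | rfl
    · rw [nb_pair hC ha hb hc hbc.ne hab hca.symm, mem_insert, mem_singleton] at h2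
      rcases h2 with h2 | h2
      · exact hdn.2.1 h2
      · exact hdn.2.2 h2
    · rw [nb_pair hC hb ha hc hca.ne.symm hab.symm hbc, mem_insert, mem_singleton] at h2
      rcases h2 with h2 | h2
      · exact hdn.1 h2
      · exact hdn.2.2 h2
    · rw [nb_pair hC hc ha hb hab.ne hca hbc.symm, mem_insert, mem_singleton] at h2
      rcases h2 with h2 | h2
      · exact hdn.1 h2
      · exact hdn.2.1 h2
  have h2 := hC.1
  rw [← h1] at h2
  have h3 := card_le_three (a := a) (b := b) (c := c)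
  omega

/-- contraction of an edge of a cycle with at least five vertices -/
theorem cyc_con {T : Finset V} {s t : V} (hT : Cyc G T) (h5 : 5 ≤ T.card) (hs : s ∈ T)
    (ht : t ∈ T) (hst : G.Adj s t) : Cyc (con G s t) (T.erase t) := by
  refine ⟨?_, conn_con hs ht hst.ne hT.2.1, ?_⟩
  · rw [card_erase_of_mem ht]
    omega
  · intro y hy
    rw [mem_erase] at hy
    by_cases hys : y = s
    · subst hys
      have h1 : nb (con G y t) (T.erase t) y = (nb G T y).erase t ∪ (nb G T t).erase y := by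
        ext x
        rw [mem_nb, mem_union, mem_erase, mem_erase, mem_erase, mem_nb, mem_nb, con_adj]
        constructor
        · rintro ⟨⟨h1, h2⟩, h3, -, -, h4 | ⟨-, h4⟩ | ⟨h4, -⟩⟩
          · exact Or.inl ⟨h1, h2, h4⟩
          · exact Or.inr ⟨h3.symm, h2, h4⟩
          · exact absurd h4.symm h3
        · rintro (⟨h1, h2, h3⟩ | ⟨h1, h2, h3⟩)
          · exact ⟨⟨h1, h2⟩, h3.ne, hst.ne, h1, Or.inl h3⟩
          · exact ⟨⟨h3.ne.symm, h2⟩, h1.symm, hst.ne, h3.ne.symm, Or.inr (Or.inl ⟨rfl, h3⟩)⟩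
      rw [h1, card_union_of_disjoint, card_erase_of_mem (mem_nb.2 ⟨ht, hst⟩),
        card_erase_of_mem (mem_nb.2 ⟨hs, hst.symm⟩), hT.2.2 y hs, hT.2.2 t ht]
      rw [Finset.disjoint_left]
      intro x hx hx'
      rw [mem_erase, mem_nb] at hx hx'
      exact no_tri hT hs ht hx.2.1 hst hx'.2.2 hx.2.2.symm
    · by_cases hyt : G.Adj y t
      · have hyns : ¬ G.Adj y s := fun h => no_tri hT hs ht hy.2 hst hyt.symm h
        have h1 : nb (con G s t) (T.erase t) y = insert s ((nb G T y).erase t) := by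
          ext x
          rw [mem_nb, mem_insert, mem_erase, mem_erase, mem_nb, con_adj]
          constructor
          · rintro ⟨⟨h1, h2⟩, h3, -, -, h4 | ⟨h4, -⟩ | ⟨h4, -⟩⟩
            · exact Or.inr ⟨h1, h2, h4⟩
            · exact absurd h4 hys
            · exact Or.inl h4
          · rintro (rfl | ⟨h1, h2, h3⟩)
            · exact ⟨⟨hst.ne, hs⟩, hys, hy.1, hst.ne, Or.inr (Or.inr ⟨rfl, hyt.symm⟩)⟩
            · exact ⟨⟨h1, h2⟩, h3.ne, hy.1, h1, Or.inl h3⟩
        rw [h1, card_insert_of_notMem, card_erase_of_mem (mem_nb.2 ⟨ht, hyt⟩),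
          hT.2.2 y hy.2]
        rw [mem_erase, mem_nb]
        exact fun h => hyns h.2.2
      · have h1 : nb (con G s t) (T.erase t) y = nb G T y := by
          ext x
          rw [mem_nb, mem_erase, mem_nb, con_adj]
          constructor
          · rintro ⟨⟨h1, h2⟩, h3, -, -, h4 | ⟨h4, -⟩ | ⟨-, h4⟩⟩
            · exact ⟨h2, h4⟩
            · exact absurd h4 hys
            · exact absurd h4.symm hyt
          · rintro ⟨h1, h2⟩
            have h3 : x ≠ t := by
              rintro rfl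
              exact hyt h2
            exact ⟨⟨h3, h1⟩, h2.ne, hy.1, h3, Or.inl h2⟩
        rw [h1, hT.2.2 y hy.2]

/-- undoing a contraction in a cycle -/
theorem cyc_uncon {C : Finset V} {s t x z : V} (hC : Cyc (con G s t) C) (hs : s ∈ C)
    (ht : t ∉ C) (hst : G.Adj s t) (hx : x ∈ C) (hz : z ∈ C) (hxs : G.Adj s x)
    (hxt : ¬ G.Adj t x) (hzt : G.Adj t z) (hzs : ¬ G.Adj s z) (hzs' : z ≠ s) :
    Cyc G (insert t C) := by
  have hxz : x ≠ z := by
    rintro rfl
    exact hxt hzt
  have hne : ∀ y ∈ C, y ≠ t := by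
    rintro y hy rfl
    exact ht hy
  have hnb : nb (con G s t) C s = {x, z} := nb_pair hC hs hx hz hxz
    (con_adj.2 ⟨hxs.ne, hst.ne, hne x hx, Or.inl hxs⟩)
    (con_adj.2 ⟨hzs'.symm, hst.ne, hne z hz, Or.inr (Or.inl ⟨rfl, hzt⟩)⟩)
  have hadj : ∀ y ∈ C, y ≠ s → (G.Adj s y ∨ G.Adj t y) → y = x ∨ y = z := by
    intro y hy hys h
    have h1 : y ∈ nb (con G s t) C s := by
      refine mem_nb.2 ⟨hy, con_adj.2 ⟨hys.symm, hst.ne, hne y hy, ?_⟩⟩
      rcases h with h | h
      · exact Or.inl h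
      · exact Or.inr (Or.inl ⟨rfl, h⟩)
    rw [hnb, mem_insert, mem_singleton] at h1
    exact h1
  refine ⟨?_, ?_, ?_⟩
  · rw [card_insert_of_notMem ht]
    have := hC.1
    omega
  · apply conn_of_con (mem_insert_of_mem hs) (mem_insert_self _ _) hst
    rw [erase_insert ht]
    exact hC.2.1
  · intro y hy
    by_cases hyt : y = t
    · subst hyt
      have h1 : nb G (insert y C) y = {s, z} := by
        ext r
        rw [mem_nb, mem_insert, mem_insert, mem_singleton]
        constructor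
        · rintro ⟨rfl | h1, h2⟩
          · exact absurd h2 G.irrefl
          · by_cases h3 : r = s
            · exact Or.inl h3
            · rcases hadj r h1 h3 (Or.inr h2) with rfl | h4
              · exact absurd h2 hxt
              · exact Or.inr h4
        · rintro (rfl | rfl)
          · exact ⟨Or.inr hs, hst.symm⟩
          · exact ⟨Or.inr hz, hzt⟩
      rw [h1, card_pair hzs'.symm]
    · have hyC : y ∈ C := (mem_insert.1 hy).resolve_left hyt
      by_cases hys : y = s
      · subst hys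
        have h1 : nb G (insert t C) y = {t, x} := by
          ext r
          rw [mem_nb, mem_insert, mem_insert, mem_singleton]
          constructor
          · rintro ⟨h1 | h1, h2⟩
            · exact Or.inl h1
            · rcases hadj r h1 h2.ne.symm (Or.inl h2) with h4 | rfl
              · exact Or.inr h4
              · exact absurd h2 hzs
          · rintro (rfl | rfl)
            · exact ⟨Or.inl rfl, hst⟩
            · exact ⟨Or.inr hx, hxs⟩
        rw [h1, card_pair (hne x hx).symm]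
      · by_cases hyt' : G.Adj y t
        · have hyz : y = z := by
            rcases hadj y hyC hys (Or.inr hyt'.symm) with rfl | h
            · exact absurd hyt'.symm hxt
            · exact h
          subst hyz
          have h1 : nb G (insert t C) y = insert t ((nb (con G s t) C y).erase s) := by
            ext r
            rw [mem_nb, mem_insert, mem_insert, mem_erase, mem_nb, con_adj]
            constructor
            · rintro ⟨h1 | h1, h2⟩
              · exact Or.inl h1
              · refine Or.inr ⟨?_, h1, h2.ne, hyt, hne r h1, Or.inl h2⟩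
                rintro rfl
                exact hzs h2.symm
            · rintro (rfl | ⟨h1, h2, -, -, -, h3 | ⟨h3, -⟩ | ⟨h3, -⟩⟩)
              · exact ⟨Or.inl rfl, hyt'⟩
              · exact ⟨Or.inr h2, h3⟩
              · exact absurd h3 hys
              · exact absurd h3 h1
          rw [h1, card_insert_of_notMem, card_erase_of_mem, hC.2.2 y hyC]
          · exact mem_nb.2 ⟨hs, con_adj.2 ⟨hys, hyt, hst.ne, Or.inr (Or.inr ⟨rfl, hzt⟩)⟩⟩
          · rw [mem_erase, mem_nb]
            exact fun h => ht h.2.1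
        · have h1 : nb G (insert t C) y = nb (con G s t) C y := by
            ext r
            rw [mem_nb, mem_insert, mem_nb, con_adj]
            constructor
            · rintro ⟨rfl | h1, h2⟩
              · exact absurd h2 hyt'
              · exact ⟨h1, h2.ne, hyt, hne r h1, Or.inl h2⟩
            · rintro ⟨h1, -, -, -, h3 | ⟨h3, -⟩ | ⟨-, h3⟩⟩
              · exact ⟨Or.inr h1, h3⟩
              · exact absurd h3 hys
              · exact absurd h3.symm hyt'
          rw [h1, hC.2.2 y hyC]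

/-! ## links -/

section link

variable {S : Finset V} {s t : V}

theorem mem_nbc {v x : V} : x ∈ nb (con G s t) (S.erase t) v ↔
    (x ≠ t ∧ x ∈ S) ∧ v ≠ x ∧ v ≠ t ∧ x ≠ t ∧
      (G.Adj v x ∨ (v = s ∧ G.Adj t x) ∨ (x = s ∧ G.Adj t v)) := by
  rw [mem_nb, mem_erase, con_adj]

/-- the link of a vertex which is not adjacent to `t` -/
theorem link_a (h : Jor G S) (hq : NoSqF G S s t) {v : V} (hv : v ∈ S)
    (hvs : v ≠ s) (hvt : v ≠ t) (hnt : ¬ G.Adj v t) :
    Cyc (con G s t) (nb (con G s t) (S.erase t) v) := by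
  have h1 : nb (con G s t) (S.erase t) v = nb G S v := by
    ext x
    rw [mem_nbc, mem_nb]
    constructor
    · rintro ⟨⟨h1, h2⟩, h3, -, -, h4 | ⟨h4, -⟩ | ⟨-, h4⟩⟩
      · exact ⟨h2, h4⟩
      · exact absurd h4 hvs
      · exact absurd h4.symm hnt
    · rintro ⟨h1, h2⟩
      have h3 : x ≠ t := by
        rintro rfl
        exact hnt h2
      exact ⟨⟨h3, h1⟩, h2.ne, hvt, h3, Or.inl h2⟩
  rw [h1]
  have key : ∀ y ∈ nb G S v, G.Adj v s → y ≠ s → G.Adj t y → G.Adj s y := by
    intro y hy hsv hys hty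
    by_contra hsy
    rw [mem_nb] at hy
    exact hq v hv y hy.1 hsv.symm (fun h => hnt h.symm) hvt hty hsy hys hy.2
  refine cyc_congr ?_ (h.2.2.1 v hv)
  intro x hx y hy
  have hxt : x ≠ t := by
    rintro rfl
    exact hnt (mem_nb.1 hx).2
  have hyt : y ≠ t := by
    rintro rfl
    exact hnt (mem_nb.1 hy).2
  constructor
  · intro h2
    exact con_adj.2 ⟨h2.ne, hxt, hyt, Or.inl h2⟩
  · intro h2
    rw [con_adj] at h2
    obtain ⟨h3, -, -, h4 | ⟨h4, h5⟩ | ⟨h4, h5⟩⟩ := h2
    · exact h4
    · subst h4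
      exact key y hy (mem_nb.1 hx).2 h3.symm h5
    · subst h4
      exact (key x hx (mem_nb.1 hy).2 h3 h5).symm

/-- the link of a vertex which is adjacent to `t` and not to `s` -/
theorem link_b (h : Jor G S) (hst : s ≠ t) (hs : s ∈ S) (ht : t ∈ S) (hq : NoSqF G S s t)
    {v : V} (hv : v ∈ S) (hvs : v ≠ s) (hvt : v ≠ t) (hnt : G.Adj v t) (hns : ¬ G.Adj v s) :
    Cyc (con G s t) (nb (con G s t) (S.erase t) v) := by
  have hsL : ∀ x ∈ nb G S v, x ≠ s := by
    rintro x hx rfl
    exact hns (mem_nb.1 hx).2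
  have h1 : nb (con G s t) (S.erase t) v
      = (nb G S v).image (fun x => if x = t then s else x) := by
    ext x
    rw [mem_nbc, mem_image]
    constructor
    · rintro ⟨⟨h1, h2⟩, h3, -, -, h4 | ⟨h4, -⟩ | ⟨h4, h5⟩⟩
      · exact ⟨x, mem_nb.2 ⟨h2, h4⟩, if_neg h1⟩
      · exact absurd h4 hvs
      · exact ⟨t, mem_nb.2 ⟨ht, hnt⟩, by rw [if_pos rfl, h4]⟩
    · rintro ⟨y, hy, hyx⟩
      rw [mem_nb] at hy
      by_cases hyt : y = t
      · rw [if_pos hyt] at hyx
        subst hyx
        exact ⟨⟨hst, hs⟩, hvs, hvt, hst, Or.inr (Or.inr ⟨rfl, hnt.symm⟩)⟩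
      · rw [if_neg hyt] at hyx
        subst hyx
        exact ⟨⟨hyt, hy.1⟩, hy.2.ne, hvt, hyt, Or.inl hy.2⟩
  rw [h1]
  have key : ∀ y ∈ nb G S v, y ≠ t → G.Adj s y → G.Adj t y := by
    intro y hy hyt hsy
    by_contra hty
    rw [mem_nb] at hy
    exact hq y hy.1 v hv hsy hty hyt hnt.symm (fun h => hns h.symm) hvs hy.2.symm
  refine cyc_image ?_ ?_ (h.2.2.1 v hv)
  · intro x hx y hy hxy
    by_cases hxt : x = t
    · by_cases hyt : y = t
      · rw [hxt, hyt]
      · rw [if_pos hxt, if_neg hyt] at hxy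
        exact absurd hxy.symm (hsL y hy)
    · by_cases hyt : y = t
      · rw [if_neg hxt, if_pos hyt] at hxy
        exact absurd hxy (hsL x hx)
      · rwa [if_neg hxt, if_neg hyt] at hxy
  · intro x hx y hy
    by_cases hxt : x = t
    · by_cases hyt : y = t
      · rw [if_pos hxt, if_pos hyt, hxt, hyt]
        exact ⟨fun h => absurd h G.irrefl, fun h => absurd h (con G s t).irrefl⟩
      · rw [if_pos hxt, if_neg hyt, con_adj, hxt]
        constructor
        · intro h2
          exact ⟨(hsL y hy).symm, hst, hyt, Or.inr (Or.inl ⟨rfl, h2⟩)⟩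
        · rintro ⟨-, -, -, h3 | ⟨-, h3⟩ | ⟨h3, -⟩⟩
          · exact key y hy hyt h3
          · exact h3
          · exact absurd h3 (hsL y hy)
    · by_cases hyt : y = t
      · rw [if_neg hxt, if_pos hyt, con_adj, hyt]
        constructor
        · intro h2
          exact ⟨hsL x hx, hxt, hst, Or.inr (Or.inr ⟨rfl, h2.symm⟩)⟩
        · rintro ⟨-, -, -, h3 | ⟨h3, -⟩ | ⟨-, h3⟩⟩
          · exact (key x hx hxt h3.symm).symm
          · exact absurd h3 (hsL x hx)
          · exact h3.symm
      · rw [if_neg hxt, if_neg hyt, con_adj]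
        constructor
        · intro h2
          exact ⟨h2.ne, hxt, hyt, Or.inl h2⟩
        · rintro ⟨-, -, -, h3 | ⟨h3, -⟩ | ⟨h3, -⟩⟩
          · exact h3
          · exact absurd h3 (hsL x hx)
          · exact absurd h3 (hsL y hy)

/-- the link of a vertex which is adjacent to `s` and to `t` -/
theorem link_c (h : Jor G S) (hs : s ∈ S) (ht : t ∈ S) (hst : G.Adj s t)
    (hq : NoSqF G S s t) {v : V} (hv : v ∈ S) (hvs : G.Adj v s) (hvt : G.Adj v t) :
    Cyc (con G s t) (nb (con G s t) (S.erase t) v) := by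
  have h1 : nb (con G s t) (S.erase t) v = (nb G S v).erase t := by
    ext x
    rw [mem_nbc, mem_erase, mem_nb]
    constructor
    · rintro ⟨⟨h1, h2⟩, h3, -, -, h4 | ⟨h4, -⟩ | ⟨h4, -⟩⟩
      · exact ⟨h1, h2, h4⟩
      · exact absurd h4 hvs.ne
      · exact ⟨h1, h2, h4 ▸ hvs⟩
    · rintro ⟨h1, h2, h3⟩
      exact ⟨⟨h1, h2⟩, h3.ne, hvt.ne, h1, Or.inl h3⟩
  rw [h1]
  have hL := h.2.2.1 v hv
  have hsL : s ∈ nb G S v := mem_nb.2 ⟨hs, hvs⟩
  have htL : t ∈ nb G S v := mem_nb.2 ⟨ht, hvt⟩
  refine cyc_con hL ?_ hsL htL hst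
  by_contra h5
  have h4 : (nb G S v).card = 4 := by
    have := hL.1
    omega
  -- the other neighbour of `s`
  have ha : ((nb G (nb G S v) s).erase t).card = 1 := by
    rw [card_erase_of_mem (mem_nb.2 ⟨htL, hst⟩), hL.2.2 s hsL]
  obtain ⟨a, ha⟩ := card_eq_one.1 ha
  have haa : a ∈ (nb G (nb G S v) s).erase t := by
    rw [ha]
    exact mem_singleton_self a
  rw [mem_erase, mem_nb] at haa
  have hb : ((nb G (nb G S v) t).erase s).card = 1 := by
    rw [card_erase_of_mem (mem_nb.2 ⟨hsL, hst.symm⟩), hL.2.2 t htL]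
  obtain ⟨b, hb⟩ := card_eq_one.1 hb
  have hbb : b ∈ (nb G (nb G S v) t).erase s := by
    rw [hb]
    exact mem_singleton_self b
  rw [mem_erase, mem_nb] at hbb
  have hta : ¬ G.Adj t a := fun h6 => no_tri hL hsL htL haa.2.1 hst h6 haa.2.2.symm
  have hsb : ¬ G.Adj s b := fun h6 => no_tri hL hsL htL hbb.2.1 hst hbb.2.2 h6.symm
  have hab : a ≠ b := by
    rintro rfl
    exact hta hbb.2.2
  have hnab : ¬ G.Adj a b :=
    hq a (mem_nb.1 haa.2.1).1 b (mem_nb.1 hbb.2.1).1 haa.2.2 hta haa.1 hbb.2.2 hsb hbb.1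
  have hall : ({s, t, a, b} : Finset V) = nb G S v := by
    apply eq_of_subset_of_card_le
    · intro x hx
      rw [mem_insert, mem_insert, mem_insert, mem_singleton] at hx
      rcases hx with rfl | rfl | rfl | rfl
      · exact hsL
      · exact htL
      · exact haa.2.1
      · exact hbb.2.1
    · rw [h4, card_insert_of_notMem, card_insert_of_notMem, card_pair hab]
      · rw [mem_insert, mem_singleton, not_or]
        exact ⟨haa.1.symm, hbb.2.2.ne⟩
      · rw [mem_insert, mem_insert, mem_singleton, not_or, not_or]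
        exact ⟨hst.ne, haa.2.2.ne, hbb.1.symm⟩
  have h6 : nb G (nb G S v) a ⊆ {s} := by
    intro x hx
    rw [mem_nb] at hx
    have h7 := hx.1
    rw [← hall, mem_insert, mem_insert, mem_insert, mem_singleton] at h7
    rw [mem_singleton]
    rcases h7 with rfl | rfl | rfl | rfl
    · rfl
    · exact absurd hx.2.symm hta
    · exact absurd hx.2 G.irrefl
    · exact absurd hx.2 hnab
  have h7 := card_le_card h6
  rw [hL.2.2 a haa.2.1, card_singleton] at h7
  omega

theorem link_s_aux {A B : Finset V} (hA : ∀ x, x ∈ A ↔ x ∈ S ∧ G.Adj s x)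
    (hB : ∀ x, x ∈ B ↔ x ∈ S ∧ G.Adj t x) (hcA : Cyc G A) (hcB : Cyc G B) (hs : s ∈ S)
    (ht : t ∈ S) (hst : G.Adj s t) (hq : NoSqF G S s t) :
    Cyc (con G s t) (A.erase t ∪ B.erase s) := by
  have htA : t ∈ A := (hA t).2 ⟨ht, hst⟩
  have hsB : s ∈ B := (hB s).2 ⟨hs, hst.symm⟩
  have hsA : s ∉ A := fun h2 => G.irrefl ((hA s).1 h2).2
  have htB : t ∉ B := fun h2 => G.irrefl ((hB t).1 h2).2
  have hne : ∀ x ∈ A.erase t ∪ B.erase s, x ≠ s ∧ x ≠ t := by
    intro x hx
    rcases mem_union.1 hx with hx | hx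
    · exact ⟨fun h2 => hsA (h2 ▸ (mem_erase.1 hx).2), (mem_erase.1 hx).1⟩
    · exact ⟨(mem_erase.1 hx).1, fun h2 => htB (h2 ▸ (mem_erase.1 hx).2)⟩
  have hint : A.erase t ∩ B.erase s ⊆ nb G A t := by
    intro x hx
    rw [mem_inter, mem_erase, mem_erase, hB] at hx
    exact mem_nb.2 ⟨hx.1.2, hx.2.2.2⟩
  refine cyc_congr (G := G) ?_ ⟨?_, ?_, ?_⟩
  · intro x hx y hy
    constructor
    · intro h2
      exact con_adj.2 ⟨h2.ne, (hne x hx).2, (hne y hy).2, Or.inl h2⟩
    · intro h2
      rw [con_adj] at h2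
      obtain ⟨-, -, -, h4 | ⟨h4, -⟩ | ⟨h4, -⟩⟩ := h2
      · exact h4
      · exact absurd h4 (hne x hx).1
      · exact absurd h4 (hne y hy).1
  · have h2 := card_union_add_card_inter (A.erase t) (B.erase s)
    have h3 := card_le_card hint
    rw [hcA.2.2 t htA] at h3
    rw [card_erase_of_mem htA, card_erase_of_mem hsB] at h2
    have h4 := hcA.1
    have h5 := hcB.1
    omega
  · obtain ⟨p, hp⟩ : (nb G A t).Nonempty := by
      rw [← card_pos, hcA.2.2 t htA]
      omega
    rw [mem_nb] at hp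
    refine conn_union (conn_erase hcA htA) (conn_erase hcB hsB) (p := p)
      (mem_erase.2 ⟨hp.2.ne.symm, hp.1⟩) (mem_erase.2 ⟨?_, ?_⟩)
    · rintro rfl
      exact hsA hp.1
    · exact (hB p).2 ⟨((hA p).1 hp.1).1, hp.2⟩
  · intro x hx
    have hxs := (hne x hx).1
    have hxt := (hne x hx).2
    by_cases hxA : x ∈ A
    · by_cases hxB : x ∈ B
      · have h2 : nb G (A.erase t ∪ B.erase s) x = (nb G A x).erase t ∪ (nb G B x).erase s := by
          ext y
          rw [mem_nb, mem_union, mem_union, mem_erase, mem_erase, mem_erase, mem_erase,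
            mem_nb, mem_nb]
          constructor
          · rintro ⟨⟨h3, h4⟩ | ⟨h3, h4⟩, h5⟩
            · exact Or.inl ⟨h3, h4, h5⟩
            · exact Or.inr ⟨h3, h4, h5⟩
          · rintro (⟨h3, h4, h5⟩ | ⟨h3, h4, h5⟩)
            · exact ⟨Or.inl ⟨h3, h4⟩, h5⟩
            · exact ⟨Or.inr ⟨h3, h4⟩, h5⟩
        have hxt' : G.Adj x t := ((hB x).1 hxB).2.symm
        have hxs' : G.Adj x s := ((hA x).1 hxA).2.symm
        rw [h2, card_union_of_disjoint, card_erase_of_mem (mem_nb.2 ⟨htA, hxt'⟩),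
          card_erase_of_mem (mem_nb.2 ⟨hsB, hxs'⟩), hcA.2.2 x hxA, hcB.2.2 x hxB]
        rw [Finset.disjoint_left]
        intro y hy hy'
        rw [mem_erase, mem_nb] at hy hy'
        exact no_tri hcA htA hxA hy.2.1 hxt'.symm hy.2.2 ((hB y).1 hy'.2.1).2.symm
      · have h2 : nb G (A.erase t ∪ B.erase s) x = nb G A x := by
          ext y
          rw [mem_nb, mem_union, mem_erase, mem_erase, mem_nb]
          constructor
          · rintro ⟨⟨-, h3⟩ | ⟨h3, h4⟩, h5⟩
            · exact ⟨h3, h5⟩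
            · refine ⟨?_, h5⟩
              by_contra h6
              rw [hB] at h4
              rw [hA] at h6
              have hxA' := (hA x).1 hxA
              refine hq x hxA'.1 y h4.1 hxA'.2 ?_ hxt h4.2 (fun h7 => h6 ⟨h4.1, h7⟩) h3 h5
              exact fun h7 => hxB ((hB x).2 ⟨hxA'.1, h7⟩)
          · rintro ⟨h3, h4⟩
            refine ⟨Or.inl ⟨?_, h3⟩, h4⟩
            rintro rfl
            exact hxB ((hB x).2 ⟨((hA x).1 hxA).1, h4.symm⟩)
        rw [h2, hcA.2.2 x hxA]
    · have hxB : x ∈ B := by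
        rcases mem_union.1 hx with h2 | h2
        · exact absurd (mem_erase.1 h2).2 hxA
        · exact (mem_erase.1 h2).2
      have h2 : nb G (A.erase t ∪ B.erase s) x = nb G B x := by
        ext y
        rw [mem_nb, mem_union, mem_erase, mem_erase, mem_nb]
        constructor
        · rintro ⟨⟨h3, h4⟩ | ⟨-, h3⟩, h5⟩
          · refine ⟨?_, h5⟩
            by_contra h6
            rw [hA] at h4
            rw [hB] at h6
            have hxB' := (hB x).1 hxB
            refine hq y h4.1 x hxB'.1 h4.2 (fun h7 => h6 ⟨h4.1, h7⟩) h3 hxB'.2 ?_ hxs h5.symm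
            exact fun h7 => hxA ((hA x).2 ⟨hxB'.1, h7⟩)
          · exact ⟨h3, h5⟩
        · rintro ⟨h3, h4⟩
          refine ⟨Or.inr ⟨?_, h3⟩, h4⟩
          rintro rfl
          exact hxA ((hA x).2 ⟨((hB x).1 hxB).1, h4.symm⟩)
      rw [h2, hcB.2.2 x hxB]

/-- the link of `s` -/
theorem link_s (h : Jor G S) (hs : s ∈ S) (ht : t ∈ S) (hst : G.Adj s t)
    (hq : NoSqF G S s t) : Cyc (con G s t) (nb (con G s t) (S.erase t) s) := by
  have h1 : nb (con G s t) (S.erase t) s = (nb G S s).erase t ∪ (nb G S t).erase s := by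
    ext x
    rw [mem_nbc, mem_union, mem_erase, mem_erase, mem_nb, mem_nb]
    constructor
    · rintro ⟨⟨h1, h2⟩, h3, -, -, h4 | ⟨-, h4⟩ | ⟨h4, -⟩⟩
      · exact Or.inl ⟨h1, h2, h4⟩
      · exact Or.inr ⟨h3.symm, h2, h4⟩
      · exact absurd h4.symm h3
    · rintro (⟨h1, h2, h3⟩ | ⟨h1, h2, h3⟩)
      · exact ⟨⟨h1, h2⟩, h3.ne, hst.ne, h1, Or.inl h3⟩
      · exact ⟨⟨h3.ne.symm, h2⟩, h1.symm, hst.ne, h3.ne.symm, Or.inr (Or.inl ⟨rfl, h3⟩)⟩
  rw [h1]
  exact link_s_aux (fun x => mem_nb) (fun x => mem_nb) (h.2.2.1 s hs) (h.2.2.1 t ht) hs ht hst hq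

end link

/-! ## separation -/

/-- if a cycle separates, but the rest without `t` is connected, then it is the link of `t` -/
theorem sep_aux {S C : Finset V} {t : V} (h : Jor G S) (ht : t ∈ S) (htC : t ∉ C)
    (hC : C ⊆ S) (hcyc : Cyc G C) (hconn : Conn G ((S \ C).erase t)) : nb G S t = C := by
  obtain ⟨D, hD, ⟨y, hy⟩, hpr, hno⟩ := not_conn (h.2.2.2 C hC hcyc)
  refine cyc_sub (h.2.2.1 t ht) hcyc ?_
  have htT : t ∈ S \ C := mem_sdiff.2 ⟨ht, htC⟩
  have hall : ∀ p ∈ (S \ C).erase t, p ∈ D → (S \ C).erase t ⊆ D := fun p hp hpD =>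
    conn_all hconn (erase_subset _ _) hno hp hpD
  intro r hr
  rw [mem_nb] at hr
  by_contra hrC
  have hrT : r ∈ (S \ C).erase t := mem_erase.2 ⟨hr.2.ne.symm, mem_sdiff.2 ⟨hr.1, hrC⟩⟩
  by_cases htD : t ∈ D
  · have hrD : r ∈ D := by
      by_contra h1
      exact hno t htD r (erase_subset _ _ hrT) h1 hr.2
    have h1 := hall r hrT hrD
    apply hpr
    refine Finset.Subset.antisymm hD ?_
    intro x hx
    by_cases hxt : x = t
    · rw [hxt]
      exact htD
    · exact h1 (mem_erase.2 ⟨hxt, hx⟩)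
  · have hyt : y ≠ t := by
      rintro rfl
      exact htD hy
    have h1 := hall y (mem_erase.2 ⟨hyt, hD hy⟩) hy
    exact hno r (h1 hrT) t htT htD hr.2.symm

theorem sep {S C : Finset V} {s t : V} (h : Jor G S) (hs : s ∈ S) (ht : t ∈ S)
    (hst : G.Adj s t) (hCS : C ⊆ S.erase t) (hC : Cyc (con G s t) C) :
    ¬ Conn (con G s t) (S.erase t \ C) := by
  intro hconn
  have htC : t ∉ C := fun h1 => (mem_erase.1 (hCS h1)).1 rfl
  have hne : ∀ y ∈ C, y ≠ t := by
    rintro y hy rfl
    exact htC hy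
  have hCS' : C ⊆ S := hCS.trans (erase_subset _ _)
  have heq : S.erase t \ C = (S \ C).erase t := by
    ext x
    rw [mem_sdiff, mem_erase, mem_erase, mem_sdiff]
    constructor
    · rintro ⟨⟨h1, h2⟩, h3⟩
      exact ⟨h1, h2, h3⟩
    · rintro ⟨h1, h2, h3⟩
      exact ⟨⟨h1, h2⟩, h3⟩
  by_cases hsC : s ∈ C
  · -- `G` and its contraction agree outside `s`
    have hG : Conn G (S.erase t \ C) := by
      refine conn_congr ?_ hconn
      intro x hx y hy hxy
      rw [con_adj] at hxy
      obtain ⟨-, -, -, h4 | ⟨h4, -⟩ | ⟨h4, -⟩⟩ := hxy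
      · exact h4
      · exact absurd (h4 ▸ hsC) (mem_sdiff.1 hx).2
      · exact absurd (h4 ▸ hsC) (mem_sdiff.1 hy).2
    obtain ⟨x, z, hxz, hnb⟩ := card_eq_two.1 (hC.2.2 s hsC)
    have hx : x ∈ nb (con G s t) C s := by
      rw [hnb]
      exact mem_insert_self _ _
    have hz : z ∈ nb (con G s t) C s := by
      rw [hnb]
      exact mem_insert_of_mem (mem_singleton_self _)
    have hadj : ∀ y ∈ C, y ≠ s → (G.Adj s y ∨ G.Adj t y) → y = x ∨ y = z := by
      intro y hy hys h
      have h1 : y ∈ nb (con G s t) C s := by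
        refine mem_nb.2 ⟨hy, con_adj.2 ⟨hys.symm, hst.ne, hne y hy, ?_⟩⟩
        rcases h with h | h
        · exact Or.inl h
        · exact Or.inr (Or.inl ⟨rfl, h⟩)
      rw [hnb, mem_insert, mem_singleton] at h1
      exact h1
    -- a further vertex of the cycle
    obtain ⟨r, hrC, hrn⟩ : ∃ r ∈ C, r ∉ ({s, x, z} : Finset V) := by
      by_contra h1
      push Not at h1
      have h2 := card_le_card (show C ⊆ {s, x, z} from h1)
      have h3 := card_le_three (a := s) (b := x) (c := z)
      have h4 := hC.1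
      omega
    rw [mem_insert, mem_insert, mem_singleton, not_or, not_or] at hrn
    have hr1 : ¬ G.Adj s r := by
      intro h1
      rcases hadj r hrC hrn.1 (Or.inl h1) with h2 | h2
      · exact hrn.2.1 h2
      · exact hrn.2.2 h2
    have hr2 : ¬ G.Adj t r := by
      intro h1
      rcases hadj r hrC hrn.1 (Or.inr h1) with h2 | h2
      · exact hrn.2.1 h2
      · exact hrn.2.2 h2
    rw [mem_nb, con_adj] at hx hz
    obtain ⟨hxC, hxs, -, hxt, hx⟩ := hx
    obtain ⟨hzC, hzs, -, hzt, hz⟩ := hz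
    have hx' : G.Adj s x ∨ G.Adj t x := by
      rcases hx with h1 | ⟨-, h1⟩ | ⟨h1, -⟩
      · exact Or.inl h1
      · exact Or.inr h1
      · exact absurd h1.symm hxs
    have hz' : G.Adj s z ∨ G.Adj t z := by
      rcases hz with h1 | ⟨-, h1⟩ | ⟨h1, -⟩
      · exact Or.inl h1
      · exact Or.inr h1
      · exact absurd h1.symm hzs
    clear hx hz
    -- the mixed case
    have hmix : ∀ x z : V, x ∈ C → z ∈ C → G.Adj s x → ¬ G.Adj t x → G.Adj t z →
        ¬ G.Adj s z → z ≠ s → False := by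
      intro x z hxC hzC h1 h2 h3 h4 h5
      have h6 := cyc_uncon hC hsC htC hst hxC hzC h1 h2 h3 h4 h5
      refine h.2.2.2 (insert t C) (insert_subset ht hCS') h6 ?_
      have h7 : S \ insert t C = S.erase t \ C := by
        ext y
        rw [mem_sdiff, mem_sdiff, mem_insert, mem_erase, not_or]
        constructor
        · rintro ⟨h1, h2, h3⟩
          exact ⟨⟨h2, h1⟩, h3⟩
        · rintro ⟨⟨h1, h2⟩, h3⟩
          exact ⟨h2, h1, h3⟩
      rw [h7]
      exact hG
    -- both on the side of `t`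
    have htt : G.Adj t x → G.Adj t z → False := by
      intro htx htz
      have hty : ∀ y ∈ C, y ≠ s → G.Adj s y → G.Adj t y := by
        intro y hy hys hsy
        rcases hadj y hy hys (Or.inl hsy) with h1 | h1
        · rw [h1]
          exact htx
        · rw [h1]
          exact htz
      have hCG : Cyc G (C.image (fun y => if y = s then t else y)) := by
        refine cyc_image (G := con G s t) ?_ ?_ hC
        · intro a ha b hb hab
          by_cases has : a = s
          · by_cases hbs : b = s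
            · rw [has, hbs]
            · rw [if_pos has, if_neg hbs] at hab
              exact absurd hab.symm (hne b hb)
          · by_cases hbs : b = s
            · rw [if_neg has, if_pos hbs] at hab
              exact absurd hab (hne a ha)
            · rwa [if_neg has, if_neg hbs] at hab
        · intro a ha b hb
          by_cases has : a = s
          · by_cases hbs : b = s
            · rw [if_pos has, if_pos hbs, has, hbs]
              exact ⟨fun h => absurd h (con G s t).irrefl, fun h => absurd h G.irrefl⟩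
            · rw [if_pos has, if_neg hbs, con_adj, has]
              constructor
              · rintro ⟨-, -, -, h3 | ⟨-, h3⟩ | ⟨h3, -⟩⟩
                · exact hty b hb hbs h3
                · exact h3
                · exact absurd h3 hbs
              · intro h3
                exact ⟨fun h4 => hbs h4.symm, hst.ne, hne b hb, Or.inr (Or.inl ⟨rfl, h3⟩)⟩
          · by_cases hbs : b = s
            · rw [if_neg has, if_pos hbs, con_adj, hbs]
              constructor
              · rintro ⟨-, -, -, h3 | ⟨h3, -⟩ | ⟨-, h3⟩⟩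
                · exact (hty a ha has h3.symm).symm
                · exact absurd h3 has
                · exact h3.symm
              · intro h3
                exact ⟨has, hne a ha, hst.ne, Or.inr (Or.inr ⟨rfl, h3.symm⟩)⟩
            · rw [if_neg has, if_neg hbs, con_adj]
              constructor
              · rintro ⟨-, -, -, h3 | ⟨h3, -⟩ | ⟨h3, -⟩⟩
                · exact h3
                · exact absurd h3 has
                · exact absurd h3 hbs
              · intro h3
                exact ⟨h3.ne, hne a ha, hne b hb, Or.inl h3⟩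
      have hmem : ∀ y, y ∈ C.image (fun y => if y = s then t else y) ↔
          (y ∈ C ∧ y ≠ s) ∨ y = t := by
        intro y
        rw [mem_image]
        constructor
        · rintro ⟨a, ha, hay⟩
          by_cases has : a = s
          · rw [if_pos has] at hay
            exact Or.inr hay.symm
          · rw [if_neg has] at hay
            rw [← hay]
            exact Or.inl ⟨ha, has⟩
        · rintro (⟨h1, h2⟩ | h1)
          · exact ⟨y, h1, if_neg h2⟩
          · exact ⟨s, hsC, by rw [if_pos rfl, h1]⟩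
      generalize C.image (fun y => if y = s then t else y) = C2 at hCG hmem
      have h1 : nb G S s = C2 := by
        refine sep_aux h hs ?_ ?_ hCG ?_
        · rw [hmem]
          rintro (h1 | h1)
          · exact h1.2 rfl
          · exact hst.ne h1
        · intro y hy
          rcases (hmem y).1 hy with h1 | h1
          · exact hCS' h1.1
          · rw [h1]
            exact ht
        · have h7 : (S \ C2).erase s = S.erase t \ C := by
            ext y
            rw [mem_erase, mem_sdiff, mem_sdiff, mem_erase, hmem, not_or]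
            constructor
            · rintro ⟨h1, h2, h3, h4⟩
              exact ⟨⟨h4, h2⟩, fun h5 => h3 ⟨h5, h1⟩⟩
            · rintro ⟨⟨h1, h2⟩, h3⟩
              refine ⟨?_, h2, fun h4 => h3 h4.1, h1⟩
              rintro rfl
              exact h3 hsC
          rw [h7]
          exact hG
      have h2 : r ∈ nb G S s := by
        rw [h1, hmem]
        exact Or.inl ⟨hrC, hrn.1⟩
      exact hr1 (mem_nb.1 h2).2
    by_cases hsx : G.Adj s x
    · by_cases hsz : G.Adj s z
      · -- `C` is a cycle of `G`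
        have hsy : ∀ y ∈ C, y ≠ s → G.Adj t y → G.Adj s y := by
          intro y hy hys hty
          rcases hadj y hy hys (Or.inr hty) with h1 | h1
          · rw [h1]
            exact hsx
          · rw [h1]
            exact hsz
        have hCG : Cyc G C := by
          refine cyc_congr (G := con G s t) ?_ hC
          intro a ha b hb
          rw [con_adj]
          constructor
          · rintro ⟨h3, -, -, h4 | ⟨h4, h5⟩ | ⟨h4, h5⟩⟩
            · exact h4
            · rw [h4]
              exact hsy b hb (fun h6 => h3 (h4.trans h6.symm)) h5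
            · rw [h4]
              exact (hsy a ha (fun h6 => h3 (h6.trans h4.symm)) h5).symm
          · intro h4
            exact ⟨h4.ne, hne a ha, hne b hb, Or.inl h4⟩
        rw [heq] at hG
        have h1 := sep_aux h ht htC hCS' hCG hG
        rw [← h1] at hrC
        exact hr2 (mem_nb.1 hrC).2
      · have htz : G.Adj t z := hz'.resolve_left hsz
        by_cases htx : G.Adj t x
        · exact htt htx htz
        · exact hmix x z hxC hzC hsx htx htz hsz hzs.symm
    · have htx : G.Adj t x := hx'.resolve_left hsx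
      by_cases htz : G.Adj t z
      · exact htt htx htz
      · exact hmix z x hzC hxC (hz'.resolve_right htz) htz htx hsx hxs.symm
  · -- `s` is not on the cycle
    have hCG : Cyc G C := by
      refine cyc_congr (G := con G s t) ?_ hC
      intro a ha b hb
      rw [con_adj]
      constructor
      · rintro ⟨h3, -, -, h4 | ⟨h4, -⟩ | ⟨h4, -⟩⟩
        · exact h4
        · exact absurd (h4 ▸ ha) hsC
        · exact absurd (h4 ▸ hb) hsC
      · intro h4
        exact ⟨h4.ne, hne a ha, hne b hb, Or.inl h4⟩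
    rw [heq] at hconn
    exact h.2.2.2 C hCS' hCG (conn_of_con (mem_sdiff.2 ⟨hs, hsC⟩) (mem_sdiff.2 ⟨ht, htC⟩) hst hconn)

end JC

/-- **Contraction of an edge** which lies in no induced 4-cycle preserves combinatorial 2-spheres. -/
theorem Jor.con {V : Type} {G : SimpleGraph V} {S : Finset V} {s t : V} (h : Jor G S)
    (hs : s ∈ S) (ht : t ∈ S) (hst : G.Adj s t) (hq : NoSqF G S s t) :
    Jor (Pool.Agent.R781.VS.con G s t) (S.erase t) := by
  refine ⟨⟨s, mem_erase.2 ⟨hst.ne, hs⟩⟩, JC.conn_con hs ht hst.ne h.2.1, ?_,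
    fun C hCS hC => JC.sep h hs ht hst hCS hC⟩
  intro v hv
  rw [mem_erase] at hv
  by_cases hvs : v = s
  · subst hvs
    exact JC.link_s h hs ht hst hq
  · by_cases hvt : G.Adj v t
    · by_cases hvs' : G.Adj v s
      · exact JC.link_c h hs ht hst hq hv.2 hvs' hvt
      · exact JC.link_b h hst.ne hs ht hq hv.2 hvs hv.1 hvt hvs'
    · exact JC.link_a h hq hv.2 hvs hv.1 hvt

end Pool.Agent.W5h14.TV
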