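import Pool.Agent.W5h14.TV.CycLab

/-!
# A contractible edge, or a suspension
-/

set_option autoImplicit false

namespace Pool.Agent.W5h14.TV

open Finset Classical
open Pool.Agent.W5h83.FS

variable {V : Type} {G : SimpleGraph V}

/-- a closed set contains a whole arc -/
lemma arc_mem {R K : Finset V} (hK : ∀ k ∈ K, ∀ d ∈ R, G.Adj k d → d ∈ K) {f : ℕ → V} {lo hi t : ℕ}
    (h1 : lo ≤ t) (h2 : t ≤ hi) (hR : ∀ x, lo ≤ x → x ≤ hi → f x ∈ R)
    (hadj : ∀ x, lo ≤ x → x + 1 ≤ hi → G.Adj (f x) (f (x + 1))) (ht : f t ∈ K) :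
    ∀ x, lo ≤ x → x ≤ hi → f x ∈ K := by
  have up : ∀ m, t + m ≤ hi → f (t + m) ∈ K := by
    intro m
    induction m with
    | zero => intro _; exact ht
    | succ m ih =>
      intro hm
      exact hK _ (ih (by omega)) _ (hR _ (by omega) (by omega)) (hadj _ (by omega) (by omega))
  have down : ∀ m, lo + m ≤ t → f (t - m) ∈ K := by
    intro m
    induction m with
    | zero => intro _; exact ht
    | succ m ih =>
      intro hm
      have h3 := hadj (t - (m + 1)) (by omega) (by omega)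
      rw [show t - (m + 1) + 1 = t - m by omega] at h3
      exact hK _ (ih (by omega)) _ (hR _ (by omega) (by omega)) h3.symm
  intro x hx1 hx2
  by_cases hx : t ≤ x
  · have := up (x - t) (by omega)
    rwa [show t + (x - t) = x by omega] at this
  · have := down (t - x) (by omega)
    rwa [show t - (t - x) = x by omega] at this

/-- propagation of a closed set around a vertex of the square `c a y b` -/
lemma prop_step {S R K : Finset V} (hL : ∀ v ∈ S, Cyc G (nb G S v)) {c a y b : V}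
    (hcS : c ∈ S) (haS : a ∈ S) (hyS : y ∈ S)
    (hR : ∀ x, x ∈ R ↔ x ∈ S ∧ x ≠ c ∧ x ≠ a ∧ x ≠ y ∧ x ≠ b)
    (hK : ∀ k ∈ K, ∀ d ∈ R, G.Adj k d → d ∈ K)
    (hca : G.Adj c a) (hay : G.Adj a y) (hcy : ¬ G.Adj c y) (hcy' : c ≠ y) (hab : ¬ G.Adj a b)
    (hc : ∀ x ∈ R, G.Adj c x → x ∈ K) : ∀ x ∈ R, G.Adj a x → x ∈ K := by
  obtain ⟨n, g, hn, hg, hg0⟩ := exists_lab_at (hL a haS) (z := c) (mem_nb.2 ⟨hcS, hca.symm⟩)
  obtain ⟨s, hs, hgs⟩ := hg.surj y (mem_nb.2 ⟨hyS, hay⟩)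
  have hs0 : s ≠ 0 := by
    rintro rfl
    exact hcy' (hg0.symm.trans hgs)
  have hnadj := hg.adj 0 s (by omega) hs
  rw [hg0, hgs] at hnadj
  have hs1 : s ≠ 1 := by
    rintro rfl
    exact hcy (hnadj.2 (Or.inl rfl))
  have hs2 : s + 1 ≠ n := fun h => hcy (hnadj.2 (Or.inr ⟨rfl, h⟩))
  have hmemR : ∀ x, x < n → x ≠ 0 → x ≠ s → g x ∈ R := by
    intro x hx hx0 hxs
    have h1 := mem_nb.1 (hg.mem x hx)
    rw [hR]
    refine ⟨h1.1, ?_, ?_, ?_, ?_⟩
    · intro h2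
      exact hx0 (hg.finj hx (by omega) (h2.trans hg0.symm))
    · intro h2
      rw [h2] at h1
      exact G.irrefl h1.2
    · intro h2
      exact hxs (hg.finj hx hs (h2.trans hgs.symm))
    · intro h2
      rw [h2] at h1
      exact hab h1.2
  intro x hx hax
  obtain ⟨j, hj, rfl⟩ := hg.surj x (mem_nb.2 ⟨((hR x).1 hx).1, hax⟩)
  have hj0 : j ≠ 0 := by
    rintro rfl
    exact ((hR _).1 hx).2.1 hg0
  have hjs : j ≠ s := by
    rintro rfl
    exact ((hR _).1 hx).2.2.2.1 hgs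
  by_cases hlt : j < s
  · refine arc_mem hK (f := g) (lo := 1) (hi := s - 1) (t := 1) le_rfl (by omega) ?_ ?_ ?_ j (by omega)
      (by omega)
    · intro x h1 h2
      exact hmemR x (by omega) (by omega) (by omega)
    · intro x h1 h2
      exact (hg.adj x (x + 1) (by omega) (by omega)).2 (Or.inl rfl)
    · refine hc _ (hmemR 1 (by omega) (by omega) (by omega)) ?_
      rw [← hg0]
      exact (hg.adj 0 1 (by omega) (by omega)).2 (Or.inl rfl)
  · refine arc_mem hK (f := g) (lo := s + 1) (hi := n - 1) (t := n - 1) (by omega) le_rfl ?_ ?_ ?_ j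
      (by omega) (by omega)
    · intro x h1 h2
      exact hmemR x (by omega) (by omega) (by omega)
    · intro x h1 h2
      exact (hg.adj x (x + 1) (by omega) (by omega)).2 (Or.inl rfl)
    · refine hc _ (hmemR (n - 1) (by omega) (by omega) (by omega)) ?_
      rw [← hg0]
      exact (hg.adj 0 (n - 1) (by omega) (by omega)).2 (Or.inr ⟨rfl, by omega⟩)

/-- the two arcs of the link of `c` are not on the same side of the square -/
lemma not_same_side {S R K : Finset V} (hconn : Conn G S) (hL : ∀ v ∈ S, Cyc G (nb G S v)) {c a y b : V}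
    (hcS : c ∈ S) (haS : a ∈ S) (hyS : y ∈ S) (hbS : b ∈ S)
    (hR : ∀ x, x ∈ R ↔ x ∈ S ∧ x ≠ c ∧ x ≠ a ∧ x ≠ y ∧ x ≠ b)
    (hKR : K ⊆ R) (hne : ∃ d ∈ R, d ∉ K)
    (hK : ∀ k ∈ K, ∀ d ∈ R, G.Adj k d → d ∈ K)
    (hca : G.Adj c a) (hay : G.Adj a y) (hyb : G.Adj y b) (hbc : G.Adj b c)
    (hcy : ¬ G.Adj c y) (hcy' : c ≠ y) (hab : ¬ G.Adj a b) (hab' : a ≠ b)
    {n : ℕ} {f : ℕ → V} (hf : Lab G (nb G S c) n f) {m t u : ℕ} (hf0 : f 0 = a) (hfm : f m = b)
    (ht : 0 < t) (htm : t < m) (hmu : m < u) (hun : u < n) (hft : f t ∈ K) (hfu : f u ∈ K) : False := by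
  have hmemR : ∀ x, x < n → x ≠ 0 → x ≠ m → f x ∈ R := by
    intro x hx hx0 hxs
    have h1 := mem_nb.1 (hf.mem x hx)
    rw [hR]
    refine ⟨h1.1, ?_, ?_, ?_, ?_⟩
    · intro h2
      rw [h2] at h1
      exact G.irrefl h1.2
    · intro h2
      exact hx0 (hf.finj hx (by omega) (h2.trans hf0.symm))
    · intro h2
      rw [h2] at h1
      exact hcy h1.2
    · intro h2
      exact hxs (hf.finj hx (by omega) (h2.trans hfm.symm))
  have hc : ∀ x ∈ R, G.Adj c x → x ∈ K := by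
    intro x hx hcx
    obtain ⟨j, hj, rfl⟩ := hf.surj x (mem_nb.2 ⟨((hR x).1 hx).1, hcx⟩)
    have hj0 : j ≠ 0 := by
      rintro rfl
      exact ((hR _).1 hx).2.2.1 hf0
    have hjs : j ≠ m := by
      rintro rfl
      exact ((hR _).1 hx).2.2.2.2 hfm
    by_cases hlt : j < m
    · refine arc_mem hK (f := f) (lo := 1) (hi := m - 1) (t := t) (by omega) (by omega) ?_ ?_ hft j
        (by omega) (by omega)
      · intro x h1 h2
        exact hmemR x (by omega) (by omega) (by omega)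
      · intro x h1 h2
        exact (hf.adj x (x + 1) (by omega) (by omega)).2 (Or.inl rfl)
    · refine arc_mem hK (f := f) (lo := m + 1) (hi := n - 1) (t := u) (by omega) (by omega) ?_ ?_ hfu j
        (by omega) (by omega)
      · intro x h1 h2
        exact hmemR x (by omega) (by omega) (by omega)
      · intro x h1 h2
        exact (hf.adj x (x + 1) (by omega) (by omega)).2 (Or.inl rfl)
  have ha := prop_step hL hcS haS hyS hR hK hca hay hcy hcy' hab hc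
  have hR2 : ∀ x, x ∈ R ↔ x ∈ S ∧ x ≠ c ∧ x ≠ b ∧ x ≠ y ∧ x ≠ a := fun x => by rw [hR]; tauto
  have hb := prop_step hL hcS hbS hyS hR2 hK hbc.symm hyb.symm hcy hcy' (fun h => hab h.symm) hc
  have hR3 : ∀ x, x ∈ R ↔ x ∈ S ∧ x ≠ a ∧ x ≠ y ∧ x ≠ b ∧ x ≠ c := fun x => by rw [hR]; tauto
  have hy := prop_step hL haS hyS hbS hR3 hK hay hyb hab hab' (fun h => hcy h.symm) ha
  -- the other side is closed in `S`
  obtain ⟨d0, hd0, hd0K⟩ := hne
  obtain ⟨k, hk, d, hd, hdK, hkd⟩ := hconn (R \ K)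
    (fun x hx => ((hR x).1 (mem_sdiff.1 hx).1).1) ⟨d0, mem_sdiff.2 ⟨hd0, hd0K⟩⟩
    (by
      intro h
      have : c ∈ R \ K := by rw [h]; exact hcS
      exact ((hR c).1 (mem_sdiff.1 this).1).2.1 rfl)
  obtain ⟨hkR, hkK⟩ := mem_sdiff.1 hk
  by_cases hdR : d ∈ R
  · have hdK' : d ∈ K := by
      by_contra h
      exact hdK (mem_sdiff.2 ⟨hdR, h⟩)
    exact hkK (hK d hdK' k hkR hkd.symm)
  · have : d = c ∨ d = a ∨ d = y ∨ d = b := by
      by_contra hcon
      push Not at hcon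
      exact hdR ((hR d).2 ⟨hd, hcon.1, hcon.2.1, hcon.2.2.1, hcon.2.2.2⟩)
    rcases this with rfl | rfl | rfl | rfl
    · exact hkK (hc k hkR hkd.symm)
    · exact hkK (ha k hkR hkd.symm)
    · exact hkK (hy k hkR hkd.symm)
    · exact hkK (hb k hkR hkd.symm)

/-- a square is a cycle -/
lemma cyc_square {c a y b : V} (hca : G.Adj c a) (hay : G.Adj a y) (hyb : G.Adj y b) (hbc : G.Adj b c)
    (hcy : ¬ G.Adj c y) (hcy' : c ≠ y) (hab : ¬ G.Adj a b) (hab' : a ≠ b) :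
    Cyc G ({c, a, y, b} : Finset V) := by
  have e1 : nb G ({c, a, y, b} : Finset V) c = {a, b} := by
    ext x
    rw [mem_nb]
    simp only [mem_insert, mem_singleton]
    constructor
    · rintro ⟨rfl | rfl | rfl | rfl, h⟩
      · exact absurd h (G.irrefl)
      · exact Or.inl rfl
      · exact absurd h hcy
      · exact Or.inr rfl
    · rintro (rfl | rfl)
      · exact ⟨Or.inr (Or.inl rfl), hca⟩
      · exact ⟨Or.inr (Or.inr (Or.inr rfl)), hbc.symm⟩
  have e2 : nb G ({c, a, y, b} : Finset V) a = {c, y} := by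
    ext x
    rw [mem_nb]
    simp only [mem_insert, mem_singleton]
    constructor
    · rintro ⟨rfl | rfl | rfl | rfl, h⟩
      · exact Or.inl rfl
      · exact absurd h (G.irrefl)
      · exact Or.inr rfl
      · exact absurd h hab
    · rintro (rfl | rfl)
      · exact ⟨Or.inl rfl, hca.symm⟩
      · exact ⟨Or.inr (Or.inr (Or.inl rfl)), hay⟩
  have e3 : nb G ({c, a, y, b} : Finset V) y = {a, b} := by
    ext x
    rw [mem_nb]
    simp only [mem_insert, mem_singleton]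
    constructor
    · rintro ⟨rfl | rfl | rfl | rfl, h⟩
      · exact absurd h.symm hcy
      · exact Or.inl rfl
      · exact absurd h (G.irrefl)
      · exact Or.inr rfl
    · rintro (rfl | rfl)
      · exact ⟨Or.inr (Or.inl rfl), hay.symm⟩
      · exact ⟨Or.inr (Or.inr (Or.inr rfl)), hyb⟩
  have e4 : nb G ({c, a, y, b} : Finset V) b = {c, y} := by
    ext x
    rw [mem_nb]
    simp only [mem_insert, mem_singleton]
    constructor
    · rintro ⟨rfl | rfl | rfl | rfl, h⟩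
      · exact Or.inl rfl
      · exact absurd h.symm hab
      · exact Or.inr rfl
      · exact absurd h (G.irrefl)
    · rintro (rfl | rfl)
      · exact ⟨Or.inl rfl, hbc⟩
      · exact ⟨Or.inr (Or.inr (Or.inl rfl)), hyb.symm⟩
  refine ⟨?_, ?_, ?_⟩
  · rw [card_insert_of_notMem, card_insert_of_notMem, card_insert_of_notMem, card_singleton]
    · simp only [mem_singleton]; exact hyb.ne
    · simp only [mem_insert, mem_singleton, not_or]; exact ⟨hay.ne, hab'⟩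
    · simp only [mem_insert, mem_singleton, not_or]; exact ⟨hca.ne, hcy', hbc.ne'⟩
  · intro D hD hDne hDall
    by_contra hcon
    push Not at hcon
    have hcl : ∀ x ∈ D, ∀ z ∈ ({c, a, y, b} : Finset V), G.Adj x z → z ∈ D := by
      intro x hx z hz hxz
      by_contra h
      exact hcon x hx z hz h hxz
    have mc : c ∈ ({c, a, y, b} : Finset V) := by simp
    have ma : a ∈ ({c, a, y, b} : Finset V) := by simp
    have my : y ∈ ({c, a, y, b} : Finset V) := by simp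
    have mb : b ∈ ({c, a, y, b} : Finset V) := by simp
    have hac : a ∈ D → c ∈ D := fun h => hcl a h c mc hca.symm
    have hca' : c ∈ D → a ∈ D := fun h => hcl c h a ma hca
    have hay' : a ∈ D → y ∈ D := fun h => hcl a h y my hay
    have hya : y ∈ D → a ∈ D := fun h => hcl y h a ma hay.symm
    have hyb' : y ∈ D → b ∈ D := fun h => hcl y h b mb hyb
    have hby : b ∈ D → y ∈ D := fun h => hcl b h y my hyb.symm
    obtain ⟨x, hx⟩ := hDne
    have hx' := hD hx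
    simp only [mem_insert, mem_singleton] at hx'
    have haD : a ∈ D := by
      rcases hx' with rfl | rfl | rfl | rfl
      · exact hca' hx
      · exact hx
      · exact hya hx
      · exact hya (hby hx)
    apply hDall
    refine Subset.antisymm hD ?_
    intro z hz
    simp only [mem_insert, mem_singleton] at hz
    rcases hz with rfl | rfl | rfl | rfl
    · exact hac haD
    · exact haD
    · exact hay' haD
    · exact hyb' (hay' haD)
  · intro v hv
    simp only [mem_insert, mem_singleton] at hv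
    rcases hv with rfl | rfl | rfl | rfl
    · rw [e1, card_pair hab']
    · rw [e2, card_pair hcy']
    · rw [e3, card_pair hab']
    · rw [e4, card_pair hcy']

/-- crossing chords come from the same vertex -/
lemma crossing {S : Finset V} (h : Jor G S) {c y y' : V} (hcS : c ∈ S) (hyS : y ∈ S) (hy'S : y' ∈ S)
    (hcy : ¬ G.Adj c y) (hcy' : c ≠ y) (hc' : ¬ G.Adj c y') (hc'' : c ≠ y')
    {n : ℕ} {f : ℕ → V} (hf : Lab G (nb G S c) n f) {m t u : ℕ}
    (hm2 : 2 ≤ m) (ht : 0 < t) (htm : t < m) (hmu : m < u) (hun : u < n)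
    (hy0 : G.Adj y (f 0)) (hym : G.Adj y (f m)) (hyt : G.Adj y' (f t)) (hyu : G.Adj y' (f u)) : y' = y := by
  obtain ⟨-, hconn, hL, hsep⟩ := h
  have h0 := mem_nb.1 (hf.mem 0 (by omega))
  have hm := mem_nb.1 (hf.mem m (by omega))
  have htt := mem_nb.1 (hf.mem t (by omega))
  have huu := mem_nb.1 (hf.mem u (by omega))
  have hab : ¬ G.Adj (f 0) (f m) := by
    rw [hf.adj 0 m (by omega) (by omega)]
    omega
  have hab' : f 0 ≠ f m := hf.inj 0 m (by omega) (by omega)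
  set C : Finset V := {c, f 0, y, f m} with hC
  have hCS : C ⊆ S := by
    intro x hx
    simp only [hC, mem_insert, mem_singleton] at hx
    rcases hx with rfl | rfl | rfl | rfl
    · exact hcS
    · exact h0.1
    · exact hyS
    · exact hm.1
  have hcyc : Cyc G C := cyc_square h0.2 hy0.symm hym hm.2.symm hcy hcy' hab hab'
  have hn := hsep C hCS hcyc
  have hn' : ∃ K ⊆ S \ C, K.Nonempty ∧ K ≠ S \ C ∧ ∀ k ∈ K, ∀ d ∈ S \ C, d ∉ K → ¬ G.Adj k d := by
    by_contra hcon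
    apply hn
    intro K hK1 hK2 hK3
    by_contra hcon2
    push Not at hcon2
    exact hcon ⟨K, hK1, hK2, hK3, hcon2⟩
  obtain ⟨K, hKR, hKne, hKne', hKcl⟩ := hn'
  have hR : ∀ x, x ∈ S \ C ↔ x ∈ S ∧ x ≠ c ∧ x ≠ f 0 ∧ x ≠ y ∧ x ≠ f m := by
    intro x
    simp only [hC, mem_sdiff, mem_insert, mem_singleton, not_or]
  have hK : ∀ k ∈ K, ∀ d ∈ S \ C, G.Adj k d → d ∈ K := by
    intro k hk d hd hkd
    by_contra h
    exact hKcl k hk d hd h hkd
  have hmemR : ∀ x, x < n → x ≠ 0 → x ≠ m → f x ∈ S \ C := by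
    intro x hx hx0 hxs
    have h1 := mem_nb.1 (hf.mem x hx)
    rw [hR]
    refine ⟨h1.1, ?_, ?_, ?_, ?_⟩
    · intro h2
      rw [h2] at h1
      exact G.irrefl h1.2
    · intro h2
      exact hx0 (hf.finj hx (by omega) h2)
    · intro h2
      rw [h2] at h1
      exact hcy h1.2
    · intro h2
      exact hxs (hf.finj hx (by omega) h2)
  -- the complement
  set K' : Finset V := (S \ C) \ K with hK'
  have hK'cl : ∀ k ∈ K', ∀ d ∈ S \ C, G.Adj k d → d ∈ K' := by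
    intro k hk d hd hkd
    rw [hK', mem_sdiff]
    refine ⟨hd, fun hdK => ?_⟩
    exact (mem_sdiff.1 hk).2 (hK d hdK k (mem_sdiff.1 hk).1 hkd.symm)
  have hne1 : ∃ d ∈ S \ C, d ∉ K := by
    by_contra hcon
    push Not at hcon
    exact hKne' (Subset.antisymm hKR hcon)
  have hne2 : ∃ d ∈ S \ C, d ∉ K' := by
    obtain ⟨k, hk⟩ := hKne
    exact ⟨k, hKR hk, fun h => (mem_sdiff.1 h).2 hk⟩
  have ns1 := fun (h1 : f t ∈ K) (h2 : f u ∈ K) =>
    not_same_side hconn hL hcS h0.1 hyS hm.1 hR hKR hne1 hK h0.2 hy0.symm hym hm.2.symm hcy hcy' hab hab'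
      hf rfl rfl ht htm hmu hun h1 h2
  have ns2 := fun (h1 : f t ∈ K') (h2 : f u ∈ K') =>
    not_same_side hconn hL hcS h0.1 hyS hm.1 hR sdiff_subset hne2 hK'cl h0.2 hy0.symm hym hm.2.symm hcy hcy'
      hab hab' hf rfl rfl ht htm hmu hun h1 h2
  have htR := hmemR t (by omega) (by omega) (by omega)
  have huR := hmemR u hun (by omega) (by omega)
  by_contra hyy
  have hy'R : y' ∈ S \ C := by
    rw [hR]
    refine ⟨hy'S, hc''.symm, ?_, hyy, ?_⟩
    · intro h2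
      rw [h2] at hc'
      exact hc' h0.2
    · intro h2
      rw [h2] at hc'
      exact hc' hm.2
  by_cases htK : f t ∈ K
  · have hy'K : y' ∈ K := hK _ htK _ hy'R hyt.symm
    exact ns1 htK (hK _ hy'K _ huR hyu)
  · have htK' : f t ∈ K' := mem_sdiff.2 ⟨htR, htK⟩
    have hy'K : y' ∈ K' := hK'cl _ htK' _ hy'R hyt.symm
    exact ns2 htK' (hK'cl _ hy'K _ huR hyu)

/-- a square inside of a cycle is the cycle -/
lemma cyc_eq_square {Z : Finset V} (hZ : Cyc G Z) {c a y b : V} (hc : c ∈ Z) (ha : a ∈ Z) (hy : y ∈ Z)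
    (hb : b ∈ Z) (hca : G.Adj c a) (hay : G.Adj a y) (hyb : G.Adj y b) (hbc : G.Adj b c)
    (hcy' : c ≠ y) (hab' : a ≠ b) {x : V} (hx : x ∈ Z) : x = c ∨ x = a ∨ x = y ∨ x = b := by
  by_contra hcon
  have hsub : ({c, a, y, b} : Finset V) ⊆ Z := by
    intro w hw
    simp only [mem_insert, mem_singleton] at hw
    rcases hw with rfl | rfl | rfl | rfl <;> assumption
  obtain ⟨k, hk, d, hd, hdn, hkd⟩ := hZ.2.1 {c, a, y, b} hsub ⟨c, by simp⟩ (by
    intro h
    rw [← h] at hx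
    simp only [mem_insert, mem_singleton] at hx
    exact hcon hx)
  simp only [mem_insert, mem_singleton, not_or] at hk hdn
  obtain ⟨h1, h2, h3, h4⟩ := hdn
  rcases hk with rfl | rfl | rfl | rfl
  · exact no_three (hZ.2.2 _ hc) ha hb hd hca hbc.symm hkd hab' (Ne.symm h2) (Ne.symm h4)
  · exact no_three (hZ.2.2 _ ha) hc hy hd hca.symm hay hkd hcy' (Ne.symm h1) (Ne.symm h3)
  · exact no_three (hZ.2.2 _ hy) ha hb hd hay.symm hyb hkd hab' (Ne.symm h2) (Ne.symm h4)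
  · exact no_three (hZ.2.2 _ hb) hc hy hd hbc hyb.symm hkd hcy' (Ne.symm h1) (Ne.symm h3)

/-- a vertex of degree four with bad edges: suspension -/
lemma susp_of_four {S : Finset V} (h : Jor G S)
    (hbad : ∀ s ∈ S, ∀ t ∈ S, G.Adj s t → ¬ NoSqF G S s t) {k p q r s : V} (hk : k ∈ S)
    (hp : p ∈ S) (hq : q ∈ S) (hr : r ∈ S) (hs : s ∈ S)
    (kp : G.Adj k p) (kq : G.Adj k q) (kr : G.Adj k r) (ks : G.Adj k s)
    (hpq : G.Adj p q) (hqr : G.Adj q r) (hrs : G.Adj r s) (hsp : G.Adj s p)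
    (npr : ¬ G.Adj p r) (npr' : p ≠ r) (nqs : ¬ G.Adj q s) (nqs' : q ≠ s) :
    ∃ v ∈ S, ∃ w ∈ S, v ≠ w ∧ ¬ G.Adj v w ∧ ∀ u ∈ S, u ≠ v → u ≠ w → G.Adj u v ∧ G.Adj u w := by
  have hL := h.2.2.1
  have hnbk : ∀ x ∈ nb G S k, x = p ∨ x = q ∨ x = r ∨ x = s := fun x hx =>
    cyc_eq_square (hL k hk) (mem_nb.2 ⟨hp, kp⟩) (mem_nb.2 ⟨hq, kq⟩) (mem_nb.2 ⟨hr, kr⟩) (mem_nb.2 ⟨hs, ks⟩)
      hpq hqr hrs hsp npr' nqs' hx
  -- the chords
  have chord : ∀ a ∈ S, G.Adj k a → ∃ x ∈ S, ∃ y ∈ S, G.Adj k x ∧ ¬ G.Adj a x ∧ x ≠ a ∧ G.Adj a y ∧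
      ¬ G.Adj k y ∧ y ≠ k ∧ G.Adj x y := by
    intro a ha hka
    have h1 := hbad k hk a ha hka
    unfold NoSqF at h1
    push Not at h1
    obtain ⟨x, hx, y, hy, h2, h3, h4, h5, h6, h7, h8⟩ := h1
    exact ⟨x, hx, y, hy, h2, h3, h4, h5, h6, h7, h8⟩
  obtain ⟨x1, hx1, y1, hy1, kx1, nx1, nex1, py1, nky1, ney1, xy1⟩ := chord p hp kp
  have ex1 : x1 = r := by
    rcases hnbk x1 (mem_nb.2 ⟨hx1, kx1⟩) with h1 | h1 | h1 | h1
    · exact absurd h1 nex1
    · rw [h1] at nx1; exact absurd hpq nx1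
    · exact h1
    · rw [h1] at nx1; exact absurd hsp.symm nx1
  subst ex1
  obtain ⟨x2, hx2, y2, hy2, kx2, nx2, nex2, qy2, nky2, ney2, xy2⟩ := chord q hq kq
  have ex2 : x2 = s := by
    rcases hnbk x2 (mem_nb.2 ⟨hx2, kx2⟩) with h1 | h1 | h1 | h1
    · rw [h1] at nx2; exact absurd hpq.symm nx2
    · exact absurd h1 nex2
    · rw [h1] at nx2; exact absurd hqr nx2
    · exact h1
  subst ex2
  -- labelling of the link of `k`
  let g : ℕ → V := fun i => if i = 0 then p else if i = 1 then q else if i = 2 then x1 else x2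
  have hg : Lab G (nb G S k) 4 g := by
    refine ⟨?_, ?_, ?_, ?_⟩
    · intro x hx
      interval_cases x
      · exact mem_nb.2 ⟨hp, kp⟩
      · exact mem_nb.2 ⟨hq, kq⟩
      · exact mem_nb.2 ⟨hr, kr⟩
      · exact mem_nb.2 ⟨hs, ks⟩
    · intro z hz
      rcases hnbk z hz with h1 | h1 | h1 | h1
      · exact ⟨0, by norm_num, h1.symm⟩
      · exact ⟨1, by norm_num, h1.symm⟩
      · exact ⟨2, by norm_num, h1.symm⟩
      · exact ⟨3, by norm_num, h1.symm⟩
    · intro x y hxy hy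
      have hx : x < 4 := by omega
      interval_cases y <;> interval_cases x <;> simp only [g] <;> norm_num
      · exact hpq.ne
      · exact npr'
      · exact hqr.ne
      · exact hsp.ne'
      · exact nqs'
      · exact hrs.ne
    · intro x y hxy hy
      have hx : x < 4 := by omega
      interval_cases y <;> interval_cases x <;> simp only [g] <;> norm_num
      · exact hpq
      · exact npr
      · exact hqr
      · exact hsp.symm
      · exact nqs
      · exact hrs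
  have hyy : y2 = y1 := crossing h hk hy1 hy2 nky1 (Ne.symm ney1) nky2 (Ne.symm ney2) hg (m := 2) (t := 1)
    (u := 3) le_rfl (by norm_num) (by norm_num) (by norm_num) (by norm_num) py1.symm xy1.symm qy2.symm xy2.symm
  subst hyy
  -- now `w = y2` is adjacent to all four
  have hnbw : ∀ x ∈ nb G S y2, x = p ∨ x = q ∨ x = x1 ∨ x = x2 := fun x hx =>
    cyc_eq_square (hL y2 hy2) (mem_nb.2 ⟨hp, py1.symm⟩) (mem_nb.2 ⟨hq, qy2.symm⟩) (mem_nb.2 ⟨hr, xy1.symm⟩)
      (mem_nb.2 ⟨hs, xy2.symm⟩) hpq hqr hrs hsp npr' nqs' hx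
  have hnbp : ∀ x ∈ nb G S p, x = k ∨ x = q ∨ x = y2 ∨ x = x2 := fun x hx =>
    cyc_eq_square (hL p hp) (mem_nb.2 ⟨hk, kp.symm⟩) (mem_nb.2 ⟨hq, hpq⟩) (mem_nb.2 ⟨hy2, py1⟩)
      (mem_nb.2 ⟨hs, hsp.symm⟩) kq qy2 xy2.symm ks.symm (Ne.symm ney2) nqs' hx
  have hnbr : ∀ x ∈ nb G S x1, x = k ∨ x = q ∨ x = y2 ∨ x = x2 := fun x hx =>
    cyc_eq_square (hL x1 hr) (mem_nb.2 ⟨hk, kr.symm⟩) (mem_nb.2 ⟨hq, hqr.symm⟩) (mem_nb.2 ⟨hy2, xy1⟩)
      (mem_nb.2 ⟨hs, hrs⟩) kq qy2 xy2.symm ks.symm (Ne.symm ney2) nqs' hx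
  have hnbq : ∀ x ∈ nb G S q, x = k ∨ x = p ∨ x = y2 ∨ x = x1 := fun x hx =>
    cyc_eq_square (hL q hq) (mem_nb.2 ⟨hk, kq.symm⟩) (mem_nb.2 ⟨hp, hpq.symm⟩) (mem_nb.2 ⟨hy2, qy2⟩)
      (mem_nb.2 ⟨hr, hqr⟩) kp py1 xy1.symm kr.symm (Ne.symm ney2) npr' hx
  have hnbs : ∀ x ∈ nb G S x2, x = k ∨ x = p ∨ x = y2 ∨ x = x1 := fun x hx =>
    cyc_eq_square (hL x2 hs) (mem_nb.2 ⟨hk, ks.symm⟩) (mem_nb.2 ⟨hp, hsp⟩) (mem_nb.2 ⟨hy2, xy2⟩)
      (mem_nb.2 ⟨hr, hrs.symm⟩) kp py1 xy1.symm kr.symm (Ne.symm ney2) npr' hx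
  have hall : ({k, y2, p, q, x1, x2} : Finset V) = S := by
    by_contra hne
    obtain ⟨a, ha, d, hd, hdn, had⟩ := h.2.1 {k, y2, p, q, x1, x2} (by
      intro w hw
      simp only [mem_insert, mem_singleton] at hw
      rcases hw with rfl | rfl | rfl | rfl | rfl | rfl <;> assumption) ⟨k, by simp⟩ hne
    simp only [mem_insert, mem_singleton, not_or] at ha hdn
    obtain ⟨d1, d2, d3, d4, d5, d6⟩ := hdn
    rcases ha with rfl | rfl | rfl | rfl | rfl | rfl
    · rcases hnbk d (mem_nb.2 ⟨hd, had⟩) with h1 | h1 | h1 | h1 <;> contradiction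
    · rcases hnbw d (mem_nb.2 ⟨hd, had⟩) with h1 | h1 | h1 | h1 <;> contradiction
    · rcases hnbp d (mem_nb.2 ⟨hd, had⟩) with h1 | h1 | h1 | h1 <;> contradiction
    · rcases hnbq d (mem_nb.2 ⟨hd, had⟩) with h1 | h1 | h1 | h1 <;> contradiction
    · rcases hnbr d (mem_nb.2 ⟨hd, had⟩) with h1 | h1 | h1 | h1 <;> contradiction
    · rcases hnbs d (mem_nb.2 ⟨hd, had⟩) with h1 | h1 | h1 | h1 <;> contradiction
  refine ⟨k, hk, y2, hy2, Ne.symm ney2, nky2, ?_⟩
  intro u hu huk huy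
  rw [← hall] at hu
  simp only [mem_insert, mem_singleton] at hu
  rcases hu with rfl | rfl | rfl | rfl | rfl | rfl
  · exact absurd rfl huk
  · exact absurd rfl huy
  · exact ⟨kp.symm, py1⟩
  · exact ⟨kq.symm, qy2⟩
  · exact ⟨kr.symm, xy1⟩
  · exact ⟨ks.symm, xy2⟩

/-- **Part (C)**: an edge in no induced square, or a suspension. -/
theorem Jor.exists_edge {V : Type} {G : SimpleGraph V} {S : Finset V} (h : Jor G S) :
    (∃ s ∈ S, ∃ t ∈ S, G.Adj s t ∧ NoSqF G S s t) ∨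
    (∃ v ∈ S, ∃ w ∈ S, v ≠ w ∧ ¬ G.Adj v w ∧ ∀ u ∈ S, u ≠ v → u ≠ w → G.Adj u v ∧ G.Adj u w) := by
  by_cases hgood : ∃ s ∈ S, ∃ t ∈ S, G.Adj s t ∧ NoSqF G S s t
  · exact Or.inl hgood
  right
  have hbad : ∀ s ∈ S, ∀ t ∈ S, G.Adj s t → ¬ NoSqF G S s t := by
    intro s hs t ht hst hn
    exact hgood ⟨s, hs, t, ht, hst, hn⟩
  obtain ⟨c, hcS⟩ := h.1
  have hL := h.2.2.1
  have chord : ∀ a ∈ S, G.Adj c a → ∃ x ∈ S, ∃ y ∈ S, G.Adj c x ∧ ¬ G.Adj a x ∧ x ≠ a ∧ G.Adj a y ∧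
      ¬ G.Adj c y ∧ y ≠ c ∧ G.Adj x y := by
    intro a ha hka
    have h1 := hbad c hcS a ha hka
    unfold NoSqF at h1
    push Not at h1
    obtain ⟨x, hx, y, hy, h2, h3, h4, h5, h6, h7, h8⟩ := h1
    exact ⟨x, hx, y, hy, h2, h3, h4, h5, h6, h7, h8⟩
  -- chords with a labelling
  let P : ℕ → Prop := fun m => ∃ n f, Lab G (nb G S c) n f ∧ 2 ≤ m ∧ m + 2 ≤ n ∧
    ∃ y ∈ S, y ≠ c ∧ ¬ G.Adj c y ∧ G.Adj y (f 0) ∧ G.Adj y (f m)
  have mk : ∀ n f, Lab G (nb G S c) n f → ∀ s t, s < t → t < n → ¬ G.Adj (f s) (f t) →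
      (∃ y ∈ S, y ≠ c ∧ ¬ G.Adj c y ∧ G.Adj y (f s) ∧ G.Adj y (f t)) → P (t - s) := by
    intro n f hf s t hst htn hna ⟨y, hy, h1, h2, h3, h4⟩
    rw [hf.adj s t hst htn] at hna
    refine ⟨n, _, hf.rot (t := s) (by omega), by omega, by omega, y, hy, h1, h2, ?_, ?_⟩
    · have h5 : s < n := by omega
      simp only [Nat.zero_add, h5, if_true]
      exact h3
    · have h5 : t - s + s < n := by omega
      have h6 : t - s + s = t := by omega
      simp only [h5, if_true]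
      rw [h6]
      exact h4
  have hex : ∃ m, P m := by
    obtain ⟨n, f, hn, hf⟩ := exists_lab (hL c hcS)
    have h0 := mem_nb.1 (hf.mem 0 (by omega))
    obtain ⟨x, hx, y, hy, h2, h3, h4, h5, h6, h7, h8⟩ := chord (f 0) h0.1 h0.2
    obtain ⟨j, hj, rfl⟩ := hf.surj x (mem_nb.2 ⟨hx, h2⟩)
    have hj0 : j ≠ 0 := by
      rintro rfl
      exact h4 rfl
    exact ⟨_, mk n f hf 0 j (by omega) hj h3 ⟨y, hy, h7, h6, h5.symm, h8.symm⟩⟩
  obtain ⟨m, hm, hmin⟩ : ∃ m, P m ∧ ∀ m', P m' → m ≤ m' :=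
    ⟨Nat.find hex, Nat.find_spec hex, fun m' hm' => Nat.find_min' hex hm'⟩
  obtain ⟨n, f, hf, hm2, hmn, y, hyS, hyc, hcy, hy0, hym⟩ := hm
  -- all the interior vertices are adjacent to `y`
  have hint : ∀ t, 0 < t → t < m → G.Adj y (f t) := by
    intro t ht htm
    have htt := mem_nb.1 (hf.mem t (by omega))
    obtain ⟨x, hx, y', hy', h2, h3, h4, h5, h6, h7, h8⟩ := chord (f t) htt.1 htt.2
    obtain ⟨u, hu, rfl⟩ := hf.surj x (mem_nb.2 ⟨hx, h2⟩)
    have hut : u ≠ t := by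
      rintro rfl
      exact h4 rfl
    rcases lt_or_gt_of_ne hut with h9 | h9
    · have := hmin _ (mk n f hf u t h9 (by omega) (fun h => h3 h.symm) ⟨y', hy', h7, h6, h8.symm, h5.symm⟩)
      omega
    · by_cases h10 : u ≤ m
      · have := hmin _ (mk n f hf t u h9 (by omega) h3 ⟨y', hy', h7, h6, h5.symm, h8.symm⟩)
        omega
      · have h11 : y' = y := crossing h hcS hyS hy' hcy (Ne.symm hyc) h6 (Ne.symm h7) hf hm2 ht htm
          (by omega) hu hy0 hym h5.symm h8.symm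
        rw [← h11]
        exact h5.symm
  have hm2' : m = 2 := by
    by_contra hne
    have h1 : ¬ G.Adj (f 1) (f m) := by
      rw [hf.adj 1 m (by omega) (by omega)]
      omega
    have := hmin _ (mk n f hf 1 m (by omega) (by omega) h1 ⟨y, hyS, hyc, hcy, hint 1 (by omega) (by omega), hym⟩)
    omega
  subst hm2'
  have h0 := mem_nb.1 (hf.mem 0 (by omega))
  have h1 := mem_nb.1 (hf.mem 1 (by omega))
  have h2 := mem_nb.1 (hf.mem 2 (by omega))
  have a01 : G.Adj (f 0) (f 1) := (hf.adj 0 1 (by omega) (by omega)).2 (Or.inl rfl)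
  have a12 : G.Adj (f 1) (f 2) := (hf.adj 1 2 (by omega) (by omega)).2 (Or.inl rfl)
  have n02 : ¬ G.Adj (f 0) (f 2) := by
    rw [hf.adj 0 2 (by omega) (by omega)]
    omega
  have n02' : f 0 ≠ f 2 := hf.inj 0 2 (by omega) (by omega)
  exact susp_of_four h hbad (k := f 1) (p := c) (q := f 0) (r := y) (s := f 2) h1.1 hcS h0.1 hyS h2.1
    h1.2.symm a01.symm (hint 1 (by omega) (by omega)).symm a12 h0.2 hy0.symm hym h2.2.symm hcy (Ne.symm hyc)
    n02 n02'

end Pool.Agent.W5h14.TV
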