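import Pool.Agent.W5h14.TV.RedDef
import Pool.Agent.W907.SG.Stmts2

/-!
# The Charney-Davis quantity of a full subcomplex: definitions
-/

set_option autoImplicit false

namespace Pool.Agent.W5h14.TV

open Finset Classical
open Pool.Agent.W5h83.FS
open Pool.Agent.R781.VS (con)

/-- the Charney-Davis quantity of the full subcomplex on `S` of the flag complex of `G` -/
noncomputable def lamF {V : Type} (G : SimpleGraph V) (S : Finset V) : ℚ :=
  ∑ T ∈ S.powerset.filter (fun T : Finset V => G.IsClique (T : Set V)), (-1 / 2 : ℚ) ^ T.card

/-- Flag spheres of type `2 m`: the class of the flag spheres of odd dimension `2 m - 1` which can be contracted to a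
reducible one. -/
inductive CDc {V : Type} : ℕ → SimpleGraph V → Finset V → Prop
  /-- reducible flag spheres -/
  | base (m : ℕ) (G : SimpleGraph V) (S : Finset V) : Red true (2 * m) G S → CDc m G S
  /-- an edge `st` in no induced 4-cycle, with a condition on its link, and on the sphere obtained by its
  contraction -/
  | split (m : ℕ) (G : SimpleGraph V) (S : Finset V) (s t : V) : s ∈ S → t ∈ S → G.Adj s t → NoSqF G S s t →
      CDc m G (nb G (nb G S s) t) → CDc (m + 1) (con G s t) (S.erase t) → CDc (m + 1) G S

end Pool.Agent.W5h14.TV
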