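import Pool.Agent.W5h14.TV.Sep

/-!
# The links of type 3 in a flag homology sphere
-/

set_option autoImplicit false

namespace Pool.Agent.W5h14.TV

open Finset Classical
open Pool.Agent.W907.SG Pool.Agent.W907.SM Pool.Agent.W5h83.FS
open Pool.Agent.TH652.Above (HSph)

theorem sp_conn {V : Type} {G : SimpleGraph V} {n : ℕ} {S : Finset V} (h : Sp G (n + 2) S) : Conn G S := by
  intro D hD hne hDS
  by_contra hcon
  push Not at hcon
  obtain ⟨v, hv⟩ := hne
  have hvS := hD hv
  have hnb : nb G S v ⊆ D := by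
    intro x hx
    by_contra hxD
    exact hcon v hv x (mem_nb.1 hx).1 hxD (mem_nb.1 hx).2
  obtain ⟨x, hx⟩ := (h.nb hvS).1
  obtain ⟨z, hz, hzx⟩ := h.ex_nb hvS (mem_nb.1 hx).1 (mem_nb.1 hx).2
  have hzD : z ∈ D := by
    by_contra h1
    exact hcon x (hnb hx) z (mem_mn.1 hz).1 h1 hzx.symm
  have hmn : mn G S v ⊆ D := by
    by_contra h1
    obtain ⟨c, hc, d, hd, hdD, hcd⟩ := h.conn hvS ((mn G S v).filter (· ∈ D)) (filter_subset _ _)
      ⟨z, mem_filter.2 ⟨hz, hzD⟩⟩ (by
        intro h2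
        apply h1
        intro y hy
        rw [← h2, mem_filter] at hy
        exact hy.2)
    rw [mem_filter] at hc hdD
    exact hcon c hc.2 d (mem_mn.1 hd).1 (fun h3 => hdD ⟨hd, h3⟩) hcd
  apply hDS
  refine Subset.antisymm hD fun y hy => ?_
  by_cases h1 : y = v
  · rw [h1]
    exact hv
  · by_cases h2 : G.Adj v y
    · exact hnb (mem_nb.2 ⟨hy, h2⟩)
    · exact hmn (mem_mn.2 ⟨hy, h1, h2⟩)

theorem sp_cyc {V : Type} {G : SimpleGraph V} {C : Finset V} (h : Sp G 2 C) : Cyc G C := by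
  refine ⟨?_, sp_conn (n := 0) h, fun v hv => sp_one_card (h.nb hv)⟩
  obtain ⟨v, hv⟩ := h.1
  have h1 := card_split (G := G) hv
  have h2 := sp_one_card (h.nb hv)
  have h3 := card_pos.2 (h.ne hv)
  omega

/-- connectedness in the graph of a subset -/
theorem conn_sub {V : Type} [LinearOrder V] {G : SimpleGraph V} {P : Set V} {F : Finset ↥P}
    (h : Conn G (F.image Subtype.val)) : Conn (G.induce P) F := by
  intro D hD hne hDF
  obtain ⟨c, hc, d, hd, hdD, hcd⟩ := h (D.image Subtype.val) (image_subset_image hD) (hne.image _) (by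
    intro h1
    exact hDF (image_injective Subtype.val_injective h1))
  rw [mem_image] at hc hd
  obtain ⟨c', hc', rfl⟩ := hc
  obtain ⟨d', hd', rfl⟩ := hd
  exact ⟨c', hc', d', hd', fun h1 => hdD (mem_image_of_mem _ h1), hcd⟩

theorem cyc_sub {V : Type} [LinearOrder V] {G : SimpleGraph V} {P : Set V} {F : Finset ↥P}
    (h : Cyc G (F.image Subtype.val)) : Cyc (G.induce P) F := by
  refine ⟨?_, conn_sub h.2.1, fun v hv => ?_⟩
  · rw [← card_image_of_injective F Subtype.val_injective]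
    exact h.1
  · rw [← card_image_of_injective _ Subtype.val_injective, ← h.2.2 v.1 (mem_image_of_mem _ hv)]
    congr 1
    ext x
    rw [mem_image, mem_nb, mem_image]
    constructor
    · rintro ⟨a, ha, rfl⟩
      rw [mem_nb] at ha
      exact ⟨⟨a, ha.1, rfl⟩, ha.2⟩
    · rintro ⟨⟨a, ha, rfl⟩, h1⟩
      exact ⟨a, mem_nb.2 ⟨ha, h1⟩, rfl⟩

/-- **Links of type 3 are flag 2-spheres.** -/
theorem jor_link {V : Type} [Fintype V] [LinearOrder V] {G : SimpleGraph V} {n : ℕ} (hS : HSph n G)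
    (T : Finset V) (hT : G.IsClique (T : Set V)) (hc : T.card + 3 = n) : Jor G (lkF G T) := by
  have hSp := sp_of_hsph hS 3 T hT hc
  refine ⟨hSp.1, sp_conn (n := 1) hSp, fun v hv => sp_cyc (hSp.nb hv), fun C hC hCyc hcon => ?_⟩
  have hfin : Fintype ↥(lk G T) := Fintype.ofFinite _
  have hL : HSph 3 (G.induce (lk G T)) := by
    have h1 := Pool.Agent.R703.CW.hsph_link hS T hT
    rwa [show n - T.card = 3 by omega] at h1
  let C' : Finset ↥(lk G T) := univ.filter fun x => x.1 ∈ C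
  have hC' : C'.image Subtype.val = C := by
    ext x
    simp only [C', mem_image, mem_filter, mem_univ, true_and, Subtype.exists, exists_and_right, exists_eq_right]
    constructor
    · rintro ⟨_, h⟩
      exact h
    · intro h
      exact ⟨(mem_lkF G T x).1 (hC h), h⟩
  have h1 : Cyc (G.induce (lk G T)) C' := cyc_sub (by rw [hC']; exact hCyc)
  have h2 : ∀ F : Finset ↥(lk G T), (∀ x, x ∈ F ↔ x.1 ∉ C) → F.image Subtype.val = lkF G T \ C := by
    intro F hF
    ext x
    simp only [mem_image, mem_sdiff, hF, Subtype.exists, exists_and_right, exists_eq_right, mem_lkF]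
    exact ⟨fun ⟨h3, h4⟩ => ⟨h3, h4⟩, fun ⟨h3, h4⟩ => ⟨h3, h4⟩⟩
  refine sep_of_hsph hL h1 ?_
  refine conn_sub ?_
  rw [h2 _ (fun x => by simp [C'])]
  refine (congrArg (Conn G) ?_).mpr hcon
  ext x
  simp only [mem_sdiff]

end Pool.Agent.W5h14.TV
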