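import Pool.Agent.W5h14.TV.Link
import Pool.Agent.W5h14.TV.JorEdge
import Pool.Agent.W5h14.TV.JorCon

/-!
# Tame flag spheres: summary
-/

set_option autoImplicit false

namespace Pool.Agent.W5h14.TV

open Finset Classical
open Pool.Agent.W907.SG Pool.Agent.W907.SM Pool.Agent.W5h83.FS
open Pool.Agent.TH652.Above (HSph lv_set lv_univ singer_of_above)

/-- `ℓ²`-vanishing for flag 2-spheres -/
theorem lv_jor {V : Type} [Finite V] (G : SimpleGraph V) (S : Finset V) (h : Jor G S) (i : ℕ) (hi : 2 ≤ i) :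
    LV (G.induce (S : Set V)) i :=
  lv_jor_of (fun _ _ _ _ h hs ht hst hq => h.con hs ht hst hq) (fun _ _ h => h.exists_edge) _ G S rfl h i hi

/-- tame spheres: all full subcomplexes -/
theorem above_tame {n : ℕ} {V : Type} [Fintype V] [LinearOrder V] {G : SimpleGraph V} (hS : HSph n G)
    (hT : Tame G n Finset.univ) (A : Set V) (i : ℕ) (hi : n < 2 * i) : LV (G.induce A) i := by
  have hf : Fintype ↥A := Fintype.ofFinite _
  have h1 := lv_tame (fun S h => lv_jor G S h) hT (sp_univ hS) A.toFinset (Finset.subset_univ _) i (by omega)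
  exact lv_set (by rw [Set.coe_toFinset]) h1

/-- the criterion for the sphere itself -/
theorem tame_univ {n : ℕ} {V : Type} [Fintype V] [LinearOrder V] {G : SimpleGraph V} (hS : HSph n G)
    (hc : ∀ (T : Finset V) (m : ℕ), G.IsClique (T : Set V) → T.card + (2 * m + 5) = n →
      2 * (lkF G T).card ≤ 5 * (2 * m + 5) + 2 ∨ ∃ v ∈ lkF G T, TreeOn G (mn G (lkF G T) v)) :
    Tame G n Finset.univ := by
  have h1 := tame_of_crit hS (fun T hT hc => jor_link hS T hT hc) hc n ∅ (by simp) (by simp)
  have h2 : lkF G (∅ : Finset V) = univ := by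
    ext x
    rw [mem_lkF]
    simp
  rwa [h2] at h1

end Pool.Agent.W5h14.TV
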