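import Pool.Agent.W5h14.TV.Jor

/-!
# Reducible flag spheres: definitions
-/

set_option autoImplicit false

namespace Pool.Agent.W5h14.TV

open Finset Classical
open Pool.Agent.W5h83.FS
open Pool.Agent.R781.VS (con)

/-- The set `M` of vertices spans a tree: it is built from one vertex by adding leaves. -/
inductive SpansTree {V : Type} (G : SimpleGraph V) : Finset V → Prop
  | one (w : V) : SpansTree G {w}
  | leaf (M : Finset V) (s t : V) : SpansTree G M → s ∈ M → t ∉ M → G.Adj s t →
      (∀ u ∈ M, G.Adj t u → u = s) → SpansTree G (insert t M)

/-- Reducible flag spheres. `S` is the set of vertices of a flag sphere of dimension `n - 1` (the full subcomplex on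
`S` of the flag complex of the graph `G`). If `b` is `true`, the condition also controls the full subcomplexes of the
sphere. -/
inductive Red {V : Type} : Bool → ℕ → SimpleGraph V → Finset V → Prop
  /-- low dimension -/
  | low (b : Bool) (n : ℕ) (G : SimpleGraph V) (S : Finset V) : n ≤ 4 → Red b n G S
  /-- few vertices -/
  | few (b : Bool) (n : ℕ) (G : SimpleGraph V) (S : Finset V) : 2 * S.card ≤ 5 * n + 2 → Red b n G S
  /-- even type: a condition on the links of the vertices -/
  | even (b : Bool) (m : ℕ) (G : SimpleGraph V) (S : Finset V) :
      (∀ x ∈ S, Red true (2 * m + 1) G (nb G S x)) → Red b (2 * m + 2) G S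
  /-- odd type: a vertex `v` whose non-neighbours span a tree, and a condition on the links of the edges of this
  tree -/
  | tree (m : ℕ) (G : SimpleGraph V) (S : Finset V) (v : V) : v ∈ S → SpansTree G (mn G S v) →
      (∀ a ∈ mn G S v, ∀ b ∈ mn G S v, G.Adj a b → Red false (2 * m + 1) G (nb G (nb G S a) b)) →
      Red false (2 * m + 3) G S
  /-- odd type: an edge `st` in no induced 4-cycle, a condition on its link, and on the sphere obtained by its
  contraction -/
  | split (m : ℕ) (G : SimpleGraph V) (S : Finset V) (s t : V) : s ∈ S → t ∈ S → G.Adj s t → NoSqF G S s t →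
      Red false (2 * m + 1) G (nb G (nb G S s) t) → Red false (2 * m + 3) (con G s t) (S.erase t) →
      Red false (2 * m + 3) G S
  /-- odd type, full subcomplexes: a condition on the sphere and on the links of the vertices -/
  | full (m : ℕ) (G : SimpleGraph V) (S : Finset V) : Red false (2 * m + 1) G S →
      (∀ x ∈ S, Red true (2 * m) G (nb G S x)) → Red true (2 * m + 1) G S

end Pool.Agent.W5h14.TV
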