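import Pool.Agent.W5h14.TV.RedDef
import Pool.Agent.W5h14.TV.HSCon
import Pool.Agent.W5h14.TV.Main

/-!
# `ℓ²`-vanishing for reducible flag spheres
-/

set_option autoImplicit false

namespace Pool.Agent.W5h14.TV

open Finset Classical
open Pool.Agent.W907.SG Pool.Agent.W907.SM Pool.Agent.W5h83.FS
open Pool.Agent.TH652.Above (HSph lv_set lv_univ singer_of_above)
open Pool.Agent.R781.VS (con)

theorem SpansTree.on {V : Type} {G : SimpleGraph V} {M : Finset V} (h : SpansTree G M) : TreeOn G M := by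
  induction h with
  | one w => exact TreeOn.one w
  | leaf M s t _ hs ht hst hl ih => exact TreeOn.leaf M s t ih hs ht hst hl

section
variable {V : Type} [Fintype V] [LinearOrder V] {G : SimpleGraph V}

/-- flag homology spheres are sphere-like -/
theorem HS.sp : ∀ (n : ℕ) (S : Finset V), HS G n S → Sp G n S := by
  intro n
  induction n with
  | zero => exact fun S h => h
  | succ n ih =>
    intro S h
    refine ⟨h.ne_empty, fun v hv => ⟨ih _ (h.2 v hv), ?_, ?_⟩⟩
    · obtain ⟨⟨x, hx⟩, hx1, hx2⟩ := hsph_ne h.hsph ⟨v, hv⟩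
      exact ⟨x, mem_mn.2 ⟨hx, fun h => hx1 (Subtype.ext h), hx2⟩⟩
    · intro C hC hne hCne
      obtain ⟨y, hy, hyC⟩ : ∃ y ∈ mn G S v, y ∉ C := by
        by_contra h1
        push Not at h1
        exact hCne (Subset.antisymm hC h1)
      obtain ⟨hy1, hy2, hy3⟩ := mem_mn.1 hy
      let C' : Finset ↥(S : Set V) := univ.filter fun x => x.1 ∈ C
      have hC' : ∀ x, x ∈ C' ↔ x.1 ∈ C := by
        intro x
        simp [C']
      obtain ⟨c0, hc0⟩ := hne
      have hc1 := mem_mn.1 (hC hc0)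
      obtain ⟨c, hc, d, hd, hd1, hadj⟩ := hsph_conn h.hsph ⟨v, hv⟩ C' (by
        intro c hc
        rw [hC'] at hc
        have h1 := mem_mn.1 (hC hc)
        exact ⟨fun h => h1.2.1 (congrArg Subtype.val h), h1.2.2⟩)
        ⟨⟨c0, hc1.1⟩, (hC' _).2 hc0⟩ ⟨y, hy1⟩
        ⟨fun h => hy2 (congrArg Subtype.val h), hy3⟩ (fun h => hyC ((hC' _).1 h))
      refine ⟨c.1, (hC' c).1 hc, d.1, mem_mn.2 ⟨d.2, ?_, hd1.2⟩, ?_, hadj⟩
      · intro h
        exact hd1.1 (Subtype.ext h)
      · intro h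
        exact hd ((hC' d).2 h)

/-- flag homology spheres of type 3 -/
theorem HS.jor {S : Finset V} (h : HS G 3 S) : Jor G S := by
  have hSp := HS.sp 3 S h
  refine ⟨hSp.1, sp_conn (n := 1) hSp, fun v hv => sp_cyc (hSp.nb hv), fun C hC hCyc hcon => ?_⟩
  let C' : Finset ↥(S : Set V) := univ.filter fun x => x.1 ∈ C
  have hC' : C'.image Subtype.val = C := by
    ext x
    simp only [C', mem_image, mem_filter, mem_univ, true_and, Subtype.exists, exists_and_right, exists_eq_right]
    constructor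
    · rintro ⟨_, h⟩
      exact h
    · intro h
      exact ⟨hC h, h⟩
  have h1 : Cyc (G.induce (S : Set V)) C' := cyc_sub (by rw [hC']; exact hCyc)
  have h2 : ∀ F : Finset ↥(S : Set V), (∀ x, x ∈ F ↔ x.1 ∉ C) → F.image Subtype.val = S \ C := by
    intro F hF
    ext x
    simp only [mem_image, mem_sdiff, hF, Subtype.exists, exists_and_right, exists_eq_right, mem_coe]
    exact ⟨fun ⟨h3, h4⟩ => ⟨h3, h4⟩, fun ⟨h3, h4⟩ => ⟨h3, h4⟩⟩
  refine sep_of_hsph h.hsph h1 ?_
  refine conn_sub ?_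
  rw [h2 _ (fun x => by simp [C'])]
  refine (congrArg (Conn G) ?_).mpr hcon
  ext x
  simp only [mem_sdiff]

/-- low dimensions -/
theorem lv_low : ∀ (n : ℕ) (S : Finset V), n ≤ 4 → HS G n S →
    ∀ A ⊆ S, ∀ i, n / 2 + 1 ≤ i → LV (G.induce (A : Set V)) i := by
  have l1 : ∀ S : Finset V, HS G 1 S → ∀ A ⊆ S, ∀ i, 1 ≤ i → LV (G.induce (A : Set V)) i := by
    intro S h A hA i hi
    have h1 := HS.sp 1 S h
    have h2 := sp_one_card h1
    exact main 1 1 S h1 le_rfl (by omega) A hA i (by omega)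
  have l2 : ∀ S : Finset V, HS G 2 S → ∀ A ⊆ S, ∀ i, 2 ≤ i → LV (G.induce (A : Set V)) i := by
    intro S h
    exact lv_even (k := 1) le_rfl fun x hx => l1 _ (h.2 x hx)
  have l3 : ∀ S : Finset V, HS G 3 S → ∀ A ⊆ S, ∀ i, 2 ≤ i → LV (G.induce (A : Set V)) i := by
    intro S h
    exact lv_subs (k := 2) (fun i hi => lv_jor G S h.jor i hi) fun x hx => l2 _ (h.2 x hx)
  have l4 : ∀ S : Finset V, HS G 4 S → ∀ A ⊆ S, ∀ i, 3 ≤ i → LV (G.induce (A : Set V)) i := by
    intro S h
    exact lv_even (k := 2) (by norm_num) fun x hx => l3 _ (h.2 x hx)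
  intro n S hn h A hA i hi
  rcases n with _ | _ | _ | _ | _ | n
  · have h1 : S = ∅ := h
    rw [h1, subset_empty] at hA
    rw [hA]
    exact lv_none i (by omega)
  · exact l1 S h A hA i (by omega)
  · exact l2 S h A hA i (by omega)
  · exact l3 S h A hA i (by omega)
  · exact l4 S h A hA i (by omega)
  · omega

end

/-- **`ℓ²`-vanishing for reducible flag spheres.** -/
theorem lv_red {V : Type} [Fintype V] [LinearOrder V] {b : Bool} {n : ℕ} {G : SimpleGraph V} {S : Finset V}
    (hR : Red b n G S) : HS G n S → ∀ A ⊆ S, (b = false → A = S) → ∀ i, n / 2 + 1 ≤ i →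
      LV (G.induce (A : Set V)) i := by
  induction hR with
  | low b n G S hn => exact fun hS A hA _ i hi => lv_low n S hn hS A hA i hi
  | few b n G S hc =>
    intro hS A hA _ i hi
    have hSp := HS.sp n S hS
    rcases Nat.even_or_odd' n with ⟨m, rfl | rfl⟩
    · exact main (2 * m) (2 * m + 1) S hSp (by omega) (by omega) A hA i (by omega)
    · exact main (2 * m + 1) (2 * m + 1) S hSp (by omega) (by omega) A hA i (by omega)
  | even b m G S _ ih =>
    intro hS
    have h3 := lv_even (G := G) (S := S) (k := (2 * m + 1) / 2 + 1) (by omega) fun x hx A hA i hi =>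
      ih x hx (hS.2 x hx) A hA (by simp) i hi
    intro A hA _ i hi
    exact h3 A hA i (by omega)
  | tree m G S v hv hT _ ih =>
    intro hS A _ hAS i hi
    rw [hAS rfl]
    refine lv_tree (n := 2 * m + 2) (HS.sp _ S hS) hv hT.on i fun a ha b hb hab j hj => ?_
    have h1 : HS G (2 * m + 2) (nb G S a) := hS.2 a (mem_mn.1 ha).1
    have h2 : HS G (2 * m + 1) (nb G (nb G S a) b) := h1.2 b (mem_nb.2 ⟨(mem_mn.1 hb).1, hab⟩)
    exact ih a ha b hb hab h2 _ (Subset.refl _) (fun _ => rfl) j (by omega)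
  | split m G S s t hs ht hst hq _ _ ih1 ih2 =>
    intro hS A _ hAS i hi
    rw [hAS rfl]
    refine lv_conF hs ht hst hq i ?_ fun j hj => ?_
    · refine ih2 ?_ _ (Subset.refl _) (fun _ => rfl) i hi
      refine (congrArg (HS (con G s t) (2 * m + 3)) ?_).mp (HS.con _ S s t hS hs ht hst hq)
      ext x
      simp only [mem_erase]
    · have h1 : HS G (2 * m + 2) (nb G S s) := hS.2 s hs
      have h2 : HS G (2 * m + 1) (nb G (nb G S s) t) := h1.2 t (mem_nb.2 ⟨ht, hst⟩)
      exact ih1 h2 _ (Subset.refl _) (fun _ => rfl) j (by omega)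
  | full m G S _ _ ih1 ih2 =>
    intro hS
    have h3 := lv_subs (G := G) (S := S) (k := m + 1) (fun i hi => ih1 hS S (Subset.refl _) (fun _ => rfl) i
      (by omega)) fun x hx A hA i hi => ih2 x hx (hS.2 x hx) A hA (by simp) i (by omega)
    intro A hA _ i hi
    exact h3 A hA i (by omega)

end Pool.Agent.W5h14.TV
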