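import Pool.Agent.W5h14.TV.Two
import Pool.Agent.W5h14.TV.Crit
import Pool.Agent.R703.CW.Link
import Pool.Agent.R703.MO.Small
import Pool.Agent.TH652.Dual7

/-!
# Induced cycles separate flag 2-spheres
-/

set_option autoImplicit false

namespace Pool.Agent.W5h14.TV

open Finset Classical
open Pool.Agent.W907.SG Pool.Agent.W907.SM Pool.Agent.W5h83.FS
open Pool.Agent.TH652.Above (HSph)
open Pool.Agent.TH652.Dual (triv duality mem_KK_triv exact_of_beta)

section conn
variable {U : Type} [Fintype U] [LinearOrder U] {H : SimpleGraph U}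

theorem sg_emp (a : U) : sg a (∅ : Finset U) = 1 := by
  unfold sg
  simp

/-- a connected set has no reduced homology in degree 0 -/
theorem exact_conn {M : Finset U} (hM : Conn H M) {g : Finset U → ℝ}
    (hg : g ∈ KK H (triv U) (M : Set U) ∅ 1) (hs : bd ℝ g = 0) :
    ∃ w ∈ KK H (triv U) (M : Set U) ∅ 2, bd ℝ w = g := by
  by_contra hcon
  have hgB : g ∉ (KK H (triv U) (M : Set U) ∅ 2).map (bd ℝ) := by
    rintro ⟨w, hw, h⟩
    exact hcon ⟨w, hw, h⟩
  obtain ⟨f, hf1, hf2⟩ := Submodule.exists_le_ker_of_notMem hgB
  have hfB : ∀ w ∈ KK H (triv U) (M : Set U) ∅ 2, f (bd ℝ w) = 0 := fun w hw =>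
    LinearMap.mem_ker.1 (hf2 ⟨w, hw, rfl⟩)
  set δ : U → Finset U → ℝ := fun u T => if T = {u} then 1 else 0 with hδ
  -- adjacent vertices have the same value
  have hadj : ∀ u ∈ M, ∀ t ∈ M, H.Adj u t → f (δ u) = f (δ t) := by
    intro u hu t ht hut
    set w : Finset U → ℝ := fun T => if T = {u, t} then 1 else 0 with hw
    have hwK : w ∈ KK H (triv U) (M : Set U) ∅ 2 := by
      rw [mem_KK_triv]
      intro T hT
      rw [hw]
      simp only
      rw [if_neg]
      rintro rfl
      apply hT
      refine ⟨?_, ?_, card_pair hut.ne⟩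
      · intro a ha b hb hab
        simp only [coe_insert, coe_singleton, Set.mem_insert_iff, Set.mem_singleton_iff] at ha hb
        rcases ha with rfl | rfl <;> rcases hb with rfl | rfl
        · exact absurd rfl hab
        · exact hut
        · exact hut.symm
        · exact absurd rfl hab
      · intro a ha
        simp only [coe_insert, coe_singleton, Set.mem_insert_iff, Set.mem_singleton_iff] at ha
        rcases ha with rfl | rfl
        · exact hu
        · exact ht
    have hbd : bd ℝ w = (sg t {u} : ℝ) • δ u + (sg u {t} : ℝ) • δ t := by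
      funext T
      rw [bd_apply]
      simp only [Pi.add_apply, Pi.smul_apply, smul_eq_mul, zsmul_eq_mul]
      by_cases h1 : T = {u}
      · subst h1
        rw [sum_eq_single t]
        · rw [hw, hδ]
          have h2 : insert t ({u} : Finset U) = {u, t} := pair_comm t u
          have h3 : ({u} : Finset U) ≠ {t} := fun h => hut.ne (singleton_injective h)
          simp only
          rw [if_pos h2, if_neg h3]
          simp
        · intro x _ hx
          rw [hw]
          simp only
          rw [if_neg, mul_zero]
          intro h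
          have h2 : x ∈ ({u, t} : Finset U) := h ▸ mem_insert_self x _
          rw [mem_insert, mem_singleton] at h2
          rcases h2 with h2 | h2
          · rw [h2] at h
            have h3 : ({u} : Finset U) = {u, t} := by rw [← h]; simp
            have h4 : t ∈ ({u} : Finset U) := h3 ▸ (by simp)
            exact hut.ne (mem_singleton.1 h4).symm
          · exact hx h2
        · intro h
          rw [mem_compl, mem_singleton, not_not] at h
          exact absurd h.symm hut.ne
      · by_cases h1' : T = {t}
        · subst h1'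
          rw [sum_eq_single u]
          · rw [hw, hδ]
            have h3 : ({t} : Finset U) ≠ {u} := fun h => hut.ne (singleton_injective h).symm
            simp only
            rw [if_neg h3]
            simp
          · intro x _ hx
            rw [hw]
            simp only
            rw [if_neg, mul_zero]
            intro h
            have h2 : x ∈ ({u, t} : Finset U) := h ▸ mem_insert_self x _
            rw [mem_insert, mem_singleton] at h2
            rcases h2 with h2 | h2
            · exact hx h2
            · rw [h2] at h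
              have h3 : ({t} : Finset U) = {u, t} := by rw [← h]; simp
              have h4 : u ∈ ({t} : Finset U) := h3 ▸ (by simp)
              exact hut.ne (mem_singleton.1 h4)
          · intro h
            rw [mem_compl, mem_singleton, not_not] at h
            exact absurd h hut.ne
        · rw [hδ]
          simp only
          rw [if_neg h1, if_neg h1', mul_zero, mul_zero, add_zero]
          refine sum_eq_zero fun x hx => ?_
          rw [hw]
          simp only
          rw [if_neg, mul_zero]
          intro h
          rw [mem_compl] at hx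
          have h2 : x ∈ ({u, t} : Finset U) := h ▸ mem_insert_self x _
          have h3 : T = ({u, t} : Finset U).erase x := by rw [← h, erase_insert hx]
          rw [mem_insert, mem_singleton] at h2
          rcases h2 with h2 | h2
          · apply h1'
            rw [h3, h2, erase_insert]
            simpa using hut.ne
          · apply h1
            rw [h3, h2, pair_comm, erase_insert]
            simpa using hut.ne.symm
    have h1 := hfB w hwK
    rw [hbd, map_add, map_smul, map_smul] at h1
    have h2 := sg_swap t u ∅ hut.ne.symm (notMem_empty _) (notMem_empty _)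
    rw [sg_emp, sg_emp, mul_one, mul_one] at h2
    have h3 : sg t {u} = - sg u {t} := h2
    have h4 : sg u {t} * sg u {t} = 1 := sg_mul_self u {t}
    rw [h3] at h1
    have h5 : (sg u {t} : ℝ) * (sg u {t} : ℝ) = 1 := by exact_mod_cast h4
    push_cast at h1
    simp only [smul_eq_mul] at h1
    have h6 : (sg u {t} : ℝ) * (f (δ t) - f (δ u)) = 0 := by linear_combination h1
    rcases mul_eq_zero.1 h6 with h7 | h7
    · rw [h7] at h5
      norm_num at h5
    · linarith
  rw [mem_KK_triv] at hg
  -- the values are constant
  have hsum : g = ∑ u ∈ M, g {u} • δ u := by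
    funext T
    rw [Finset.sum_apply]
    by_cases h : ∃ u ∈ M, T = {u}
    · obtain ⟨u, hu, rfl⟩ := h
      rw [sum_eq_single u]
      · simp [hδ]
      · intro b _ hb
        simp only [hδ, Pi.smul_apply, smul_eq_mul]
        rw [if_neg, mul_zero]
        exact fun h => hb (singleton_injective h).symm
      · intro h
        exact absurd hu h
    · have h1 : g T = 0 := by
        refine hg T fun h2 => h ?_
        obtain ⟨u, hu⟩ := card_eq_one.1 h2.2.2
        refine ⟨u, ?_, hu⟩
        have := h2.2.1 (show u ∈ (T : Set U) by rw [hu]; simp)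
        exact this
      rw [h1]
      symm
      refine sum_eq_zero fun u hu => ?_
      simp only [hδ, Pi.smul_apply, smul_eq_mul]
      rw [if_neg, mul_zero]
      exact fun h2 => h ⟨u, hu, h2⟩
  have hzero : ∑ u ∈ M, g {u} = 0 := by
    have h1 := congrFun hs ∅
    rw [bd_apply, Pi.zero_apply] at h1
    have h2 : ∀ v ∈ (∅ : Finset U)ᶜ, sg v (∅ : Finset U) • g (insert v ∅) = if v ∈ M then g {v} else 0 := by
      intro v _
      rw [sg_emp, one_smul]
      have e : insert v (∅ : Finset U) = {v} := rfl
      rw [e]
      split_ifs with h3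
      · rfl
      · refine hg _ fun h4 => h3 ?_
        exact h4.2.1 (show v ∈ (({v} : Finset U) : Set U) by simp)
    rw [sum_congr rfl h2, ← sum_filter] at h1
    rw [← h1]
    refine sum_congr ?_ fun _ _ => rfl
    ext x
    simp
  rcases M.eq_empty_or_nonempty with hMe | ⟨u0, hu0⟩
  · apply hf1
    rw [hsum, hMe, sum_empty, map_zero]
  · have hconst : ∀ u ∈ M, f (δ u) = f (δ u0) := by
      by_contra h1
      push Not at h1
      obtain ⟨u, hu, hu1⟩ := h1
      obtain ⟨c, hc, d, hd, hdC, hcd⟩ := hM (M.filter fun x => f (δ x) = f (δ u0)) (filter_subset _ _)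
        ⟨u0, mem_filter.2 ⟨hu0, rfl⟩⟩ (by
          intro h2
          rw [← h2, mem_filter] at hu
          exact hu1 hu.2)
      rw [mem_filter] at hc hdC
      exact hdC ⟨hd, by rw [← hadj c hc.1 d hd hcd, hc.2]⟩
    apply hf1
    rw [hsum, map_sum]
    have h1 : ∀ u ∈ M, f (g {u} • δ u) = g {u} * f (δ u0) := by
      intro u hu
      rw [map_smul, smul_eq_mul, hconst u hu]
    rw [sum_congr rfl h1, ← sum_mul, hzero, zero_mul]

/-- a cycle has at least as many edges as vertices -/
theorem cyc_card {C : Finset U} (hC : Cyc H C) :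
    C.card ≤ (univ.filter fun T : Finset U => H.IsClique (T : Set U) ∧ T ⊆ C ∧ T.card = 2).card := by
  set D : Finset (Σ _ : U, U) := C.sigma fun v => nb H C v with hD
  have h1 : D.card = 2 * C.card := by
    rw [hD, card_sigma, sum_congr rfl fun v hv => hC.2.2 v hv, sum_const, smul_eq_mul, mul_comm]
  have h2 := card_le_mul_card_image (f := fun p : (Σ _ : U, U) => ({p.1, p.2} : Finset U)) D 2 (by
    intro e he
    rw [mem_image] at he
    obtain ⟨⟨a, b⟩, hab, rfl⟩ := he
    have h3 : {x ∈ D | ({x.1, x.2} : Finset U) = {a, b}} ⊆ {⟨a, b⟩, ⟨b, a⟩} := by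
      rintro ⟨c, d⟩ hcd
      rw [mem_filter] at hcd
      obtain ⟨hcd1, hcd2⟩ := hcd
      rw [hD, mem_sigma] at hcd1
      have hcd3 : c ≠ d := (mem_nb.1 hcd1.2).2.ne
      have e1 : c ∈ ({a, b} : Finset U) := hcd2 ▸ (by simp)
      have e2 : d ∈ ({a, b} : Finset U) := hcd2 ▸ (by simp)
      rw [mem_insert, mem_singleton] at e1 e2
      rw [mem_insert, mem_singleton]
      rcases e1 with rfl | rfl <;> rcases e2 with rfl | rfl
      · exact absurd rfl hcd3
      · exact Or.inl rfl
      · exact Or.inr rfl
      · exact absurd rfl hcd3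
    exact (card_le_card h3).trans card_le_two)
  have h3 : D.image (fun p : (Σ _ : U, U) => ({p.1, p.2} : Finset U)) ⊆
      univ.filter fun T : Finset U => H.IsClique (T : Set U) ∧ T ⊆ C ∧ T.card = 2 := by
    intro e he
    rw [mem_image] at he
    obtain ⟨⟨a, b⟩, hab, rfl⟩ := he
    rw [hD, mem_sigma] at hab
    obtain ⟨ha, hb⟩ := hab
    have hb' := mem_nb.1 hb
    simp only at ha hb'
    rw [mem_filter]
    refine ⟨mem_univ _, ?_, ?_, card_pair hb'.2.ne⟩
    · intro x hx y hy hxy
      simp only [coe_insert, coe_singleton, Set.mem_insert_iff, Set.mem_singleton_iff] at hx hy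
      rcases hx with rfl | rfl <;> rcases hy with rfl | rfl
      · exact absurd rfl hxy
      · exact hb'.2
      · exact hb'.2.symm
      · exact absurd rfl hxy
    · intro x hx
      rw [mem_insert, mem_singleton] at hx
      rcases hx with rfl | rfl
      · exact ha
      · exact hb'.1
  have h4 := card_le_card h3
  omega

/-- the fundamental class of a cycle -/
theorem cyc_class {C : Finset U} (hC : Cyc H C) :
    ∃ z ∈ KK H (triv U) (C : Set U) ∅ 2, z ≠ 0 ∧ bd ℝ z = 0 := by
  set E : Finset (Finset U) := univ.filter fun T : Finset U => H.IsClique (T : Set U) ∧ T ⊆ C ∧ T.card = 2 with hE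
  have hcard : C.card ≤ E.card := cyc_card hC
  have hCne : C.Nonempty := by
    rw [← card_pos]
    have := hC.1
    omega
  obtain ⟨v0, hv0⟩ := hCne
  let ext : (↥E → ℝ) →ₗ[ℝ] (Finset U → ℝ) :=
    { toFun := fun x T => if h : T ∈ E then x ⟨T, h⟩ else 0
      map_add' := by
        intro x y
        funext T
        simp only [Pi.add_apply]
        split_ifs <;> simp
      map_smul' := by
        intro a x
        funext T
        simp only [Pi.smul_apply, RingHom.id_apply]
        split_ifs <;> simp }
  have hext : ∀ x T, ext x T = if h : T ∈ E then x ⟨T, h⟩ else 0 := fun x T => rfl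
  let L : (↥E → ℝ) →ₗ[ℝ] (↥(C.erase v0) → ℝ) :=
    (LinearMap.pi fun v : ↥(C.erase v0) => (LinearMap.proj ({v.1} : Finset U) : (Finset U → ℝ) →ₗ[ℝ] ℝ)) ∘ₗ
      bd ℝ ∘ₗ ext
  have hL : ∀ x v, L x v = bd ℝ (ext x) {v.1} := fun x v => rfl
  have hker : LinearMap.ker L ≠ ⊥ := by
    refine LinearMap.ker_ne_bot_of_finrank_lt ?_
    rw [Module.finrank_fintype_fun_eq_card, Module.finrank_fintype_fun_eq_card, Fintype.card_coe,
      Fintype.card_coe, card_erase_of_mem hv0]
    have := hC.1
    omega
  obtain ⟨x, hx, hx0⟩ := Submodule.exists_mem_ne_zero_of_ne_bot hker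
  rw [LinearMap.mem_ker] at hx
  have hKK : ext x ∈ KK H (triv U) (C : Set U) ∅ 2 := by
    rw [mem_KK_triv]
    intro T hT
    rw [hext, dif_neg]
    intro h
    rw [hE, mem_filter] at h
    exact hT ⟨h.2.1, by exact_mod_cast h.2.2.1, h.2.2.2⟩
  have hb1 := bd_mem_KK (F := ℝ) (i := 1) hKK
  rw [mem_KK_triv] at hb1
  refine ⟨ext x, hKK, ?_, ?_⟩
  · intro h
    apply hx0
    funext T
    have h1 := congrFun h T.1
    rw [hext, dif_pos T.2] at h1
    exact h1
  · have h1 : ∀ v, v ≠ v0 → bd ℝ (ext x) {v} = 0 := by
      intro v hv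
      by_cases hvC : v ∈ C
      · have h2 := congrFun hx ⟨v, mem_erase.2 ⟨hv, hvC⟩⟩
        rw [hL] at h2
        exact h2
      · refine hb1 _ fun h => hvC ?_
        exact h.2.1 (show v ∈ (({v} : Finset U) : Set U) by simp)
    have h2 : bd ℝ (ext x) {v0} = 0 := by
      have h3 := congrFun (bd_bd (F := ℝ) (ext x)) ∅
      rw [bd_apply, Pi.zero_apply, sum_eq_single v0] at h3
      · rw [sg_emp, one_smul] at h3
        exact h3
      · intro v _ hv
        rw [show insert v (∅ : Finset U) = {v} from rfl, h1 v hv, smul_zero]
      · intro h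
        simp at h
    funext T
    rw [Pi.zero_apply]
    by_cases hT : T.card = 1
    · obtain ⟨v, rfl⟩ := card_eq_one.1 hT
      by_cases hv : v = v0
      · rw [hv, h2]
      · exact h1 v hv
    · exact hb1 T fun h => hT h.2.2

/-- the vertices of `C` exchange the two points -/
noncomputable def actC (C : Finset U) (u : U) (b : Bool) : Bool := if u ∈ C then !b else b

theorem actC_inv (C : Finset U) (u : U) (b : Bool) : actC C u (actC C u b) = b := by
  unfold actC
  split_ifs
  · simp
  · rfl

theorem actC_comm (C : Finset U) (u w : U) (b : Bool) : actC C u (actC C w b) = actC C w (actC C u b) := by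
  unfold actC
  split_ifs <;> simp

theorem lhs_pos {C : Finset U} (hC : Cyc H C) : 0 < beta H (pull ℝ (actC C)) Set.univ ∅ 2 := by
  obtain ⟨z, hz, hz0, hzb⟩ := cyc_class hC
  rw [mem_KK_triv] at hz
  have hBB : BB H (pull ℝ (actC C)) Set.univ ∅ 2 = ⊥ := by
    rw [eq_bot_iff]
    rintro _ ⟨w, hw, rfl⟩
    have hw' := mem_KK.1 hw
    have : w = 0 := by
      funext T
      by_cases hT : H.IsClique (T : Set U) ∧ (T : Set U) ⊆ Set.univ ∧ T.card = 3
      · by_cases h1 : T ⊆ C
        · exfalso
          obtain ⟨a, b, c, hab, hac, hbc, rfl⟩ := card_eq_three.1 hT.2.2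
          have ha : a ∈ C := h1 (by simp)
          have hb : b ∈ C := h1 (by simp)
          have hc : c ∈ C := h1 (by simp)
          exact hC.notri ha hb hc (hT.1 (by simp) (by simp) hab) (hT.1 (by simp) (by simp) hac)
            (hT.1 (by simp) (by simp) hbc)
        · obtain ⟨t, ht, htC⟩ := not_subset.1 h1
          have h2 := hw'.2 T t (Or.inl ht)
          funext b
          have h3 := congrFun h2 b
          have h4 : w T (actC C t b) = - w T b := h3
          unfold actC at h4
          rw [if_neg htC] at h4
          change w T b = 0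
          linarith
      · exact hw'.1 T hT
    rw [this, map_zero]
    exact Submodule.zero_mem _
  unfold beta
  rw [hBB, finrank_bot, Nat.sub_zero]
  set e : Bool → ℝ := fun b => if b then 1 else -1 with he
  set Z : Finset U → Bool → ℝ := fun T => z T • e with hZ
  have hZK : Z ∈ ZZ H (pull ℝ (actC C)) Set.univ ∅ 2 := by
    refine ⟨mem_KK.2 ⟨fun T hT => ?_, fun T t ht => ?_⟩, LinearMap.mem_ker.2 ?_⟩
    · rw [hZ]
      simp only
      rw [hz T fun h => hT ⟨h.1, Set.subset_univ _, h.2.2⟩, zero_smul]
    · rcases ht with ht | ht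
      · by_cases htC : t ∈ C
        · funext b
          change z T * e (actC C t b) = - (z T * e b)
          unfold actC
          rw [if_pos htC, he]
          cases b <;> simp
        · have h1 : z T = 0 := hz T fun h => htC (h.2.1 (mem_coe.2 ht))
          rw [hZ]
          simp only
          rw [h1, zero_smul, map_zero, neg_zero]
      · exact absurd ht (Set.notMem_empty t)
    · funext T
      rw [bd_apply]
      have h1 := congrFun hzb T
      rw [bd_apply, Pi.zero_apply] at h1
      have h2 : ∀ v ∈ Tᶜ, sg v T • Z (insert v T) = (sg v T • z (insert v T)) • e := by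
        intro v _
        rw [hZ]
        simp only
        rw [smul_assoc]
      rw [sum_congr rfl h2, ← sum_smul, h1, zero_smul]
      rfl
  have hZ0 : Z ≠ 0 := by
    intro h
    apply hz0
    funext T
    have h1 := congrFun (congrFun h T) true
    rw [hZ] at h1
    simp only [Pi.smul_apply, he, smul_eq_mul, if_true, mul_one, Pi.zero_apply] at h1
    exact h1
  rw [Module.finrank_pos_iff_exists_ne_zero]
  exact ⟨⟨Z, hZK⟩, fun h => hZ0 (congrArg Subtype.val h)⟩

theorem rhs_zeroC {n : ℕ} (hS : HSph (n + 2) H) {C : Finset U} (hM : Conn H (univ \ C)) :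
    beta H (fun u => - pull ℝ (actC C) u) Set.univ ∅ 1 = 0 := by
  refine Pool.Agent.R703.MO.beta_zero_of fun z hz hb => ?_
  have hz' := mem_KK.1 hz
  have hinv : ∀ T : Finset U, ∀ t ∈ T, ∀ b, z T (actC C t b) = z T b := by
    intro T t ht b
    have h1 := hz'.2 T t (Or.inl ht)
    have h2 := congrFun h1 b
    have h3 : -(z T (actC C t b)) = -(z T b) := h2
    exact neg_injective h3
  have hbd : ∀ T b, ∑ u ∈ Tᶜ, sg u T • z (insert u T) b = 0 := by
    intro T b
    have h1 := congrFun (congrFun hb T) b
    rw [bd_apply] at h1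
    rw [Finset.sum_apply] at h1
    exact h1
  -- the constant part
  set f : Finset U → ℝ := fun T => (1 / 2 : ℝ) * (z T true + z T false) with hf
  set g : Finset U → ℝ := fun T => (1 / 2 : ℝ) * (z T true - z T false) with hg
  have hfZ : f ∈ ZZ H (triv U) (lk H ∅) ∅ 1 := by
    refine ⟨mem_KK_triv.2 fun T hT => ?_, LinearMap.mem_ker.2 ?_⟩
    · have h1 := hz'.1 T (fun h => hT ⟨h.1, by
        intro x _ u hu
        exact absurd hu (notMem_empty u), h.2.2⟩)
      rw [hf]
      simp only
      rw [h1]
      simp
    · funext T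
      rw [bd_apply, Pi.zero_apply]
      have h1 := hbd T true
      have h2 := hbd T false
      have h3 : ∀ u ∈ Tᶜ, sg u T • f (insert u T) = (1 / 2 : ℝ) * (sg u T • z (insert u T) true) +
          (1 / 2 : ℝ) * (sg u T • z (insert u T) false) := by
        intro u _
        rw [hf]
        simp only [zsmul_eq_mul]
        ring
      rw [sum_congr rfl h3, sum_add_distrib, ← mul_sum, ← mul_sum, h1, h2]
      simp
  have hbeta : beta H (triv U) (lk H ∅) ∅ 1 = 0 := by
    have h1 := hS ∅ (by simp) 1
    rw [if_neg (by simp)] at h1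
    exact h1
  rw [← exact_of_beta hbeta] at hfZ
  obtain ⟨y, hy, hyf⟩ := hfZ
  -- the antisymmetric part
  have hg0 : ∀ T : Finset U, ∀ t ∈ T, t ∈ C → g T = 0 := by
    intro T t ht hM
    have h1 := hinv T t ht true
    unfold actC at h1
    rw [if_pos hM] at h1
    rw [hg]
    simp only
    have h2 : z T (!true) = z T true := h1
    rw [Bool.not_true] at h2
    rw [h2, sub_self, mul_zero]
  have hgK : g ∈ KK H (triv U) ((univ \ C : Finset U) : Set U) ∅ 1 := by
    rw [mem_KK_triv]
    intro T hT
    by_cases h1 : ∃ t ∈ T, t ∈ C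
    · obtain ⟨t, ht, htC⟩ := h1
      exact hg0 T t ht htC
    · push Not at h1
      have h2 := hz'.1 T (fun h => hT ⟨h.1, by
        intro x hx
        rw [coe_sdiff]
        exact ⟨by simp, fun hxC => h1 x hx hxC⟩, h.2.2⟩)
      rw [hg]
      simp only
      rw [h2]
      simp
  have hgb : bd ℝ g = 0 := by
    funext T
    rw [bd_apply, Pi.zero_apply]
    have h1 := hbd T true
    have h2 := hbd T false
    have h3 : ∀ u ∈ Tᶜ, sg u T • g (insert u T) = (1 / 2 : ℝ) * (sg u T • z (insert u T) true) -
        (1 / 2 : ℝ) * (sg u T • z (insert u T) false) := by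
      intro u _
      rw [hg]
      simp only [zsmul_eq_mul]
      ring
    rw [sum_congr rfl h3, sum_sub_distrib, ← mul_sum, ← mul_sum, h1, h2]
    simp
  obtain ⟨w, hw, hwg⟩ := exact_conn hM hgK hgb
  rw [mem_KK_triv] at hw
  replace hy := mem_KK_triv.1 hy
  refine ⟨fun T b => y T + (if b then w T else - w T), mem_KK.2 ⟨fun T hT => ?_, fun T t ht => ?_⟩, ?_⟩
  · have h1 := hy T (fun h => hT ⟨h.1, Set.subset_univ _, h.2.2⟩)
    have h2 := hw T (fun h => hT ⟨h.1, Set.subset_univ _, h.2.2⟩)
    funext b
    change y T + (if b then w T else - w T) = 0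
    rw [h1, h2]
    simp
  · rcases ht with ht | ht
    · funext b
      change -(y T + (if actC C t b then w T else - w T)) = -(y T + (if b then w T else - w T))
      by_cases htC : t ∈ C
      · have h1 : w T = 0 := hw T fun h => by
          have h2 := h.2.1 (mem_coe.2 ht)
          rw [coe_sdiff] at h2
          exact h2.2 htC
        rw [h1]
        simp
      · unfold actC
        rw [if_neg htC]
    · exact absurd ht (Set.notMem_empty t)
  · funext T b
    rw [bd_apply, Finset.sum_apply]
    have h1 := congrFun hyf T
    rw [bd_apply] at h1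
    have h2 := congrFun hwg T
    rw [bd_apply] at h2
    cases b
    · have h3 : ∀ c ∈ Tᶜ, (sg c T • fun b => y (insert c T) + (if b = true then w (insert c T) else - w (insert c T)))
          false = sg c T • y (insert c T) - sg c T • w (insert c T) := by
        intro c _
        simp only [Pi.smul_apply, zsmul_eq_mul, Bool.false_eq_true, if_false]
        ring
      rw [sum_congr rfl h3, sum_sub_distrib, h1, h2, hf, hg]
      simp only
      ring
    · have h3 : ∀ c ∈ Tᶜ, (sg c T • fun b => y (insert c T) + (if b = true then w (insert c T) else - w (insert c T)))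
          true = sg c T • y (insert c T) + sg c T • w (insert c T) := by
        intro c _
        simp only [Pi.smul_apply, zsmul_eq_mul, if_true]
        ring
      rw [sum_congr rfl h3, sum_add_distrib, h1, h2, hf, hg]
      simp only
      ring

/-- **Induced cycles separate.** -/
theorem sep_of_hsph (hS : HSph 3 H) {C : Finset U} (hC : Cyc H C) : ¬ Conn H (univ \ C) := by
  intro hM
  have h1 := duality (G := H) (a := actC C) (n := 3) (actC_inv C)
    (fun u w _ b => actC_comm C u w b) hS (i := 2) (j := 1) (by omega)
  rw [rhs_zeroC (n := 1) hS hM] at h1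
  have h2 := lhs_pos hC
  omega

end conn

end Pool.Agent.W5h14.TV
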