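import Pool.Agent.W5h14.TV.SumMain
import Pool.Agent.W5h14.TV.OfH
import Pool.Agent.TH652.Above

/-!
# All flag subcomplexes of a reducible flag sphere
-/

set_option autoImplicit false

namespace Pool.Agent.W5h14.TV

open Finset Classical
open Pool.Agent.W907.SG Pool.Agent.W907.SM Pool.Agent.W5h83.FS
open Pool.Agent.TH652.Above (HSph lv_set lv_univ singer_of_above P P_emb P_sub)
open Pool.Agent.W907.SM.Clo (Lk mem_Lk esub_some_some)

/-- The links of all simplices of the flag complex of `G`, a sphere of dimension `n - 1`, are reducible. -/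
def RedL {V : Type} [Fintype V] [LinearOrder V] (n : ℕ) (G : SimpleGraph V) : Prop :=
  ∀ (T : Finset V) (k : ℕ), G.IsClique (T : Set V) → T.card + k = n → RedS true k G (lkF G T)

/-- deletion of an edge -/
theorem P_del {n : ℕ} {V : Type} (G : SimpleGraph V) {s t : V} (hst : G.Adj s t) (h : P n G) :
    P n (G.deleteEdges {s(s, t)}) := by
  have φ : G.deleteEdges {s(s, t)} ↪g esub G s t := ⟨⟨some, Option.some_injective _⟩, by
    intro a b
    show (esub G s t).Adj (some a) (some b) ↔ _
    rw [esub_some_some, SimpleGraph.deleteEdges_adj, Set.mem_singleton_iff, Sym2.eq_iff]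
    tauto⟩
  exact P_emb _ _ φ (P_sub G s t hst h)

/-- subgraphs -/
theorem P_le {n : ℕ} {V : Type} {G H : SimpleGraph V} (hle : H ≤ G) (h : P n G) : P n H := by
  have hfin := h.1
  have key : ∀ F : Set (Sym2 V), F.Finite → P n (G.deleteEdges F) := by
    intro F hF
    induction F, hF using Set.Finite.induction_on with
    | empty => rwa [SimpleGraph.deleteEdges_empty]
    | @insert e F _ _ ih =>
      have h1 : G.deleteEdges (insert e F) = (G.deleteEdges F).deleteEdges {e} := by
        rw [SimpleGraph.deleteEdges_deleteEdges, Set.union_comm, Set.insert_eq]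
      rw [h1]
      induction e using Sym2.ind with
      | _ a b =>
        by_cases hab : (G.deleteEdges F).Adj a b
        · exact P_del _ hab ih
        · have h2 : (G.deleteEdges F).deleteEdges {s(a, b)} = G.deleteEdges F := by
            ext x y
            rw [SimpleGraph.deleteEdges_adj (G := G.deleteEdges F), Set.mem_singleton_iff]
            refine ⟨fun h => h.1, fun h => ⟨h, fun h3 => hab ?_⟩⟩
            rw [← SimpleGraph.mem_edgeSet, ← h3, SimpleGraph.mem_edgeSet]
            exact h
          rwa [h2]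
  have h3 := key (G.edgeSet \ H.edgeSet) (Set.toFinite _)
  have h4 : G.deleteEdges (G.edgeSet \ H.edgeSet) = H := by
    ext x y
    rw [SimpleGraph.deleteEdges_adj, Set.mem_sdiff, SimpleGraph.mem_edgeSet, SimpleGraph.mem_edgeSet]
    constructor
    · rintro ⟨h5, h6⟩
      by_contra h7
      exact h6 ⟨h5, h7⟩
    · exact fun h5 => ⟨hle h5, fun h6 => h6.2 h5⟩
  rwa [h4] at h3

variable {V : Type} [Fintype V] [LinearOrder V] {G : SimpleGraph V}

theorem P_redL {n : ℕ} (hS : HSph n G) (hR : RedL n G) : P n G := by
  refine ⟨inferInstance, fun T hT A hA i hi => ?_⟩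
  have hk : T.card ≤ n := Pool.Agent.R703.CW.card_le_of_hsph hS T hT
  have hf : Fintype ↥A := Fintype.ofFinite _
  have h1 := lv_redS (hR T (n - T.card) hT (by omega)) (HS.of_hsph_lk hS _ T hT (by omega)) A.toFinset (by
    intro x hx
    rw [Set.mem_toFinset] at hx
    rw [mem_lkF]
    exact fun u hu => (hA hx u hu).symm) (by simp) i (by omega)
  exact lv_set (by rw [Set.coe_toFinset]) h1

/-- **All flag subcomplexes.** -/
theorem redL_sub {n : ℕ} (hS : HSph n G) (hR : RedL n G) {H : SimpleGraph V} (hle : H ≤ G) (A : Set V) (i : ℕ)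
    (hi : n < 2 * i) : LV (H.induce A) i := by
  have h1 : P n H := P_le hle (P_redL hS hR)
  refine h1.2 ∅ (by simp) A ?_ i (by simpa using hi)
  intro a _ t ht
  exact absurd ht (notMem_empty t)

theorem lkF_empty : lkF G (∅ : Finset V) = univ := by
  ext x
  rw [mem_lkF]
  simp

theorem redL_five {n : ℕ} (hn : n ≤ 5) (hR : RedS true n G univ) : RedL n G := by
  intro T k _ hk
  rcases T.eq_empty_or_nonempty with rfl | hT
  · rw [card_empty] at hk
    obtain rfl : k = n := by omega
    rwa [lkF_empty]
  · have := card_pos.2 hT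
    exact RedS.low _ _ _ _ (by omega)

theorem redL_crit {n : ℕ}
    (hc : ∀ (T : Finset V) (m : ℕ), G.IsClique (T : Set V) → T.card + (2 * m + 5) = n →
      2 * (lkF G T).card ≤ 5 * (2 * m + 5) + 2 ∨ ∃ v ∈ lkF G T, SpansTree G (mn G (lkF G T) v)) :
    RedL n G := fun T k hT hk => redS_of_red (red_of_crit hc k T true hT hk)

theorem redL_univ {n : ℕ} (h : RedL n G) : RedS true n G univ := by
  have h1 := h ∅ n (by simp) (by simp)
  rwa [lkF_empty] at h1

end Pool.Agent.W5h14.TV
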