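import Pool.Agent.W5h14.TV.SumDef
import Pool.Agent.W5h14.TV.HSCone
import Pool.Agent.W5h14.TV.GlueF
import Pool.Agent.W5h14.TV.RedLV
import Pool.Agent.W5h83.TV2.EvenU

/-!
# `ℓ²`-vanishing for reducible flag spheres, with connected sums
-/

set_option autoImplicit false

namespace Pool.Agent.W5h14.TV

open Finset Classical
open Pool.Agent.W907.SG Pool.Agent.W907.SM Pool.Agent.W5h83.FS
open Pool.Agent.TH652.Above (HSph lv_set lv_univ singer_of_above lv_img)
open Pool.Agent.R781.VS (con)

/-- transport to a graph which agrees on the set -/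
theorem lv_agree {V : Type} {G H : SimpleGraph V} {A : Set V} (h : ∀ x ∈ A, ∀ y ∈ A, (G.Adj x y ↔ H.Adj x y)) {i : ℕ}
    (h1 : LV (G.induce A) i) : LV (H.induce A) i := by
  have h2 := (lv_img (H := G) (G := H) id A (fun _ _ _ _ h => h) (fun a ha b hb => (h a ha b hb).symm) i).1 h1
  rwa [Set.image_id] at h2

theorem lv_finset {V : Type} {G : SimpleGraph V} {A B : Finset V} (h : B = A) {i : ℕ}
    (hA : LV (G.induce (A : Set V)) i) : LV (G.induce (B : Set V)) i := by
  rw [h]; exact hA

/-- **`ℓ²`-vanishing for reducible flag spheres.** -/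
theorem lv_redS {V : Type} [Fintype V] [LinearOrder V] {b : Bool} {n : ℕ} {G : SimpleGraph V} {S : Finset V}
    (hR : RedS b n G S) : HS G n S → ∀ A ⊆ S, (b = false → A = S) → ∀ i, n / 2 + 1 ≤ i →
      LV (G.induce (A : Set V)) i := by
  induction hR with
  | low b n G S hn => exact fun hS A hA _ i hi => lv_low n S hn hS A hA i hi
  | few b n G S hc =>
    intro hS A hA _ i hi
    have hSp := HS.sp n S hS
    rcases Nat.even_or_odd' n with ⟨m, rfl | rfl⟩
    · exact main (2 * m) (2 * m + 1) S hSp (by omega) (by omega) A hA i (by omega)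
    · exact main (2 * m + 1) (2 * m + 1) S hSp (by omega) (by omega) A hA i (by omega)
  | even b m G S U hU _ ih =>
    intro hS
    have h3 := Pool.Agent.W5h83.TV2.lv_evenU (G := G) (S := S) (U := U) (k := m + 1) hU fun x hx hxU A hA i
      hi => ih x hx hxU (hS.2 x hx) A hA (by simp) i (by omega)
    intro A hA _ i hi
    exact h3 A hA i (by omega)
  | tree m G S v hv hT _ ih =>
    intro hS A _ hAS i hi
    rw [hAS rfl]
    refine lv_tree (n := 2 * m + 2) (HS.sp _ S hS) hv hT.on i fun a ha b hb hab j hj => ?_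
    have h1 : HS G (2 * m + 2) (nb G S a) := hS.2 a (mem_mn.1 ha).1
    have h2 : HS G (2 * m + 1) (nb G (nb G S a) b) := h1.2 b (mem_nb.2 ⟨(mem_mn.1 hb).1, hab⟩)
    exact ih a ha b hb hab h2 _ (Subset.refl _) (fun _ => rfl) j (by omega)
  | split m G S s t hs ht hst hq _ _ ih1 ih2 =>
    intro hS A _ hAS i hi
    rw [hAS rfl]
    refine lv_conF hs ht hst hq i ?_ fun j hj => ?_
    · refine lv_finset ?_ (ih2 ?_ _ (Subset.refl _) (fun _ => rfl) i hi)
      · ext x
        simp only [mem_erase]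
      · refine (congrArg (HS (con G s t) (2 * m + 3)) ?_).mp (HS.con _ S s t hS hs ht hst hq)
        ext x
        simp only [mem_erase]
    · have h1 : HS G (2 * m + 2) (nb G S s) := hS.2 s hs
      have h2 : HS G (2 * m + 1) (nb G (nb G S s) t) := h1.2 t (mem_nb.2 ⟨ht, hst⟩)
      exact ih1 h2 _ (Subset.refl _) (fun _ => rfl) j (by omega)
  | full m G S _ _ ih1 ih2 =>
    intro hS
    have h3 := lv_subs (G := G) (S := S) (k := m + 1) (fun i hi => ih1 hS S (Subset.refl _) (fun _ => rfl) i
      (by omega)) fun x hx A hA i hi => ih2 x hx (hS.2 x hx) A hA (by simp) i (by omega)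
    intro A hA _ i hi
    exact h3 A hA i (by omega)
  | sum b n G A B p q hpB hpA hqA hqB hno hE _ _ ih1 ih2 =>
    intro hS D hD hb i hi
    have hno' : ∀ x ∈ B, x ∉ A → ∀ y ∈ A, y ∉ B → ¬ G.Adj x y := fun x hx hx' y hy hy' hxy =>
      hno y hy hy' x hx hx' hxy.symm
    have hc1 : HS (coneAt G (A ∩ B) p) (n + 1) (insert p A) :=
      HS.cone n A B p hS hno hE ⟨q, hqA, hqB⟩ ⟨p, hpB, hpA⟩ hpA
    have hc2 : HS (coneAt G (A ∩ B) q) (n + 1) (insert q B) := by
      have h1 := HS.cone (G := G) n B A q (by rw [union_comm]; exact hS) hno' (by rw [inter_comm]; exact hE)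
        ⟨p, hpB, hpA⟩ ⟨q, hqA, hqB⟩ hqB
      rwa [inter_comm] at h1
    refine lv_glueF2 G A B D p q hpA hqB hno hD i (by omega) ?_ ?_
    · refine ih1 hc1 _ (insert_subset_insert _ inter_subset_left) (fun h => ?_) i hi
      rw [hb h, inter_eq_left.2 subset_union_left]
    · refine ih2 hc2 _ (insert_subset_insert _ inter_subset_left) (fun h => ?_) i hi
      rw [hb h, inter_eq_left.2 subset_union_right]

end Pool.Agent.W5h14.TV
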