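import Pool.Agent.W5h14.TV.Tree
import Pool.Agent.W5h14.TV.Jor

/-!
# Tame flag spheres: `ℓ²`-vanishing for all full subcomplexes
-/

set_option autoImplicit false

namespace Pool.Agent.W5h14.TV

open Finset Classical
open Pool.Agent.W907.SG Pool.Agent.W907.SM Pool.Agent.W5h83.FS
open Pool.Agent.TH652.Above (lv_img lv_set)
open Pool.Agent.R781.VS (con)

/-- Tame sets of vertices. -/
inductive Tame {V : Type} (G : SimpleGraph V) : ℕ → Finset V → Prop
  /-- few vertices -/
  | few (n : ℕ) (S : Finset V) : 2 * S.card ≤ 5 * n + 2 → Tame G n S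
  /-- flag 2-spheres -/
  | two (S : Finset V) : Jor G S → Tame G 3 S
  /-- even type: the links of the vertices are tame -/
  | even (m : ℕ) (S : Finset V) : (∀ x ∈ S, Tame G (2 * m + 1) (nb G S x)) → Tame G (2 * m + 2) S
  /-- odd type: there is a vertex whose non-neighbours span a tree -/
  | tree (m : ℕ) (S : Finset V) (v : V) : v ∈ S → TreeOn G (mn G S v) →
      (∀ x ∈ S, Tame G (2 * m + 2) (nb G S x)) →
      (∀ a ∈ mn G S v, ∀ b ∈ mn G S v, G.Adj a b → Tame G (2 * m + 1) (nb G (nb G S a) b)) →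
      Tame G (2 * m + 3) S

variable {V : Type} [Finite V] {G : SimpleGraph V}

/-- from the sphere to its full subcomplexes, by deletion of vertices -/
theorem lv_subs {S : Finset V} {k : ℕ} (h0 : ∀ i, k ≤ i → LV (G.induce (S : Set V)) i)
    (h1 : ∀ x ∈ S, ∀ A ⊆ nb G S x, ∀ i, k ≤ i → LV (G.induce (A : Set V)) i) :
    ∀ A ⊆ S, ∀ i, k ≤ i → LV (G.induce (A : Set V)) i := by
  have hrem : ∀ B ⊆ S, ∀ i, k ≤ i → LV (G.induce ((S \ B : Finset V) : Set V)) i := by
    intro B
    induction B using Finset.induction_on with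
    | empty =>
      intro _ i hi
      rw [sdiff_empty]
      exact h0 i hi
    | insert v B hvB ihB =>
      intro hB i hi
      have h2 : v ∈ S := hB (mem_insert_self v B)
      have h3 : B ⊆ S := (subset_insert v B).trans hB
      have h4 : v ∈ S \ B := mem_sdiff.2 ⟨h2, hvB⟩
      have h5 := lv_delF h4 i (ihB h3 i hi) (h1 v h2 _ (nb_mono sdiff_subset v) i hi)
      have h6 : S \ insert v B = (S \ B).erase v := by
        ext x
        simp only [mem_sdiff, mem_insert, mem_erase, not_or]
        tauto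
      rw [h6]
      exact h5
  intro A hA i hi
  have h2 := hrem (S \ A) sdiff_subset i hi
  rwa [Finset.sdiff_sdiff_eq_self hA] at h2

/-- even type, from the links of the vertices -/
theorem lv_even {S : Finset V} {k : ℕ} (hk : 1 ≤ k)
    (h1 : ∀ x ∈ S, ∀ A ⊆ nb G S x, ∀ i, k ≤ i → LV (G.induce (A : Set V)) i) :
    ∀ A ⊆ S, ∀ i, k + 1 ≤ i → LV (G.induce (A : Set V)) i := by
  intro A
  induction A using Finset.strongInduction with
  | _ A ihA =>
    intro hA i hi
    rcases A.eq_empty_or_nonempty with h2 | ⟨v, hv⟩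
    · rw [h2]
      exact lv_none i (by omega)
    · exact lv_addF hv i (ihA _ (erase_ssubset hv) ((erase_subset v A).trans hA) i hi)
        fun j hj => h1 v (hA hv) _ (nb_mono hA v) j (by omega)

/-- **`ℓ²`-vanishing for tame sets.** -/
theorem lv_tame (h2 : ∀ S : Finset V, Jor G S → ∀ i, 2 ≤ i → LV (G.induce (S : Set V)) i) {n : ℕ}
    {S : Finset V} (hT : Tame G n S) : Sp G n S →
    ∀ A ⊆ S, ∀ i, n / 2 + 1 ≤ i → LV (G.induce (A : Set V)) i := by
  induction hT with
  | few n S hc =>
    intro hS A hA i hi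
    rcases Nat.even_or_odd' n with ⟨m, rfl | rfl⟩
    · exact main (2 * m) (2 * m + 1) S hS (by omega) (by omega) A hA i (by omega)
    · exact main (2 * m + 1) (2 * m + 1) S hS (by omega) (by omega) A hA i (by omega)
  | two S hJ =>
    intro hS
    refine lv_subs (k := 2) (h2 S hJ) fun x hx A hA i hi => ?_
    refine lv_even (k := 1) le_rfl (S := nb G S x) (fun y hy B hB j hj => ?_) A hA i (by omega)
    have h3 : Sp G 1 (nb G (nb G S x) y) := (hS.nb hx).nb hy
    refine main 1 1 _ h3 le_rfl ?_ B hB j (by omega)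
    -- a 0-sphere has two points
    obtain ⟨⟨a, ha⟩, h4⟩ := h3
    have h5 : (mn G (nb G (nb G S x) y) a).card ≤ 1 := by
      by_contra h6
      push Not at h6
      obtain ⟨b, hb, c, hc, hbc⟩ := one_lt_card.1 h6
      obtain ⟨d, hd, e, he, -, hde⟩ := (h4 a ha).2.2 {b} (by
        rw [singleton_subset_iff]
        exact hb) (singleton_nonempty b) (by
        intro h7
        rw [← h7, mem_singleton] at hc
        exact hbc hc.symm)
      have h8 : Sp G 0 (nb G (nb G (nb G S x) y) d) := (h4 d (by
        rw [mem_singleton] at hd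
        rw [hd]
        exact (mem_mn.1 hb).1)).1
      have h9 : nb G (nb G (nb G S x) y) d = ∅ := h8
      have h10 : e ∈ nb G (nb G (nb G S x) y) d := mem_nb.2 ⟨(mem_mn.1 he).1, hde⟩
      rw [h9] at h10
      exact notMem_empty _ h10
    have h6 : nb G (nb G (nb G S x) y) a = ∅ := (h4 a ha).1
    have h7 := card_split (G := G) ha
    rw [h6, card_empty] at h7
    omega
  | even m S _ ih =>
    intro hS
    have h3 := lv_even (G := G) (S := S) (k := (2 * m + 1) / 2 + 1) (by omega) fun x hx A hA i hi =>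
      ih x hx (hS.nb hx) A hA i hi
    intro A hA i hi
    exact h3 A hA i (by omega)
  | tree m S v hv hT _ _ ih1 ih2 =>
    intro hS
    have h3 := lv_subs (G := G) (S := S) (k := m + 2) (fun i hi => ?_) fun x hx A hA i hi =>
      ih1 x hx (hS.nb hx) A hA i (by omega)
    · intro A hA i hi
      exact h3 A hA i (by omega)
    · refine lv_tree (n := 2 * m + 2) hS hv hT i fun a ha b hb hab j hj => ?_
      refine ih2 a ha b hb hab ?_ _ (Subset.refl _) j (by omega)
      exact (hS.nb (mem_mn.1 ha).1).nb (mem_nb.2 ⟨(mem_mn.1 hb).1, hab⟩)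

end Pool.Agent.W5h14.TV
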