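import Pool.Agent.W5h83.FS.L2

/-!
# Vertices of flag spheres whose non-neighbours span a tree

If the vertices of a flag sphere which are not adjacent to a vertex `v` span a tree, then the sphere can be
contracted to the suspension of the link of `v`: the leaves of the tree are contracted into their neighbours, one
after the other. No contracted edge is contained in an induced 4-cycle, and the links of the edges of the tree do not
change.
-/

set_option autoImplicit false

namespace Pool.Agent.W5h14.TV

open Finset Classical
open Pool.Agent.W907.SG Pool.Agent.W907.SM Pool.Agent.W5h83.FS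
open Pool.Agent.TH652.Above (lv_img lv_set)
open Pool.Agent.R781.VS (con NoSq l2split)

/-- The set `M` of vertices spans a tree: it is built from one vertex by adding leaves. -/
inductive TreeOn {V : Type} (G : SimpleGraph V) : Finset V → Prop
  | one (w : V) : TreeOn G {w}
  | leaf (M : Finset V) (s t : V) : TreeOn G M → s ∈ M → t ∉ M → G.Adj s t →
      (∀ u ∈ M, G.Adj t u → u = s) → TreeOn G (insert t M)

section tree
variable {V : Type} {G H : SimpleGraph V}

theorem TreeOn.congr {M : Finset V} (h : TreeOn G M) (e : ∀ a ∈ M, ∀ b ∈ M, (G.Adj a b ↔ H.Adj a b)) :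
    TreeOn H M := by
  induction h with
  | one w => exact TreeOn.one w
  | leaf M s t _ hs ht hst hl ih =>
    refine TreeOn.leaf M s t (ih fun a ha b hb => e a (mem_insert_of_mem ha) b (mem_insert_of_mem hb)) hs ht
      ((e s (mem_insert_of_mem hs) t (mem_insert_self _ _)).1 hst) fun u hu h1 => hl u hu ?_
    exact (e t (mem_insert_self _ _) u (mem_insert_of_mem hu)).2 h1

/-- trees contain no triangles -/
theorem TreeOn.notri {M : Finset V} (h : TreeOn G M) {a b c : V} (ha : a ∈ M) (hb : b ∈ M) (hc : c ∈ M)
    (hab : G.Adj a b) (hac : G.Adj a c) (hbc : G.Adj b c) : False := by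
  induction h generalizing a b c with
  | one w =>
    rw [mem_singleton] at ha hb
    rw [ha, hb] at hab
    exact G.irrefl hab
  | leaf M s t _ hs ht hst hl ih =>
    rw [mem_insert] at ha hb hc
    rcases ha with rfl | ha
    · have h1 : b = s := by
        rcases hb with rfl | hb
        · exact absurd hab G.irrefl
        · exact hl b hb hab
      have h2 : c = s := by
        rcases hc with rfl | hc
        · exact absurd hac G.irrefl
        · exact hl c hc hac
      rw [h1, h2] at hbc
      exact G.irrefl hbc
    · rcases hb with rfl | hb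
      · have h1 : a = s := hl a ha hab.symm
        have h2 : c = s := by
          rcases hc with rfl | hc
          · exact absurd hbc G.irrefl
          · exact hl c hc hbc
        rw [h1, h2] at hac
        exact G.irrefl hac
      · rcases hc with rfl | hc
        · have h1 : a = s := hl a ha hac.symm
          have h2 : b = s := hl b hb hbc.symm
          rw [h1, h2] at hab
          exact G.irrefl hab
        · exact ih ha hb hc hab hac hbc

end tree

variable {V : Type} [Finite V]

/-- the vertex splitting theorem for a full subcomplex -/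
theorem lv_conF {H : SimpleGraph V} {S : Finset V} {s t : V} (hs : s ∈ S) (ht : t ∈ S) (hst : H.Adj s t)
    (hsq : ∀ x ∈ S, ∀ y ∈ S, H.Adj s x → ¬ H.Adj t x → x ≠ t → H.Adj t y → ¬ H.Adj s y → y ≠ s →
      ¬ H.Adj x y) (i : ℕ)
    (h1 : LV ((con H s t).induce ((S.erase t : Finset V) : Set V)) i)
    (h2 : ∀ j, i = j + 1 → LV (H.induce ((nb H (nb H S s) t : Finset V) : Set V)) j) :
    LV (H.induce (S : Set V)) i := by
  set K := H.induce (S : Set V) with hK
  let s' : ↥(S : Set V) := ⟨s, hs⟩
  let t' : ↥(S : Set V) := ⟨t, ht⟩
  have e1 : LV ((con K s' t').induce ({t'}ᶜ : Set ↥(S : Set V))) i := by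
    rw [lv_img (H := con K s' t') (G := con H s t) Subtype.val ({t'}ᶜ : Set ↥(S : Set V))
      (fun _ _ _ _ h => Subtype.ext h) ?_ i]
    · refine lv_set ?_ h1
      ext x
      simp only [Set.mem_image, Set.mem_compl_iff, Set.mem_singleton_iff, Subtype.exists, exists_and_right,
        exists_eq_right, mem_coe, mem_erase, t', Subtype.mk.injEq]
      constructor
      · rintro ⟨h3, h4⟩
        exact ⟨h4, h3⟩
      · rintro ⟨h3, h4⟩
        exact ⟨h4, h3⟩
    · intro a _ b _
      constructor
      · rintro ⟨h3, h4, h5, h6⟩
        refine ⟨fun h => h3 (congrArg Subtype.val h), fun h => h4 (congrArg Subtype.val h),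
          fun h => h5 (congrArg Subtype.val h), ?_⟩
        rcases h6 with h | ⟨h, h7⟩ | ⟨h, h7⟩
        · exact Or.inl h
        · exact Or.inr (Or.inl ⟨Subtype.ext h, h7⟩)
        · exact Or.inr (Or.inr ⟨Subtype.ext h, h7⟩)
      · rintro ⟨h3, h4, h5, h6⟩
        refine ⟨fun h => h3 (Subtype.ext h), fun h => h4 (Subtype.ext h), fun h => h5 (Subtype.ext h), ?_⟩
        rcases h6 with h | ⟨h, h7⟩ | ⟨h, h7⟩
        · exact Or.inl h
        · exact Or.inr (Or.inl ⟨congrArg Subtype.val h, h7⟩)
        · exact Or.inr (Or.inr ⟨congrArg Subtype.val h, h7⟩)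
  have e2 : ∀ j, i = j + 1 → LV (K.induce (K.neighborSet s' ∩ K.neighborSet t')) j := by
    intro j hj
    rw [hK, Pool.Agent.TH652.Above.lv_sub]
    refine lv_set ?_ (h2 j hj)
    ext x
    simp only [Set.mem_image, Set.mem_inter_iff, SimpleGraph.mem_neighborSet, Subtype.exists,
      exists_and_right, exists_eq_right, mem_coe, mem_nb]
    constructor
    · rintro ⟨h, h3, h4⟩
      exact ⟨⟨h, h3⟩, h4⟩
    · rintro ⟨⟨h, h3⟩, h4⟩
      exact ⟨h, h3, h4⟩
  intro _ _
  refine l2split _ K s' t' i hst ?_ (e1 _ _) fun j hj => e2 j hj _ _
  rintro ⟨x, hx'⟩ ⟨y, hy'⟩ h3 h4 h5 h6 h7 h8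
  exact hsq x hx' y hy' h3 h4 (fun h => h5 (Subtype.ext h)) h6 h7 (fun h => h8 (Subtype.ext h))

/-- contraction of the tree of the non-neighbours of `v` -/
theorem lv_tree_aux (i : ℕ) : ∀ (k : ℕ) (H : SimpleGraph V) (M : Finset V), M.card = k → TreeOn H M →
    ∀ (S : Finset V) (v : V), v ∈ S → mn H S v = M →
    (∀ x ∈ nb H S v, (nb H M x).Nonempty ∧ Conn H (nb H M x)) →
    (∀ x ∈ nb H S v, ∀ y ∈ nb H S v, H.Adj x y → ∃ u ∈ M, H.Adj x u ∧ H.Adj y u) →
    (∀ a ∈ M, ∀ b ∈ M, H.Adj a b → ∀ j, i = j + 1 →
      LV (H.induce ((nb H (nb H S a) b : Finset V) : Set V)) j) →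
    LV (H.induce (S : Set V)) i := by
  intro k
  induction k with
  | zero =>
    intro H M hc hT
    exfalso
    rw [card_eq_zero] at hc
    cases hT with
    | one w => exact singleton_ne_empty w hc
    | leaf M s t _ _ _ _ _ => exact insert_ne_empty t M hc
  | succ k ih =>
    intro H M hc hT S v hv hM hC1 hC2 hE
    cases hT with
    | one w =>
      have hw : w ∈ S ∧ w ≠ v ∧ ¬ H.Adj v w := mem_mn.1 (hM ▸ mem_singleton_self w)
      refine lv_suspF hv hw.1 hw.2.1.symm hw.2.2 (fun u hu h1 h2 => ?_) i
      have h3 : H.Adj v u := by
        by_contra h4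
        have h5 : u ∈ mn H S v := mem_mn.2 ⟨hu, h1, h4⟩
        rw [hM, mem_singleton] at h5
        exact h2 h5
      refine ⟨h3.symm, ?_⟩
      obtain ⟨z, hz⟩ := (hC1 u (mem_nb.2 ⟨hu, h3⟩)).1
      rw [mem_nb, mem_singleton] at hz
      rw [← hz.1]
      exact hz.2
    | leaf M s t hT hs ht hst hl =>
      have hst' : s ≠ t := hst.ne
      have hc' : M.card = k := by
        rw [card_insert_of_notMem ht] at hc
        omega
      have mM : ∀ x, x ∈ insert t M ↔ x ∈ S ∧ x ≠ v ∧ ¬ H.Adj v x := fun x => by rw [← hM, mem_mn]
      have hsS := (mM s).1 (mem_insert_of_mem hs)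
      have htS := (mM t).1 (mem_insert_self _ _)
      -- a vertex of `S` is `v`, in the link of `v`, or in the tree
      have tri : ∀ x ∈ S, x = v ∨ x ∈ nb H S v ∨ x ∈ insert t M := by
        intro x hx
        by_cases h1 : x = v
        · exact Or.inl h1
        · by_cases h2 : H.Adj v x
          · exact Or.inr (Or.inl (mem_nb.2 ⟨hx, h2⟩))
          · exact Or.inr (Or.inr ((mM x).2 ⟨hx, h1, h2⟩))
      have nbM : ∀ x ∈ nb H S v, x ∉ insert t M := fun x hx h => ((mM x).1 h).2.2 (mem_nb.1 hx).2
      -- the key fact
      have key : ∀ x ∈ nb H S v, H.Adj x t → ∀ z ∈ M, H.Adj x z → H.Adj x s := by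
        intro x hx hxt z hz hxz
        obtain ⟨c, hc1, d, hd1, hd2, hcd⟩ := (hC1 x hx).2 {t} (by
          rw [singleton_subset_iff, mem_nb]
          exact ⟨mem_insert_self _ _, hxt⟩) (singleton_nonempty t) (by
          intro h
          have h1 : z ∈ nb H (insert t M) x := mem_nb.2 ⟨mem_insert_of_mem hz, hxz⟩
          rw [← h, mem_singleton] at h1
          rw [h1] at hz
          exact ht hz)
        rw [mem_singleton] at hc1 hd2
        rw [hc1] at hcd
        rw [mem_nb, mem_insert] at hd1
        rcases hd1.1 with h | h
        · exact absurd h hd2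
        · have h1 := hl d h hcd
          rw [← h1]
          exact hd1.2
      have hsq : ∀ x ∈ S, ∀ y ∈ S, H.Adj s x → ¬ H.Adj t x → x ≠ t → H.Adj t y → ¬ H.Adj s y → y ≠ s →
          ¬ H.Adj x y := by
        intro x hx y hy h1 h2 h3 h4 h5 h6 hxy
        have hyv : y ∈ nb H S v := by
          rcases tri y hy with h | h | h
          · rw [h] at h4
            exact absurd h4.symm htS.2.2
          · exact h
          · rw [mem_insert] at h
            rcases h with h | h
            · rw [h] at h4
              exact absurd h4 H.irrefl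
            · exact absurd (hl y h h4) h6
        rcases tri x hx with h | h | h
        · rw [h] at h1
          exact hsS.2.2 h1.symm
        · obtain ⟨u, hu, hxu, hyu⟩ := hC2 x h y hyv hxy
          rw [mem_insert] at hu
          rcases hu with hu | hu
          · rw [hu] at hxu
            exact h2 hxu.symm
          · exact h5 (key y hyv h4.symm u hu hyu).symm
        · rw [mem_insert] at h
          rcases h with h | h
          · exact h3 h
          · exact h5 (key y hyv h4.symm x h hxy.symm).symm
      -- adjacency in the contracted graph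
      have adj1 : ∀ x y, x ≠ t → y ≠ t → H.Adj x y → (con H s t).Adj x y :=
        fun x y h1 h2 h => ⟨h.ne, h1, h2, Or.inl h⟩
      have adj2 : ∀ x y, (con H s t).Adj x y → x ≠ s → y ≠ s → H.Adj x y := by
        rintro x y ⟨-, -, -, h⟩ h1 h2
        rcases h with h | ⟨h, -⟩ | ⟨h, -⟩
        · exact h
        · exact absurd h h1
        · exact absurd h h2
      have adj3 : ∀ x y, (con H s t).Adj x y → y ≠ s → H.Adj x y ∨ (x = s ∧ H.Adj t y) := by
        rintro x y ⟨-, -, -, h⟩ h2
        rcases h with h | h | ⟨h, -⟩
        · exact Or.inl h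
        · exact Or.inr h
        · exact absurd h h2
      have hMt : ∀ a ∈ M, a ≠ t := fun a ha h => ht (h ▸ ha)
      have adjM : ∀ a ∈ M, ∀ b ∈ M, (con H s t).Adj a b → H.Adj a b := by
        rintro a ha b hb ⟨h0, -, -, h⟩
        rcases h with h | ⟨h, h1⟩ | ⟨h, h1⟩
        · exact h
        · have := hl b hb h1
          exact absurd (h.trans this.symm) h0
        · have := hl a ha h1
          exact absurd (this.trans h.symm) h0
      have hvs : v ≠ s := hsS.2.1.symm
      have hvt : v ≠ t := htS.2.1.symm
      have adjv : ∀ x, x ≠ t → ((con H s t).Adj v x ↔ H.Adj v x) := by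
        intro x hx
        constructor
        · rintro ⟨-, -, -, h⟩
          rcases h with h | ⟨h, -⟩ | ⟨-, h⟩
          · exact h
          · exact absurd h hvs
          · exact absurd h.symm htS.2.2
        · exact fun h => adj1 v x hvt hx h
      have hv' : v ∈ S.erase t := mem_erase.2 ⟨hvt, hv⟩
      have nbt : ∀ x ∈ nb H S v, x ≠ t := fun x hx h => htS.2.2 (h ▸ (mem_nb.1 hx).2)
      have nbs : ∀ x ∈ nb H S v, x ≠ s := fun x hx h => hsS.2.2 (h ▸ (mem_nb.1 hx).2)
      have hM' : mn (con H s t) (S.erase t) v = M := by
        ext x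
        rw [mem_mn, mem_erase]
        constructor
        · rintro ⟨⟨h1, h2⟩, h3, h4⟩
          rw [adjv x h1] at h4
          have h5 := (mM x).2 ⟨h2, h3, h4⟩
          rw [mem_insert] at h5
          exact h5.resolve_left h1
        · intro h1
          have h2 := (mM x).1 (mem_insert_of_mem h1)
          refine ⟨⟨hMt x h1, h2.1⟩, h2.2.1, ?_⟩
          rw [adjv x (hMt x h1)]
          exact h2.2.2
      have hnb : nb (con H s t) (S.erase t) v = nb H S v := by
        ext x
        rw [mem_nb, mem_erase]
        constructor
        · rintro ⟨⟨h1, h2⟩, h3⟩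
          rw [adjv x h1] at h3
          exact mem_nb.2 ⟨h2, h3⟩
        · intro h1
          have h2 := nbt x h1
          refine ⟨⟨h2, (mem_nb.1 h1).1⟩, ?_⟩
          rw [adjv x h2]
          exact (mem_nb.1 h1).2
      refine lv_conF hsS.1 htS.1 hst hsq i ?_ (hE s (mem_insert_of_mem hs) t (mem_insert_self _ _) hst)
      refine ih (con H s t) M hc' (hT.congr fun a ha b hb => ⟨adj1 a b (hMt a ha) (hMt b hb), adjM a ha b hb⟩)
        (S.erase t) v hv' hM' ?_ ?_ ?_
      · -- connectedness
        rw [hnb]
        intro x hx
        have hxs := nbs x hx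
        have hxt := nbt x hx
        have cs : H.Adj x t → (con H s t).Adj x s := fun h => ⟨hxs, hxt, hst', Or.inr (Or.inr ⟨rfl, h.symm⟩)⟩
        constructor
        · obtain ⟨z, hz⟩ := (hC1 x hx).1
          rw [mem_nb, mem_insert] at hz
          rcases hz.1 with h | h
          · rw [h] at hz
            exact ⟨s, mem_nb.2 ⟨hs, cs hz.2⟩⟩
          · exact ⟨z, mem_nb.2 ⟨h, adj1 x z hxt (hMt z h) hz.2⟩⟩
        · by_cases h0 : H.Adj x t ∧ ∀ z ∈ M, ¬ H.Adj x z
          · -- the set is `{s}`
            intro C hC hCn hCne
            exfalso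
            apply hCne
            have h1 : ∀ z ∈ nb (con H s t) M x, z = s := by
              intro z hz
              rw [mem_nb] at hz
              by_contra h2
              exact h0.2 z hz.1 (adj2 x z hz.2 hxs h2)
            refine Subset.antisymm hC fun z hz => ?_
            obtain ⟨c, hc⟩ := hCn
            rw [h1 z hz, ← h1 c (hC hc)]
            exact hc
          · push Not at h0
            have hT' : ∀ z, z ∈ nb (con H s t) M x ↔ z ∈ M ∧ H.Adj x z := by
              intro z
              rw [mem_nb]
              constructor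
              · rintro ⟨h1, h2⟩
                refine ⟨h1, ?_⟩
                by_cases h3 : z = s
                · rw [h3] at h2 ⊢
                  obtain ⟨-, -, -, h | ⟨h, -⟩ | ⟨-, h⟩⟩ := h2
                  · exact h
                  · exact absurd h hxs
                  · obtain ⟨w, hw, hxw⟩ := h0 h.symm
                    exact key x hx h.symm w hw hxw
                · exact adj2 x z h2 hxs h3
              · rintro ⟨h1, h2⟩
                exact ⟨h1, adj1 x z hxt (hMt z h1) h2⟩
            intro C hC hCn hCne
            have hCM : ∀ c ∈ C, c ∈ M ∧ H.Adj x c := fun c hc => (hT' c).1 (hC hc)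
            have htC : t ∉ C := fun h => ht (hCM t h).1
            set C1 : Finset V := if s ∈ C ∧ H.Adj x t then insert t C else C with hC1d
            have hsub : C ⊆ C1 := by
              rw [hC1d]
              split_ifs
              · exact subset_insert t C
              · exact Subset.refl C
            have hC1s : ∀ c ∈ C1, c ∈ C ∨ (c = t ∧ s ∈ C ∧ H.Adj x t) := by
              intro c hc
              rw [hC1d] at hc
              split_ifs at hc with h
              · rw [mem_insert] at hc
                rcases hc with hc | hc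
                · exact Or.inr ⟨hc, h⟩
                · exact Or.inl hc
              · exact Or.inl hc
            obtain ⟨c, hc, d, hd, hdC, hcd⟩ := (hC1 x hx).2 C1 (by
              intro c hc
              rcases hC1s c hc with h | ⟨h, -, h1⟩
              · exact mem_nb.2 ⟨mem_insert_of_mem (hCM c h).1, (hCM c h).2⟩
              · rw [h]
                exact mem_nb.2 ⟨mem_insert_self _ _, h1⟩) (hCn.mono hsub) (by
              intro h
              apply hCne
              refine Subset.antisymm hC fun z hz => ?_
              have h1 := (hT' z).1 hz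
              have h2 : z ∈ C1 := by
                rw [h]
                exact mem_nb.2 ⟨mem_insert_of_mem h1.1, h1.2⟩
              rcases hC1s z h2 with h3 | ⟨h3, -⟩
              · exact h3
              · exact absurd h3 (hMt z h1.1))
            rw [mem_nb, mem_insert] at hd
            have hcC : c ∈ C := by
              rcases hC1s c hc with h | ⟨h, h1, -⟩
              · exact h
              · exfalso
                rw [h] at hcd
                rcases hd.1 with h2 | h2
                · rw [h2] at hcd
                  exact H.irrefl hcd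
                · rw [hl d h2 hcd] at hdC
                  exact hdC (hsub h1)
            have hdt : d ≠ t := by
              intro h
              rw [h] at hcd hdC
              have h1 := hl c (hCM c hcC).1 hcd.symm
              rw [h1] at hcC
              apply hdC
              rw [hC1d, if_pos ⟨hcC, by rw [← h]; exact hd.2⟩]
              exact mem_insert_self _ _
            have hdM : d ∈ M := hd.1.resolve_left hdt
            exact ⟨c, hcC, d, (hT' d).2 ⟨hdM, hd.2⟩, fun h => hdC (hsub h),
              adj1 c d (hMt c (hCM c hcC).1) hdt hcd⟩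
      · -- pairs
        rw [hnb]
        intro x hx y hy hxy
        have hxy' := adj2 x y hxy (nbs x hx) (nbs y hy)
        obtain ⟨u, hu, hxu, hyu⟩ := hC2 x hx y hy hxy'
        rw [mem_insert] at hu
        rcases hu with hu | hu
        · rw [hu] at hxu hyu
          exact ⟨s, hs, ⟨nbs x hx, nbt x hx, hst', Or.inr (Or.inr ⟨rfl, hxu.symm⟩)⟩,
            ⟨nbs y hy, nbt y hy, hst', Or.inr (Or.inr ⟨rfl, hyu.symm⟩)⟩⟩
        · exact ⟨u, hu, adj1 x u (nbt x hx) (hMt u hu) hxu, adj1 y u (nbt y hy) (hMt u hu) hyu⟩
      · -- links of the edges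
        intro a ha b hb hab j hj
        have hab' := adjM a ha b hb hab
        have hL := hE a (mem_insert_of_mem ha) b (mem_insert_of_mem hb) hab' j hj
        have haS := (mM a).1 (mem_insert_of_mem ha)
        have hbS := (mM b).1 (mem_insert_of_mem hb)
        have hT2 : TreeOn H (insert t M) := TreeOn.leaf M s t hT hs ht hst hl
        -- the members of the link of the edge `ab` are adjacent to `v`
        have h1 : ∀ x ∈ nb H (nb H S a) b, x ∈ nb H S v := by
          intro x hx
          rw [mem_nb, mem_nb] at hx
          rcases tri x hx.1.1 with h | h | h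
          · rw [h] at hx
            exact absurd hx.2.symm hbS.2.2
          · exact h
          · exact (hT2.notri (mem_insert_of_mem ha) (mem_insert_of_mem hb) h hab' hx.1.2 hx.2).elim
        have hset : nb (con H s t) (nb (con H s t) (S.erase t) a) b = nb H (nb H S a) b := by
          ext x
          constructor
          · intro hx
            rw [mem_nb, mem_nb, mem_erase] at hx
            obtain ⟨⟨⟨hxt, hxS⟩, hax⟩, hbx⟩ := hx
            have hxs : x ≠ s := by
              rintro rfl
              have h2 := adjM a ha x hs hax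
              have h3 := adjM b hb x hs hbx
              exact hT2.notri (mem_insert_of_mem ha) (mem_insert_of_mem hb) (mem_insert_of_mem hs) hab' h2 h3
            -- `H.Adj a x` or `a = s` and `H.Adj t x`
            have ha2 : H.Adj a x ∨ (a = s ∧ H.Adj t x) := by
              obtain ⟨-, -, -, h | h | ⟨h, -⟩⟩ := hax
              · exact Or.inl h
              · exact Or.inr h
              · exact absurd h hxs
            have hb2 : H.Adj b x ∨ (b = s ∧ H.Adj t x) := by
              obtain ⟨-, -, -, h | h | ⟨h, -⟩⟩ := hbx
              · exact Or.inl h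
              · exact Or.inr h
              · exact absurd h hxs
            -- if `t` is adjacent to `x` then `x` is in the link of `v`
            have hxv : H.Adj t x → x ∈ nb H S v := by
              intro h
              rcases tri x hxS with h2 | h2 | h2
              · rw [h2] at h
                exact absurd h.symm htS.2.2
              · exact h2
              · rw [mem_insert] at h2
                rcases h2 with h2 | h2
                · exact absurd h2 hxt
                · exact absurd (hl x h2 h) hxs
            have hax' : H.Adj a x := by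
              rcases ha2 with h | ⟨h, h2⟩
              · exact h
              · rcases hb2 with h3 | ⟨h3, -⟩
                · rw [h]
                  exact (key x (hxv h2) h2.symm b hb h3.symm).symm
                · rw [h, h3] at hab'
                  exact absurd hab' H.irrefl
            have hbx' : H.Adj b x := by
              rcases hb2 with h | ⟨h, h2⟩
              · exact h
              · rw [h]
                exact (key x (hxv h2) h2.symm a ha hax'.symm).symm
            exact mem_nb.2 ⟨mem_nb.2 ⟨hxS, hax'⟩, hbx'⟩
          · intro hx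
            have h2 := nbt x (h1 x hx)
            rw [mem_nb, mem_nb] at hx
            rw [mem_nb, mem_nb, mem_erase]
            exact ⟨⟨⟨h2, hx.1.1⟩, adj1 a x (hMt a ha) h2 hx.1.2⟩, adj1 b x (hMt b hb) h2 hx.2⟩
        rw [hset]
        have h5 := (lv_img (H := H) (G := con H s t) id ((nb H (nb H S a) b : Finset V) : Set V)
          (fun _ _ _ _ h => h) (by
            intro x hx y hy
            rw [mem_coe] at hx hy
            constructor
            · exact fun h => adj2 x y h (nbs x (h1 x hx)) (nbs y (h1 y hy))
            · exact fun h => adj1 x y (nbt x (h1 x hx)) (nbt y (h1 y hy)) h) j).1 hL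
        rwa [Set.image_id] at h5

/-- a flag sphere with a vertex whose non-neighbours span a tree -/
theorem lv_tree {G : SimpleGraph V} {n : ℕ} {S : Finset V} (hS : Sp G (n + 1) S) {v : V} (hv : v ∈ S)
    (hT : TreeOn G (mn G S v)) (i : ℕ)
    (h : ∀ a ∈ mn G S v, ∀ b ∈ mn G S v, G.Adj a b → ∀ j, i = j + 1 →
      LV (G.induce ((nb G (nb G S a) b : Finset V) : Set V)) j) :
    LV (G.induce (S : Set V)) i := by
  have hset : ∀ x, nb G (mn G S v) x = mn G (nb G S x) v := by
    intro x
    ext a
    rw [mem_nb, mem_mn, mem_mn, mem_nb]
    tauto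
  refine lv_tree_aux i _ G (mn G S v) rfl hT S v hv rfl ?_ ?_ h
  · intro x hx
    obtain ⟨hxS, hvx⟩ := mem_nb.1 hx
    have h1 : v ∈ nb G S x := mem_nb.2 ⟨hv, hvx.symm⟩
    rw [hset]
    exact ⟨(hS.nb hxS).ne h1, (hS.nb hxS).conn h1⟩
  · intro x hx y hy hxy
    obtain ⟨hxS, hvx⟩ := mem_nb.1 hx
    obtain ⟨hyS, hvy⟩ := mem_nb.1 hy
    have h1 : v ∈ nb G S x := mem_nb.2 ⟨hv, hvx.symm⟩
    have h2 : y ∈ nb G S x := mem_nb.2 ⟨hyS, hxy⟩
    obtain ⟨z, hz, hzy⟩ := (hS.nb hxS).ex_nb h1 h2 hvy
    rw [← hset, mem_nb] at hz
    exact ⟨z, hz.1, hz.2, hzy.symm⟩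

end Pool.Agent.W5h14.TV
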