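import Pool.Agent.W5h14.TV.Tame

/-!
# `ℓ²`-vanishing for flag 2-spheres, from the contraction of edges
-/

set_option autoImplicit false

namespace Pool.Agent.W5h14.TV

open Finset Classical
open Pool.Agent.W907.SG Pool.Agent.W907.SM Pool.Agent.W5h83.FS
open Pool.Agent.TH652.Above (lv_img lv_set)
open Pool.Agent.R781.VS (con)

/-- cycles of length at least four contain no triangles -/
theorem Cyc.notri {V : Type} {G : SimpleGraph V} {C : Finset V} (h : Cyc G C) {v a b : V} (hv : v ∈ C)
    (ha : a ∈ C) (hb : b ∈ C) (hva : G.Adj v a) (hvb : G.Adj v b) : ¬ G.Adj a b := by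
  intro hab
  have key : ∀ x y z : V, x ∈ C → y ∈ C → z ∈ C → G.Adj x y → G.Adj x z → y ≠ z → nb G C x = {y, z} := by
    intro x y z hx hy hz h1 h2 h3
    refine (eq_of_subset_of_card_le ?_ ?_).symm
    · intro w hw
      rw [mem_insert, mem_singleton] at hw
      rcases hw with rfl | rfl
      · exact mem_nb.2 ⟨hy, h1⟩
      · exact mem_nb.2 ⟨hz, h2⟩
    · rw [h.2.2 x hx, card_pair h3]
  have h1 := key v a b hv ha hb hva hvb hab.ne
  have h2 := key a v b ha hv hb hva.symm hab hvb.ne
  have h3 := key b v a hb hv ha hvb.symm hab.symm hva.ne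
  obtain ⟨c, hc, d, hd, hd1, hcd⟩ := h.2.1 {v, a, b} (by
    intro w hw
    simp only [mem_insert, mem_singleton] at hw
    rcases hw with rfl | rfl | rfl
    · exact hv
    · exact ha
    · exact hb) ⟨v, mem_insert_self _ _⟩ (by
    intro h4
    have h5 := h.1
    rw [← h4] at h5
    have h6 := card_le_three (a := v) (b := a) (c := b)
    omega)
  have h4 : d ∈ nb G C c := mem_nb.2 ⟨hd, hcd⟩
  simp only [mem_insert, mem_singleton] at hc hd1
  rcases hc with rfl | rfl | rfl
  · rw [h1, mem_insert, mem_singleton] at h4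
    tauto
  · rw [h2, mem_insert, mem_singleton] at h4
    tauto
  · rw [h3, mem_insert, mem_singleton] at h4
    tauto

/-- **`ℓ²`-vanishing for flag 2-spheres.** -/
theorem lv_jor_of {V : Type} [Finite V]
    (hB : ∀ (G : SimpleGraph V) (S : Finset V) (s t : V), Jor G S → s ∈ S → t ∈ S → G.Adj s t →
      NoSqF G S s t → Jor (con G s t) (S.erase t))
    (hC : ∀ (G : SimpleGraph V) (S : Finset V), Jor G S → (∃ s ∈ S, ∃ t ∈ S, G.Adj s t ∧ NoSqF G S s t) ∨
      (∃ v ∈ S, ∃ w ∈ S, v ≠ w ∧ ¬ G.Adj v w ∧ ∀ u ∈ S, u ≠ v → u ≠ w → G.Adj u v ∧ G.Adj u w)) :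
    ∀ (k : ℕ) (G : SimpleGraph V) (S : Finset V), S.card = k → Jor G S → ∀ i, 2 ≤ i →
      LV (G.induce (S : Set V)) i := by
  intro k
  induction k with
  | zero =>
    intro G S hc hJ
    exact absurd hJ.1 (by rw [card_eq_zero.1 hc]; exact not_nonempty_empty)
  | succ k ih =>
    intro G S hc hJ i hi
    rcases hC G S hJ with ⟨s, hs, t, ht, hst, hq⟩ | ⟨v, hv, w, hw, hvw, hn, h⟩
    · refine lv_conF hs ht hst hq i (ih (con G s t) (S.erase t) ?_ (hB G S s t hJ hs ht hst hq) i hi) ?_
      · rw [card_erase_of_mem ht, hc]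
        rfl
      · intro j hj
        have h1 : Cyc G (nb G S s) := hJ.2.2.1 s hs
        have h2 : t ∈ nb G S s := mem_nb.2 ⟨ht, hst⟩
        obtain ⟨a, b, hab, h3⟩ := card_eq_two.1 (h1.2.2 t h2)
        have ha : a ∈ nb G (nb G S s) t := h3 ▸ mem_insert_self _ _
        have hb : b ∈ nb G (nb G S s) t := h3 ▸ mem_insert_of_mem (mem_singleton_self _)
        refine lv_suspF ha hb hab
          (h1.notri h2 (mem_nb.1 ha).1 (mem_nb.1 hb).1 (mem_nb.1 ha).2 (mem_nb.1 hb).2) ?_ j
        intro u hu hua hub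
        rw [h3, mem_insert, mem_singleton] at hu
        rcases hu with h | h
        · exact absurd h hua
        · exact absurd h hub
    · exact lv_suspF hv hw hvw hn h i

end Pool.Agent.W5h14.TV
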